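import Pool.Agent.Run7.h225.TS.Ovr
import Pool.Agent.N862.PP.Par

/-!
# The primes over a prime `Q` not dividing the discriminant, II

Project TS (helper875), problem MP_48b749_nt; helper225.
-/

set_option autoImplicit false
set_option linter.all false

open Polynomial IsDedekindDomain WithZero
open Pool.Agent.N874.PP Run7.h875.TS Run7.h225.TS
open scoped Classical

namespace Run7.h225.TS.Ovr

section approx

variable {O L : Type} [CommRing O] [IsDedekindDomain O] [Field L] [Algebra O L]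
  [IsFractionRing O L]

/-- Simultaneous approximation. -/
theorem approx {s : Set (HeightOneSpectrum O)} (hs : s.Finite) (y : HeightOneSpectrum O → L)
    (hy : ∀ 𝔓 ∈ s, y 𝔓 ≠ 0) :
    ∃ β : L, ∀ 𝔓 ∈ s, 𝔓.valuation L (β - y 𝔓) < 𝔓.valuation L (y 𝔓) := by
  set S := hs.toFinset with hS
  obtain ⟨d, hd⟩ := IsLocalization.exist_integer_multiples (nonZeroDivisors O) S y
  have hd0 : (d : O) ≠ 0 := nonZeroDivisors.ne_zero d.2
  have hdL : algebraMap O L d ≠ 0 := by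
    intro h0
    exact hd0 (IsFractionRing.injective O L (by rw [h0, map_zero]))
  have hn : ∀ 𝔓 : HeightOneSpectrum O, ∃ n : O, 𝔓 ∈ s → algebraMap O L n = algebraMap O L d * y 𝔓 := by
    intro 𝔓
    by_cases h : 𝔓 ∈ s
    · obtain ⟨n, hn⟩ := hd 𝔓 (hs.mem_toFinset.2 h)
      refine ⟨n, fun _ => ?_⟩
      rw [hn, Algebra.smul_def]
    · exact ⟨0, fun h' => absurd h' h⟩
  choose n hn using hn
  have he : ∀ 𝔓 : HeightOneSpectrum O, ∃ e : ℕ, 𝔓 ∈ s →
      exp (-(e : ℤ)) < 𝔓.valuation L (algebraMap O L (n 𝔓)) := by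
    intro 𝔓
    by_cases h : 𝔓 ∈ s
    · have hne : 𝔓.valuation L (algebraMap O L (n 𝔓)) ≠ 0 := by
        rw [Valuation.ne_zero_iff, hn 𝔓 h]
        exact mul_ne_zero hdL (hy 𝔓 h)
      refine ⟨(-log (𝔓.valuation L (algebraMap O L (n 𝔓))) + 1).toNat, fun _ => ?_⟩
      refine lt_of_lt_of_eq (exp_lt_exp.2 ?_) (exp_log hne)
      omega
    · exact ⟨0, fun h' => absurd h' h⟩
  choose e he using he
  obtain ⟨z, hz⟩ := IsDedekindDomain.exists_forall_sub_mem_ideal (s := S)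
    (fun 𝔓 : HeightOneSpectrum O => 𝔓.asIdeal) e (fun 𝔓 _ => 𝔓.prime)
    (fun 𝔓 _ 𝔮 _ hne h0 => hne (HeightOneSpectrum.ext h0)) (fun 𝔓 => n 𝔓)
  refine ⟨algebraMap O L z / algebraMap O L d, fun 𝔓 h𝔓 => ?_⟩
  have h1 : 𝔓.valuation L (algebraMap O L (z - n 𝔓)) ≤ exp (-(e 𝔓 : ℤ)) := by
    rw [HeightOneSpectrum.valuation_of_algebraMap]
    exact (𝔓.intValuation_le_pow_iff_mem _ _).2 (hz 𝔓 (hs.mem_toFinset.2 h𝔓))
  have h2 := lt_of_le_of_lt h1 (he 𝔓 h𝔓)
  have e1 : algebraMap O L z / algebraMap O L d - y 𝔓 =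
      algebraMap O L (z - n 𝔓) / algebraMap O L d := by
    rw [map_sub, hn 𝔓 h𝔓]
    field_simp
  have e2 : y 𝔓 = algebraMap O L (n 𝔓) / algebraMap O L d := by
    rw [hn 𝔓 h𝔓]
    field_simp
  rw [e1, e2, map_div₀, map_div₀]
  have h3 : 0 < 𝔓.valuation L (algebraMap O L d) := zero_lt_iff.2 ((Valuation.ne_zero_iff _).2 hdL)
  exact div_lt_div_of_pos_right h2 h3

end approx

section ovq

variable {k K L O : Type} [Field k] [Field K] [Algebra k[X] K] [IsFractionRing k[X] K]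
  [Field L] [Algebra K L] [Algebra k[X] L] [IsScalarTower k[X] K L] [CommRing O]
  [IsDedekindDomain O] [Algebra O L] [IsFractionRing O L] [Algebra k[X] O]
  [IsScalarTower k[X] O L] [IsIntegralClosure O k[X] L] {a b : k[X]} {θ : L}

include K L in
theorem fin_ov {Q : k[X]} (hQ : Q ≠ 0) : {𝔓 : HeightOneSpectrum O | Ov Q 𝔓}.Finite := by
  have hinjO := Pool.Agent.N862.PP.algO_inj (K := K) (L := L) (O := O) (k := k)
  have hQO : Ideal.span {algebraMap k[X] O Q} ≠ 0 := by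
    intro h0
    have h1 : algebraMap k[X] O Q = 0 := by
      have := Ideal.mem_span_singleton_self (algebraMap k[X] O Q)
      rw [h0] at this
      simpa using this
    exact hQ (hinjO (by rw [h1, map_zero]))
  refine (Ideal.finite_factors hQO).subset fun 𝔓 h𝔓 => ?_
  change 𝔓.asIdeal ∣ _
  rw [Ideal.dvd_iff_le, Ideal.span_singleton_le_iff_mem]
  exact h𝔓

theorem val_poly_le (𝔓 : HeightOneSpectrum O) (c : k[X]) :
    𝔓.valuation L (algebraMap k[X] L c) ≤ 1 := by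
  rw [IsScalarTower.algebraMap_apply k[X] O L]
  exact 𝔓.valuation_le_one _

theorem val_poly_lt {Q : k[X]} (hQ : Irreducible Q) {𝔓 : HeightOneSpectrum O} (hov : Ov Q 𝔓)
    (c : k[X]) : 𝔓.valuation L (algebraMap k[X] L c) < 1 ↔ Q ∣ c := by
  rw [IsScalarTower.algebraMap_apply k[X] O L, ← Pool.Agent.N862.PP.ov_iff hQ hov]
  exact 𝔓.valuation_lt_one_iff_mem _

theorem val_poly_eq {Q : k[X]} (hQ : Irreducible Q) {𝔓 : HeightOneSpectrum O} (hov : Ov Q 𝔓)
    {c : k[X]} (hc : ¬ Q ∣ c) : 𝔓.valuation L (algebraMap k[X] L c) = 1 :=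
  le_antisymm (val_poly_le 𝔓 c) (not_lt.1 fun h => hc ((val_poly_lt hQ hov c).1 h))

theorem val_theta_le (h : IsCub K a b θ) (𝔓 : HeightOneSpectrum O) : 𝔓.valuation L θ ≤ 1 := by
  obtain ⟨t, ht, -⟩ := Pool.Agent.N862.PP.exists_theta (K := K) (O := O) h
  rw [← ht]
  exact 𝔓.valuation_le_one _

theorem val_pq_le (h : IsCub K a b θ) (𝔓 : HeightOneSpectrum O) (v : Fin 3 → k[X]) :
    𝔓.valuation L (aeval θ (pq v)) ≤ 1 := by
  rw [aeval_pq]
  have h1 := val_theta_le h 𝔓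
  refine (Valuation.map_add_le _ (Valuation.map_add_le _ (val_poly_le 𝔓 _) ?_) ?_)
  · rw [map_mul]
    exact mul_le_one' (val_poly_le 𝔓 _) h1
  · rw [map_mul, map_pow]
    exact mul_le_one' (val_poly_le 𝔓 _) (pow_le_one' h1 2)

/-- unramified -/
theorem unram (h : IsCub K a b θ) {Q : k[X]} (hQ : Irreducible Q) (hd : ¬ Q ∣ dsc a b)
    {𝔓 : HeightOneSpectrum O} (hov : Ov Q 𝔓) :
    𝔓.valuation L (algebraMap k[X] L Q) = exp (-1 : ℤ) := by
  obtain ⟨π, hπ⟩ := 𝔓.valuation_exists_uniformizer L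
  have hπ0 : π ≠ 0 := by
    rintro rfl
    rw [map_zero] at hπ
    exact exp_ne_zero hπ.symm
  have hQ0 : algebraMap k[X] L Q ≠ 0 := by
    intro h0
    exact hQ.ne_zero (Pool.Agent.N862.PP.algL_inj (K := K) (by rw [h0, map_zero]))
  obtain ⟨β, hβ⟩ := approx (fin_ov (K := K) (L := L) (O := O) hQ.ne_zero)
    (fun 𝔮 => if 𝔮 = 𝔓 then π else algebraMap k[X] L Q) (fun 𝔮 _ => by
      split_ifs
      · exact hπ0
      · exact hQ0)
  have hval : ∀ {𝔮 : HeightOneSpectrum O} {x y : L}, 𝔮.valuation L (x - y) < 𝔮.valuation L y →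
      𝔮.valuation L x = 𝔮.valuation L y := by
    intro 𝔮 x y hxy
    have e : x = y + (x - y) := by ring
    rw [e]
    exact Valuation.map_add_eq_of_lt_left _ hxy
  have h1 : 𝔓.valuation L β = exp (-1 : ℤ) := by
    have := hβ 𝔓 hov
    simp only [if_true] at this
    rw [hval this, hπ]
  obtain ⟨m, v, hm, hv⟩ := loc_max (O := O) h hQ hd (x := β) (fun 𝔮 h𝔮 => by
    by_cases he : 𝔮 = 𝔓
    · rw [he, h1, ← exp_zero, exp_lt_exp]
      norm_num
    · have := hβ 𝔮 h𝔮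
      simp only [he, if_false] at this
      rw [hval this]
      exact (val_poly_lt hQ h𝔮 Q).2 dvd_rfl)
  have h2 := congrArg (𝔓.valuation L) hv
  rw [map_mul, map_mul, val_poly_eq hQ hov hm, one_mul, h1] at h2
  have h3 : exp (-1 : ℤ) ≤ 𝔓.valuation L (algebraMap k[X] L Q) := by
    rw [h2]
    exact mul_le_of_le_one_right' (val_pq_le h 𝔓 v)
  have h4 : 𝔓.valuation L (algebraMap k[X] L Q) < 1 := (val_poly_lt hQ hov Q).2 dvd_rfl
  have h5 : 𝔓.valuation L (algebraMap k[X] L Q) ≠ 0 := (Valuation.ne_zero_iff _).2 hQ0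
  rw [← exp_log h5] at h3 h4 ⊢
  rw [exp_le_exp] at h3
  rw [← exp_zero, exp_lt_exp] at h4
  congr 1
  omega

/-- the value at `c` -/
theorem val_pq_sub (h : IsCub K a b θ) {𝔓 : HeightOneSpectrum O} {c : k[X]}
    (hc : 𝔓.valuation L (θ - algebraMap k[X] L c) < 1) (v : Fin 3 → k[X]) :
    𝔓.valuation L (aeval θ (pq v) - algebraMap k[X] L (v 0 + v 1 * c + v 2 * c ^ 2)) < 1 := by
  have h1 := val_theta_le h 𝔓
  have e : aeval θ (pq v) - algebraMap k[X] L (v 0 + v 1 * c + v 2 * c ^ 2) =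
      (θ - algebraMap k[X] L c) * (algebraMap k[X] L (v 1) +
        algebraMap k[X] L (v 2) * (θ + algebraMap k[X] L c)) := by
    rw [aeval_pq]
    simp only [map_add, map_mul, map_pow]
    ring
  rw [e, map_mul]
  refine lt_of_le_of_lt (mul_le_of_le_one_right' ?_) hc
  refine Valuation.map_add_le _ (val_poly_le 𝔓 _) ?_
  rw [map_mul]
  exact mul_le_one' (val_poly_le 𝔓 _) (Valuation.map_add_le _ h1 (val_poly_le 𝔓 _))

theorem val_lt_iff_c (h : IsCub K a b θ) {Q : k[X]} (hQ : Irreducible Q)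
    {𝔓 : HeightOneSpectrum O} (hov : Ov Q 𝔓) {c : k[X]}
    (hc : 𝔓.valuation L (θ - algebraMap k[X] L c) < 1) (v : Fin 3 → k[X]) :
    𝔓.valuation L (aeval θ (pq v)) < 1 ↔ Q ∣ v 0 + v 1 * c + v 2 * c ^ 2 := by
  rw [← val_poly_lt (L := L) hQ hov]
  have h1 := val_pq_sub h hc v
  constructor
  · intro h2
    have e : algebraMap k[X] L (v 0 + v 1 * c + v 2 * c ^ 2) = aeval θ (pq v) -
      (aeval θ (pq v) - algebraMap k[X] L (v 0 + v 1 * c + v 2 * c ^ 2)) := by ring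
    rw [e]
    exact Valuation.map_sub_lt _ h2 h1
  · intro h2
    have e : aeval θ (pq v) = (aeval θ (pq v) - algebraMap k[X] L (v 0 + v 1 * c + v 2 * c ^ 2)) +
      algebraMap k[X] L (v 0 + v 1 * c + v 2 * c ^ 2) := by ring
    rw [e]
    exact Valuation.map_add_lt _ h1 h2

/-- membership in a prime of `z` in `O` in terms of the coordinates of `dsc z` -/
theorem mem_iff (h : IsCub K a b θ) {Q : k[X]} (hQ : Irreducible Q) (hd : ¬ Q ∣ dsc a b)
    {𝔓 : HeightOneSpectrum O} (hov : Ov Q 𝔓) {z : O} {v : Fin 3 → k[X]}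
    (hv : algebraMap k[X] L (dsc a b) * algebraMap O L z = aeval θ (pq v)) :
    z ∈ 𝔓.asIdeal ↔ 𝔓.valuation L (aeval θ (pq v)) < 1 := by
  rw [← hv, map_mul, val_poly_eq hQ hov hd, one_mul]
  exact (𝔓.valuation_lt_one_iff_mem _).symm

/-- only one prime over `Q` with `θ ≡ c` -/
theorem uniq_c (h : IsCub K a b θ) {Q : k[X]} (hQ : Irreducible Q) (hd : ¬ Q ∣ dsc a b)
    {𝔓 𝔮 : HeightOneSpectrum O} (hov : Ov Q 𝔓) (hov' : Ov Q 𝔮) {c : k[X]}
    (hc : 𝔓.valuation L (θ - algebraMap k[X] L c) < 1)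
    (hc' : 𝔮.valuation L (θ - algebraMap k[X] L c) < 1) : 𝔓 = 𝔮 := by
  apply HeightOneSpectrum.ext
  ext z
  obtain ⟨v, hv⟩ := dsc_crd h (Pool.Agent.N862.PP.isInt (L := L) z)
  rw [crd_iff] at hv
  rw [mem_iff h hQ hd hov hv, mem_iff h hQ hd hov' hv, val_lt_iff_c h hQ hov hc,
    val_lt_iff_c h hQ hov' hc']

/-- an inverse modulo `Q` -/
theorem exists_inv {Q : k[X]} (hQ : Irreducible Q) {c : k[X]} (hc : ¬ Q ∣ c) :
    ∃ u w : k[X], u * c = 1 + Q * w := by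
  obtain ⟨x, y, hxy⟩ := (hQ.coprime_iff_not_dvd).2 hc
  exact ⟨y, -x, by linear_combination hxy⟩

/-- residue degree one -/
theorem resid_c (h : IsCub K a b θ) {Q : k[X]} (hQ : Irreducible Q) (hd : ¬ Q ∣ dsc a b)
    {𝔓 : HeightOneSpectrum O} (hov : Ov Q 𝔓) {c : k[X]}
    (hc : 𝔓.valuation L (θ - algebraMap k[X] L c) < 1) {x : L} (hx : 𝔓.valuation L x ≤ 1) :
    ∃ r : k[X], 𝔓.valuation L (x - algebraMap k[X] L r) < 1 := by
  obtain ⟨z, hz⟩ := 𝔓.exists_valuation_sub_lt_of_integer hx 1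
  rw [Units.val_one] at hz
  obtain ⟨v, hv⟩ := dsc_crd h (Pool.Agent.N862.PP.isInt (L := L) z)
  rw [crd_iff] at hv
  obtain ⟨u, w, hu⟩ := exists_inv hQ hd
  refine ⟨u * (v 0 + v 1 * c + v 2 * c ^ 2), ?_⟩
  have hu' := congrArg (algebraMap k[X] L) hu
  rw [map_mul, map_add, map_mul, map_one] at hu'
  have e : x - algebraMap k[X] L (u * (v 0 + v 1 * c + v 2 * c ^ 2)) =
      algebraMap k[X] L u * (aeval θ (pq v) -
        algebraMap k[X] L (v 0 + v 1 * c + v 2 * c ^ 2)) -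
      ((algebraMap O L z - x) + algebraMap k[X] L Q *
        (algebraMap k[X] L w * algebraMap O L z)) := by
    rw [map_mul, ← hv]
    linear_combination (-algebraMap O L z) * hu'
  rw [e]
  refine Valuation.map_sub_lt _ ?_ (Valuation.map_add_lt _ hz ?_)
  · rw [map_mul]
    exact lt_of_le_of_lt (mul_le_of_le_one_left' (val_poly_le 𝔓 _)) (val_pq_sub h hc v)
  · rw [map_mul]
    refine lt_of_le_of_lt (mul_le_of_le_one_right' ?_) ((val_poly_lt hQ hov Q).2 dvd_rfl)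
    rw [map_mul]
    exact mul_le_one' (val_poly_le 𝔓 _) (𝔓.valuation_le_one _)

end ovq

end Run7.h225.TS.Ovr
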