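import Pool.Agent.Run7.h875.TS.Stm
import Pool.Agent.TH115.SD.Hensel

/-!
# INFP: the twisted curves have infinitely many points over the completions

Project TS (helper875), problem MP_48b749_nt; helper225.
-/

set_option autoImplicit false
set_option linter.all false

open Polynomial IsDedekindDomain WithZero
open Pool.Agent.N874.PP Pool.Agent.TH115.GD
open scoped Classical

namespace Run7.h225.TS.INFP

section gen

variable {E : Type} [Field E] [Valued E (WithZero (Multiplicative ℤ))]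

theorem small {π : E} (hπ : Valued.v π < 1) (c : E) :
    ∃ N : ℕ, ∀ n, N ≤ n → Valued.v (c * π ^ n) < 1 := by
  by_cases hc : c = 0
  · refine ⟨0, fun n _ => ?_⟩
    rw [hc, zero_mul, map_zero]
    exact zero_lt_one
  · have hc' : Valued.v c ≠ 0 := (Valuation.ne_zero_iff _).2 hc
    obtain ⟨N, hN⟩ := exists_pow_lt₀ hπ (Units.mk0 (Valued.v c)⁻¹ (inv_ne_zero hc'))
    refine ⟨N, fun n hn => ?_⟩
    have h1 : Valued.v π ^ n ≤ Valued.v π ^ N := pow_le_pow_right_of_le_one' hπ.le hn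
    have h2 : Valued.v π ^ n < (Valued.v c)⁻¹ := lt_of_le_of_lt h1 hN
    rw [map_mul, map_pow]
    calc Valued.v c * Valued.v π ^ n < Valued.v c * (Valued.v c)⁻¹ := by
          exact mul_lt_mul_of_pos_left h2 (zero_lt_iff.2 hc')
      _ = 1 := mul_inv_cancel₀ hc'

theorem gen_inf [CompleteSpace E] [T0Space E] (h2 : Valued.v (2 : E) = 1) {π : E} (hπ0 : π ≠ 0)
    (hπ : Valued.v π < 1) (a b δ : E) (hδ : δ ≠ 0) :
    {z : E | ∃ w, w ≠ 0 ∧ w ^ 2 = δ * (z ^ 3 + a * z + b)}.Infinite := by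
  obtain ⟨N1, h1⟩ := small hπ (a / δ ^ 2)
  obtain ⟨N2, h3⟩ := small hπ (b / δ ^ 3)
  have hinj : Function.Injective fun n : ℕ => δ * ((π ^ (n + (N1 + N2)))⁻¹) ^ 2 := by
    intro n m hnm
    have hnm' : ((π ^ (n + (N1 + N2)))⁻¹) ^ 2 = ((π ^ (m + (N1 + N2)))⁻¹) ^ 2 :=
      mul_left_cancel₀ hδ hnm
    have e := congrArg Valued.v hnm'
    rw [map_pow, map_pow, map_inv₀, map_inv₀, inv_pow, inv_pow, inv_inj, map_pow, map_pow,
      ← pow_mul, ← pow_mul] at e
    have h0 : Valued.v π ≠ 0 := (Valuation.ne_zero_iff _).2 hπ0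
    have := (pow_right_strictAnti₀ (zero_lt_iff.2 h0) hπ).injective e
    omega
  refine Set.infinite_of_injective_forall_mem hinj fun n => ?_
  set s := π ^ (n + (N1 + N2)) with hs
  have hs0 : s ≠ 0 := pow_ne_zero _ hπ0
  have e4 : Valued.v (a / δ ^ 2 * s ^ 4) < 1 := by
    rw [hs, ← pow_mul]
    exact h1 _ (by nlinarith)
  have e6 : Valued.v (b / δ ^ 3 * s ^ 6) < 1 := by
    rw [hs, ← pow_mul]
    exact h3 _ (by nlinarith)
  obtain ⟨t, ht, ht1⟩ := sqrt_one_unit h2 (1 + (a / δ ^ 2 * s ^ 4 + b / δ ^ 3 * s ^ 6)) (by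
    rw [add_sub_cancel_left]
    exact lt_of_le_of_lt (Valuation.map_add _ _ _) (max_lt e4 e6))
  have ht0 : t ≠ 0 := by
    rintro rfl
    rw [zero_sub, Valuation.map_neg, map_one] at ht1
    exact lt_irrefl _ ht1
  refine ⟨δ ^ 2 * (s⁻¹) ^ 3 * t, ?_, ?_⟩
  · exact mul_ne_zero (mul_ne_zero (pow_ne_zero _ hδ) (pow_ne_zero _ (inv_ne_zero hs0))) ht0
  · have : (δ ^ 2 * (s⁻¹) ^ 3 * t) ^ 2 = (δ ^ 2 * (s⁻¹) ^ 3) ^ 2 * t ^ 2 := by ring
    rw [this, ht]
    show _ = δ * ((δ * (s⁻¹) ^ 2) ^ 3 + a * (δ * (s⁻¹) ^ 2) + b)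
    field_simp
    ring

end gen

section ad

variable {k R F : Type} [Field k] [Field F] [Algebra k[X] F] [IsFractionRing k[X] F]

theorem ad_inf (h2 : (2 : k) ≠ 0) (v : HeightOneSpectrum k[X]) (a b δ : v.adicCompletion F)
    (hδ : δ ≠ 0) :
    {z : v.adicCompletion F | ∃ w, w ≠ 0 ∧ w ^ 2 = δ * (z ^ 3 + a * z + b)}.Infinite := by
  have em : ∀ x : F, Valued.v (algebraMap F (v.adicCompletion F) x) = v.valuation F x :=
    fun x => v.valuedAdicCompletion_eq_valuation' x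
  obtain ⟨π, hπ⟩ := v.valuation_exists_uniformizer F
  have hπ0 : π ≠ 0 := by
    rintro rfl
    rw [map_zero] at hπ
    exact exp_ne_zero hπ.symm
  have hπ1 : v.valuation F π < 1 := by
    rw [hπ, ← exp_zero, exp_lt_exp]
    norm_num
  refine gen_inf (π := algebraMap F (v.adicCompletion F) π) ?_ ?_ ?_ a b δ hδ
  · have e1 : (2 : v.adicCompletion F) = algebraMap F (v.adicCompletion F)
      (algebraMap k[X] F (C 2)) := by
      rw [show (C (2 : k) : k[X]) = 2 from rfl, map_ofNat, map_ofNat]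
    have e2 : algebraMap k[X] F (C 2) * algebraMap k[X] F (C (2⁻¹)) = 1 := by
      rw [← map_mul, ← C_mul, mul_inv_cancel₀ h2, C_1, map_one]
    rw [e1, em]
    have l1 := v.valuation_le_one (K := F) (C (2 : k) : k[X])
    have l2 := v.valuation_le_one (K := F) (C (2⁻¹ : k) : k[X])
    refine le_antisymm l1 ?_
    have := congrArg (v.valuation F) e2
    rw [map_mul, map_one] at this
    rw [← this]
    exact mul_le_of_le_one_right' l2
  · rw [Ne, map_eq_zero]
    exact hπ0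
  · rw [em]
    exact hπ1

end ad

theorem infp : Run7.h875.TS.S_INFP := by
  intro k K _ _ _ _ h2
  refine ⟨fun v a b δ hδ => ad_inf h2 v a b δ hδ, ?_⟩
  intro a b δ hδ
  exact ad_inf (F := AtInf K) h2 (pl (0 : k)) a b δ hδ

end Run7.h225.TS.INFP
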