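import Pool.Agent.Run7.h875.TS.Stm

/-!
# LTM: the local conditions are closed under multiplication

Project TS (helper875), problem MP_48b749_nt.
-/

set_option autoImplicit false
set_option linter.all false

open Polynomial
open scoped Classical

namespace Run7.h225.TS.LTM

section alg

variable {F A : Type} [Field F] [CommRing A] (φ : F →+* A) {a b δ : F} {Θ : A}

theorem unit_sub (hΘ : Θ ^ 3 + φ a * Θ + φ b = 0) {z : F} (hz : z ^ 3 + a * z + b ≠ 0) :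
    IsUnit (φ z - Θ) := by
  refine IsUnit.of_mul_eq_one
    (φ (z ^ 3 + a * z + b)⁻¹ * (φ z ^ 2 + φ z * Θ + Θ ^ 2 + φ a)) ?_
  have h1 : φ (z ^ 3 + a * z + b) * φ (z ^ 3 + a * z + b)⁻¹ = 1 := by
    rw [← map_mul, mul_inv_cancel₀ hz, map_one]
  have h2 : φ (z ^ 3 + a * z + b) = φ z ^ 3 + φ a * φ z + φ b := by simp
  rw [h2] at h1
  linear_combination h1 - φ (z ^ 3 + a * z + b)⁻¹ * hΘ

/-- The local condition in the algebra. -/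
def Lc (φ : F →+* A) (a b δ : F) (Θ H : A) : Prop :=
  (∃ G : A, H = G ^ 2) ∨ ∃ z w : F, w ≠ 0 ∧ w ^ 2 = δ * (z ^ 3 + a * z + b) ∧
    ∃ G : A, φ δ * (φ z - Θ) * H = G ^ 2

theorem f_ne {z w : F} (hw : w ≠ 0) (h : w ^ 2 = δ * (z ^ 3 + a * z + b)) :
    z ^ 3 + a * z + b ≠ 0 := by
  intro h0
  rw [h0, mul_zero] at h
  exact hw (pow_eq_zero_iff two_ne_zero |>.1 h)

/-- the line through two points -/
theorem line {z₁ w₁ z₂ w₂ : F} (hδ : δ ≠ 0) (h1 : w₁ ^ 2 = δ * (z₁ ^ 3 + a * z₁ + b))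
    (h2 : w₂ ^ 2 = δ * (z₂ ^ 3 + a * z₂ + b)) (hz : z₁ ≠ z₂) :
    ∃ m e z₃ : F, m ^ 2 = δ * (z₁ + z₂ + z₃) ∧
      δ * a - 2 * m * e = δ * (z₁ * z₂ + z₁ * z₃ + z₂ * z₃) ∧
      δ * b - e ^ 2 = - (δ * z₁ * z₂ * z₃) := by
  have hz' : z₂ - z₁ ≠ 0 := sub_ne_zero.2 hz.symm
  obtain ⟨m, hm⟩ : ∃ m : F, m * (z₂ - z₁) = w₂ - w₁ := ⟨(w₂ - w₁) / (z₂ - z₁), by field_simp⟩
  obtain ⟨e, he⟩ : ∃ e : F, e = w₁ - m * z₁ := ⟨_, rfl⟩
  obtain ⟨z₃, hz₃⟩ : ∃ z₃ : F, m ^ 2 = δ * (z₁ + z₂ + z₃) := ⟨m ^ 2 / δ - z₁ - z₂, by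
    field_simp; ring⟩
  have hw1 : w₁ = m * z₁ + e := by rw [he]; ring
  have hw2 : w₂ = m * z₂ + e := by rw [he]; linear_combination -hm
  rw [hw1] at h1
  rw [hw2] at h2
  have e1 : δ * a - 2 * m * e = δ * (z₁ * z₂ + z₁ * z₃ + z₂ * z₃) := by
    refine mul_right_cancel₀ hz' ?_
    linear_combination h1 - h2 + (z₂ + z₁) * (z₂ - z₁) * hz₃
  refine ⟨m, e, z₃, hz₃, e1, ?_⟩
  linear_combination -h1 - z₁ * e1 + z₁ ^ 2 * hz₃

/-- the value at the third point -/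
theorem third {z₁ z₂ z₃ m e : F} (E2 : m ^ 2 = δ * (z₁ + z₂ + z₃))
    (E1 : δ * a - 2 * m * e = δ * (z₁ * z₂ + z₁ * z₃ + z₂ * z₃))
    (E0 : δ * b - e ^ 2 = - (δ * z₁ * z₂ * z₃)) :
    (m * z₃ + e) ^ 2 = δ * (z₃ ^ 3 + a * z₃ + b) := by
  linear_combination z₃ ^ 2 * E2 - z₃ * E1 - E0

/-- the line in the algebra -/
theorem lineA (hΘ : Θ ^ 3 + φ a * Θ + φ b = 0) {z₁ z₂ z₃ m e : F}
    (E2 : m ^ 2 = δ * (z₁ + z₂ + z₃))
    (E1 : δ * a - 2 * m * e = δ * (z₁ * z₂ + z₁ * z₃ + z₂ * z₃))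
    (E0 : δ * b - e ^ 2 = - (δ * z₁ * z₂ * z₃)) :
    (φ m * Θ + φ e) ^ 2 = φ δ * (φ z₁ - Θ) * (φ z₂ - Θ) * (φ z₃ - Θ) := by
  have F2 := congrArg φ E2
  have F1 := congrArg φ E1
  have F0 := congrArg φ E0
  simp only [map_mul, map_add, map_sub, map_pow, map_neg, map_ofNat] at F2 F1 F0
  linear_combination Θ ^ 2 * F2 - Θ * F1 - F0 + φ δ * hΘ

theorem lc_mul (hΘ : Θ ^ 3 + φ a * Θ + φ b = 0) (hδ : δ ≠ 0) (hd : 4 * a ^ 3 + 27 * b ^ 2 ≠ 0)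
    (hex : ∃ s v : F, v ≠ 0 ∧ v ^ 2 = δ * (s ^ 3 + a * s + b) ∧
      ∃ ρ : A, ρ ^ 2 = φ δ * (φ s - Θ)) {H₁ H₂ : A}
    (l1 : Lc φ a b δ Θ H₁) (l2 : Lc φ a b δ Θ H₂) : Lc φ a b δ Θ (H₁ * H₂) := by
  have uδ : IsUnit (φ δ) := (IsUnit.mk0 δ hδ).map φ
  rcases l1 with ⟨G₁, g1⟩ | ⟨z₁, w₁, hw1, e1, G₁, g1⟩
  · rcases l2 with ⟨G₂, g2⟩ | ⟨z₂, w₂, hw2, e2, G₂, g2⟩
    · exact Or.inl ⟨G₁ * G₂, by rw [g1, g2]; ring⟩
    · refine Or.inr ⟨z₂, w₂, hw2, e2, G₁ * G₂, ?_⟩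
      rw [g1]
      linear_combination G₁ ^ 2 * g2
  · rcases l2 with ⟨G₂, g2⟩ | ⟨z₂, w₂, hw2, e2, G₂, g2⟩
    · refine Or.inr ⟨z₁, w₁, hw1, e1, G₁ * G₂, ?_⟩
      rw [g2]
      linear_combination G₂ ^ 2 * g1
    · have u1 : IsUnit (φ δ * (φ z₁ - Θ)) := uδ.mul (unit_sub φ hΘ (f_ne hw1 e1))
      have u2 : IsUnit (φ δ * (φ z₂ - Θ)) := uδ.mul (unit_sub φ hΘ (f_ne hw2 e2))
      obtain ⟨i₁, hi1⟩ := isUnit_iff_exists_inv.1 u1
      obtain ⟨i₂, hi2⟩ := isUnit_iff_exists_inv.1 u2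
      by_cases hz : z₁ = z₂
      · subst hz
        refine Or.inl ⟨G₁ * G₂ * i₁, ?_⟩
        linear_combination (-(H₁ * H₂) * (1 + φ δ * (φ z₁ - Θ) * i₁)) * hi1 +
          i₁ ^ 2 * (φ δ * (φ z₁ - Θ) * H₂) * g1 + i₁ ^ 2 * G₁ ^ 2 * g2
      obtain ⟨m, e, z₃, E2, E1, E0⟩ := line hδ e1 e2 hz
      have K := lineA φ hΘ E2 E1 E0
      have T3 := third E2 E1 E0
      by_cases hw3 : m * z₃ + e = 0
      · -- the third point has order two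
        obtain ⟨s, v, hv, es, ρ, hρ⟩ := hex
        have hf0 : z₃ ^ 3 + a * z₃ + b = 0 := by
          rw [hw3] at T3
          have : δ * (z₃ ^ 3 + a * z₃ + b) = 0 := by rw [← T3]; ring
          exact (mul_eq_zero.1 this).resolve_left hδ
        have hfs := f_ne hv es
        have hst : s - z₃ ≠ 0 := by
          intro h
          rw [sub_eq_zero.1 h] at hfs
          exact hfs hf0
        have hg : 3 * z₃ ^ 2 + a ≠ 0 := by
          intro h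
          apply hd
          have hb : b = -(z₃ ^ 3 + a * z₃) := by linear_combination hf0
          rw [hb]
          linear_combination (3 * z₃ ^ 2 + a) * (3 * z₃ ^ 2 + 4 * a) * h
        obtain ⟨g₃, hg3⟩ : ∃ g₃ : F, g₃ * (s - z₃) = 3 * z₃ ^ 2 + a :=
          ⟨(3 * z₃ ^ 2 + a) / (s - z₃), by field_simp⟩
        obtain ⟨q, hq⟩ : ∃ q : F, q * (s - z₃) = v := ⟨v / (s - z₃), by field_simp⟩
        have hq2 : q ^ 2 = δ * (s - z₃ + 3 * z₃ + g₃) := by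
          refine mul_right_cancel₀ (pow_ne_zero 2 hst) ?_
          rw [← hq] at es
          linear_combination es + δ * hf0 + (-(δ * (s - z₃))) * hg3
        have hg3' : g₃ ≠ 0 := by
          intro h
          rw [h, zero_mul] at hg3
          exact hg hg3.symm
        have hq' : q ≠ 0 := by
          intro h
          rw [h, zero_mul] at hq
          exact hv hq.symm
        refine Or.inr ⟨z₃ + g₃, g₃ * q, mul_ne_zero hg3' hq', ?_, ?_⟩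
        · linear_combination g₃ ^ 2 * hq2 - δ * hf0 + (δ * g₃) * hg3
        · have uρ : IsUnit ρ := by
            have : IsUnit (ρ ^ 2) := by
              rw [hρ]
              exact uδ.mul (unit_sub φ hΘ hfs)
            exact (isUnit_pow_iff two_ne_zero).1 this
          obtain ⟨j, hj⟩ := isUnit_iff_exists_inv.1 uρ
          have k2 : q ^ 2 = δ * (s - z₃ + 3 * z₃ + g₃) := hq2
          have em : e = -(m * z₃) := by linear_combination hw3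
          have F2 := congrArg φ E2
          have F1 := congrArg φ E1
          have Fq := congrArg φ hq2
          have Fg := congrArg φ hg3
          have Ff := congrArg φ hf0
          have Fe := congrArg φ em
          simp only [map_mul, map_add, map_sub, map_pow, map_neg, map_ofNat, map_zero]
            at F2 F1 Fq Fg Ff Fe
          have T0 : (φ z₃ - Θ) * (Θ ^ 2 + φ z₃ * Θ + φ z₃ ^ 2 + φ a) = 0 := by
            linear_combination Ff - hΘ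
          have K12 : φ δ * (φ z₁ - Θ) * (φ z₂ - Θ) =
              φ δ * (Θ ^ 2 + φ z₃ * Θ + φ z₃ ^ 2 + φ a) + φ m ^ 2 * (φ z₃ - Θ) := by
            linear_combination (Θ + φ z₃) * F2 - F1 - 2 * φ m * Fe
          have main : φ δ * (φ z₃ + φ g₃ - Θ) * (φ δ * (φ z₁ - Θ)) * (φ δ * (φ z₂ - Θ)) * ρ ^ 2 =
              (φ δ ^ 2 * (Θ ^ 2 + φ z₃ * Θ + φ z₃ ^ 2 + φ a) +
                φ δ * φ m * φ q * (φ z₃ - Θ)) ^ 2 := by
            linear_combination (φ δ ^ 2 * (φ z₃ - Θ + φ g₃) * ρ ^ 2) * K12 +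
              (φ δ ^ 2 * (φ z₃ - Θ + φ g₃) * (φ δ * (Θ ^ 2 + φ z₃ * Θ + φ z₃ ^ 2 + φ a) +
                φ m ^ 2 * (φ z₃ - Θ))) * hρ +
              (φ δ ^ 4 * (φ z₃ - Θ + φ g₃ + (φ s - φ z₃)) + φ δ ^ 4 * (Θ + 2 * φ z₃) -
                2 * φ δ ^ 3 * φ m * φ q + φ δ ^ 3 * φ m ^ 2) * T0 +
              (φ δ ^ 4 * (Θ ^ 2 + φ z₃ * Θ + φ z₃ ^ 2 + φ a) +
                φ δ ^ 3 * φ m ^ 2 * (φ z₃ - Θ)) * Fg -
              (φ δ ^ 2 * φ m ^ 2 * (φ z₃ - Θ) ^ 2) * Fq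
          obtain ⟨M, hM⟩ : ∃ M : A, M = φ δ ^ 2 * (Θ ^ 2 + φ z₃ * Θ + φ z₃ ^ 2 + φ a) +
                φ δ * φ m * φ q * (φ z₃ - Θ) := ⟨_, rfl⟩
          rw [← hM] at main
          refine ⟨M * G₁ * G₂ * j * i₁ * i₂, ?_⟩
          rw [map_add]
          obtain ⟨c₁, hc1⟩ : ∃ c₁ : A, c₁ = φ δ * (φ z₁ - Θ) := ⟨_, rfl⟩
          obtain ⟨c₂, hc2⟩ : ∃ c₂ : A, c₂ = φ δ * (φ z₂ - Θ) := ⟨_, rfl⟩
          obtain ⟨c, hc⟩ : ∃ c : A, c = φ δ * (φ z₃ + φ g₃ - Θ) := ⟨_, rfl⟩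
          rw [← hc1] at hi1 g1 main
          rw [← hc2] at hi2 g2 main
          rw [← hc] at main ⊢
          have e3 : (M * G₁ * G₂ * j * i₁ * i₂) ^ 2 = M ^ 2 * G₁ ^ 2 * G₂ ^ 2 * j ^ 2 * i₁ ^ 2 *
            i₂ ^ 2 := by ring
          rw [e3, ← main, ← g1, ← g2]
          have e4 : c * c₁ * c₂ * ρ ^ 2 * (c₁ * H₁) * (c₂ * H₂) * j ^ 2 * i₁ ^ 2 * i₂ ^ 2 =
            c * (H₁ * H₂) * (ρ * j) ^ 2 * (c₁ * i₁) ^ 2 * (c₂ * i₂) ^ 2 := by ring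
          rw [e4, hj, hi1, hi2]
          ring
      · -- the third point
        refine Or.inr ⟨z₃, m * z₃ + e, hw3, T3, ?_⟩
        have u3 : IsUnit (φ δ * (φ z₃ - Θ)) := uδ.mul (unit_sub φ hΘ (f_ne hw3 T3))
        have uN : IsUnit (φ δ * (φ m * Θ + φ e)) := by
          have : IsUnit ((φ δ * (φ m * Θ + φ e)) ^ 2) := by
            have h : (φ δ * (φ m * Θ + φ e)) ^ 2 =
                (φ δ * (φ z₁ - Θ)) * (φ δ * (φ z₂ - Θ)) * (φ δ * (φ z₃ - Θ)) := by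
              linear_combination φ δ ^ 2 * K
            rw [h]
            exact (u1.mul u2).mul u3
          exact (isUnit_pow_iff two_ne_zero).1 this
        obtain ⟨j, hj⟩ := isUnit_iff_exists_inv.1 uN
        have hN : (φ δ * (φ m * Θ + φ e)) ^ 2 =
            (φ δ * (φ z₁ - Θ)) * (φ δ * (φ z₂ - Θ)) * (φ δ * (φ z₃ - Θ)) := by
          linear_combination φ δ ^ 2 * K
        obtain ⟨c₁, hc1⟩ : ∃ c₁ : A, c₁ = φ δ * (φ z₁ - Θ) := ⟨_, rfl⟩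
        obtain ⟨c₂, hc2⟩ : ∃ c₂ : A, c₂ = φ δ * (φ z₂ - Θ) := ⟨_, rfl⟩
        obtain ⟨c, hc⟩ : ∃ c : A, c = φ δ * (φ z₃ - Θ) := ⟨_, rfl⟩
        obtain ⟨n, hn⟩ : ∃ n : A, n = φ δ * (φ m * Θ + φ e) := ⟨_, rfl⟩
        rw [← hc1] at g1 hN
        rw [← hc2] at g2 hN
        rw [← hn] at hj hN
        rw [← hc] at hN ⊢
        refine ⟨c * G₁ * G₂ * j, ?_⟩
        have e3 : (c * G₁ * G₂ * j) ^ 2 = c ^ 2 * G₁ ^ 2 * G₂ ^ 2 * j ^ 2 := by ring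
        rw [e3, ← g1, ← g2]
        have e4 : c ^ 2 * (c₁ * H₁) * (c₂ * H₂) * j ^ 2 = c * (H₁ * H₂) * (c₁ * c₂ * c) * j ^ 2 := by
          ring
        rw [e4, ← hN]
        have e5 : c * (H₁ * H₂) * n ^ 2 * j ^ 2 = c * (H₁ * H₂) * (n * j) ^ 2 := by ring
        rw [e5, hj]
        ring

/-- a point whose class is a square -/
theorem exists_dbl (hΘ : Θ ^ 3 + φ a * Θ + φ b = 0) (hδ : δ ≠ 0) (h6 : (6 : F) ≠ 0)
    (hinf : {z : F | ∃ w : F, w ≠ 0 ∧ w ^ 2 = δ * (z ^ 3 + a * z + b)}.Infinite) :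
    ∃ s v : F, v ≠ 0 ∧ v ^ 2 = δ * (s ^ 3 + a * s + b) ∧
      ∃ ρ : A, ρ ^ 2 = φ δ * (φ s - Θ) := by
  have h2 : (2 : F) ≠ 0 := by
    intro h
    apply h6
    have : (6 : F) = 3 * 2 := by norm_num
    rw [this, h, mul_zero]
  obtain ⟨p, hp⟩ : ∃ p : F[X], p = X ^ 6 + C (5 * a) * X ^ 4 + C (20 * b) * X ^ 3 +
    C (-(5 * a ^ 2)) * X ^ 2 + C (-(4 * a * b)) * X + C (-(8 * b ^ 2 + a ^ 3)) := ⟨_, rfl⟩
  have hp0 : p ≠ 0 := by
    intro h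
    have h1 : p.coeff 6 = 1 := by
      rw [hp]
      simp only [coeff_add, coeff_C_mul, coeff_X_pow, coeff_X, coeff_C]
      norm_num
    rw [h, coeff_zero] at h1
    exact zero_ne_one h1
  obtain ⟨z, ⟨w, hw, hz⟩, hzp⟩ := hinf.exists_notMem_finset p.roots.toFinset
  have hpz : p.eval z ≠ 0 := by
    intro h
    apply hzp
    rw [Multiset.mem_toFinset, mem_roots hp0]
    exact h
  rw [hp] at hpz
  simp only [eval_add, eval_mul, eval_pow, eval_X, eval_C] at hpz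
  have hf := f_ne hw hz
  obtain ⟨Ψ, hΨ⟩ : ∃ Ψ : F, Ψ = z ^ 6 + 5 * a * z ^ 4 + 20 * b * z ^ 3 - 5 * a ^ 2 * z ^ 2 -
    4 * a * b * z - 8 * b ^ 2 - a ^ 3 := ⟨_, rfl⟩
  have hΨ0 : Ψ ≠ 0 := by
    intro h
    apply hpz
    linear_combination h - hΨ
  obtain ⟨s, hs⟩ : ∃ s : F, s * (4 * (z ^ 3 + a * z + b)) =
      z ^ 4 - 2 * a * z ^ 2 - 8 * b * z + a ^ 2 :=
    ⟨(z ^ 4 - 2 * a * z ^ 2 - 8 * b * z + a ^ 2) / (4 * (z ^ 3 + a * z + b)), by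
      have h4 : (4 : F) ≠ 0 := by
        have : (4 : F) = 2 * 2 := by norm_num
        rw [this]; exact mul_ne_zero h2 h2
      exact div_mul_cancel₀ _ (mul_ne_zero h4 hf)⟩
  have h4 : (4 : F) ≠ 0 := by
    have : (4 : F) = 2 * 2 := by norm_num
    rw [this]; exact mul_ne_zero h2 h2
  have h8 : (8 : F) ≠ 0 := by
    have : (8 : F) = 2 * 4 := by norm_num
    rw [this]; exact mul_ne_zero h2 h4
  obtain ⟨v, hv⟩ : ∃ v : F, v * (8 * w ^ 3) = δ ^ 2 * Ψ :=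
    ⟨δ ^ 2 * Ψ / (8 * w ^ 3), div_mul_cancel₀ _ (mul_ne_zero h8 (pow_ne_zero 3 hw))⟩
  obtain ⟨m, hm⟩ : ∃ m : F, m * (2 * w) = δ * (3 * z ^ 2 + a) :=
    ⟨δ * (3 * z ^ 2 + a) / (2 * w), div_mul_cancel₀ _ (mul_ne_zero h2 hw)⟩
  have hm2 : m ^ 2 = δ * (s + 2 * z) := by
    refine mul_right_cancel₀ (mul_ne_zero h4 (mul_ne_zero hδ hf)) ?_
    have h1 : m ^ 2 * (4 * (δ * (z ^ 3 + a * z + b))) = (m * (2 * w)) ^ 2 := by
      rw [← hz]; ring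
    rw [h1, hm]
    linear_combination (-δ ^ 2) * hs
  have hfs : (s ^ 3 + a * s + b) * (4 * (z ^ 3 + a * z + b)) ^ 3 = Ψ ^ 2 := by
    have e1 : (s ^ 3 + a * s + b) * (4 * (z ^ 3 + a * z + b)) ^ 3 =
        (s * (4 * (z ^ 3 + a * z + b))) ^ 3 + a * (s * (4 * (z ^ 3 + a * z + b))) *
          (4 * (z ^ 3 + a * z + b)) ^ 2 + b * (4 * (z ^ 3 + a * z + b)) ^ 3 := by ring
    rw [e1, hs, hΨ]
    ring
  have hvne : v ≠ 0 := by
    intro h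
    rw [h, zero_mul] at hv
    exact mul_ne_zero (pow_ne_zero 2 hδ) hΨ0 hv.symm
  have hvs : v ^ 2 = δ * (s ^ 3 + a * s + b) := by
    refine mul_right_cancel₀ (pow_ne_zero 2 (mul_ne_zero h8 (pow_ne_zero 3 hw))) ?_
    have e1 : v ^ 2 * (8 * w ^ 3) ^ 2 = (v * (8 * w ^ 3)) ^ 2 := by ring
    have e2 : δ * (s ^ 3 + a * s + b) * (8 * w ^ 3) ^ 2 =
        δ * (s ^ 3 + a * s + b) * 64 * (w ^ 2) ^ 3 := by ring
    rw [e1, hv, e2, hz]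
    linear_combination (-δ ^ 4) * hfs
  obtain ⟨i, hi⟩ := isUnit_iff_exists_inv.1 (unit_sub φ hΘ hf)
  refine ⟨s, v, hvne, hvs, φ w * i - φ m, ?_⟩
  have Fz := congrArg φ hz
  have Fm := congrArg φ hm
  have Fm2 := congrArg φ hm2
  simp only [map_mul, map_add, map_sub, map_pow, map_neg, map_ofNat] at Fz Fm Fm2
  -- `f(z) = f'(z) u - 3 z u ^ 2 + u ^ 3` with `u = z - Θ`
  have e1 : φ z ^ 3 + φ a * φ z + φ b = (3 * φ z ^ 2 + φ a) * (φ z - Θ) - 3 * φ z * (φ z - Θ) ^ 2 +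
      (φ z - Θ) ^ 3 := by linear_combination hΘ
  have e2 : (φ w * i - φ m) ^ 2 = φ w ^ 2 * i ^ 2 - φ m * (2 * φ w) * i + φ m ^ 2 := by ring
  rw [e2, Fz, e1, Fm, Fm2]
  have hi' : (φ z - Θ) * i = 1 := hi
  linear_combination (φ δ * ((3 * φ z ^ 2 + φ a) * i - 3 * φ z * (1 + (φ z - Θ) * i) +
    (φ z - Θ) * (1 + (φ z - Θ) * i))) * hi'

end alg

/-- **LTM**. -/
theorem ltm : Run7.h875.TS.S_LTM := by
  intro F _ a b δ h6 hd hδ hinf h₁ h₂ _ _ l1 l2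
  obtain ⟨f, hf⟩ : ∃ f : F[X], f = X ^ 3 + C a * X + C b := ⟨_, rfl⟩
  unfold Run7.h875.TS.LocT at l1 l2 ⊢
  rw [← hf] at l1 l2 ⊢
  have hΘ : (AdjoinRoot.root f) ^ 3 + AdjoinRoot.of f a * AdjoinRoot.root f + AdjoinRoot.of f b =
      0 := by
    have h : AdjoinRoot.mk f (X ^ 3 + C a * X + C b) = 0 := by
      rw [← hf]
      exact AdjoinRoot.mk_self
    rw [map_add, map_add, map_mul, map_pow, AdjoinRoot.mk_X, AdjoinRoot.mk_C, AdjoinRoot.mk_C] at h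
    exact h
  have key : ∀ h : F[X], ((∃ g : F[X], f ∣ h - g ^ 2) ∨ ∃ z w : F, w ≠ 0 ∧
      w ^ 2 = δ * (z ^ 3 + a * z + b) ∧ ∃ g : F[X], f ∣ C δ * (C z - X) * h - g ^ 2) ↔
      Lc (AdjoinRoot.of f) a b δ (AdjoinRoot.root f) (AdjoinRoot.mk f h) := by
    intro h
    unfold Lc
    refine or_congr ?_ ?_
    · constructor
      · rintro ⟨g, hg⟩
        refine ⟨AdjoinRoot.mk f g, ?_⟩
        rw [← AdjoinRoot.mk_eq_zero, map_sub, sub_eq_zero, map_pow] at hg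
        exact hg
      · rintro ⟨G, hG⟩
        obtain ⟨g, rfl⟩ := AdjoinRoot.mk_surjective G
        refine ⟨g, ?_⟩
        rw [← AdjoinRoot.mk_eq_zero, map_sub, sub_eq_zero, map_pow]
        exact hG
    · refine exists_congr fun z => exists_congr fun w => and_congr_right fun _ =>
        and_congr_right fun _ => ?_
      constructor
      · rintro ⟨g, hg⟩
        refine ⟨AdjoinRoot.mk f g, ?_⟩
        rw [← AdjoinRoot.mk_eq_zero, map_sub, sub_eq_zero, map_pow, map_mul, map_mul, map_sub,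
          AdjoinRoot.mk_X, AdjoinRoot.mk_C, AdjoinRoot.mk_C] at hg
        exact hg
      · rintro ⟨G, hG⟩
        obtain ⟨g, rfl⟩ := AdjoinRoot.mk_surjective G
        refine ⟨g, ?_⟩
        rw [← AdjoinRoot.mk_eq_zero, map_sub, sub_eq_zero, map_pow, map_mul, map_mul, map_sub,
          AdjoinRoot.mk_X, AdjoinRoot.mk_C, AdjoinRoot.mk_C]
        exact hG
  rw [key] at l1 l2 ⊢
  rw [map_mul]
  exact lc_mul (AdjoinRoot.of f) hΘ hδ hd (exists_dbl (AdjoinRoot.of f) hΘ hδ h6 hinf) l1 l2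

end Run7.h225.TS.LTM
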