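import Pool.Agent.Run7.h225.TS.Pol
import Pool.Agent.Run7.h225.TS.LTM
import Pool.Agent.Run7.h225.TS.INFP

/-!
# GRP: the Selmer conditions define a group

Project TS (helper875), problem MP_48b749_nt; helper225.
-/

set_option autoImplicit false
set_option linter.all false

open Polynomial IsDedekindDomain
open Pool.Agent.N874.PP Pool.Agent.TH115.GD Run7.h875.TS Run7.h225.TS
open scoped Classical

namespace Run7.h225.TS.GRP

section disc

variable {k K L : Type} [Field k] [Field K] [Algebra k[X] K] [IsFractionRing k[X] K]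
  [Field L] [Algebra K L] [Algebra k[X] L] [IsScalarTower k[X] K L] {a b : k[X]} {θ : L}

theorem no_root (h : IsCub K a b θ) (r : K) :
    r ^ 3 + algebraMap k[X] K a * r + algebraMap k[X] K b ≠ 0 := by
  intro hr
  have e0 := congrArg (algebraMap K L) hr
  rw [map_add, map_add, map_mul, map_pow, map_zero, ← IsScalarTower.algebraMap_apply k[X] K L,
    ← IsScalarTower.algebraMap_apply k[X] K L] at e0
  have e1 := h.root
  have e2 : (θ - algebraMap K L r) *
      (θ ^ 2 + algebraMap K L r * θ + (algebraMap K L r ^ 2 + algebraMap k[X] L a)) = 0 := by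
    linear_combination e1 - e0
  rcases mul_eq_zero.1 e2 with e3 | e3
  · have := co_sum h ![-r, 1, 0] 1
    simp only [Matrix.cons_val_zero, Matrix.cons_val_one, Matrix.cons_val, map_neg, map_one,
      map_zero, one_mul, zero_mul, add_zero] at this
    rw [show -(algebraMap K L r) + θ = θ - algebraMap K L r by ring, e3, map_zero] at this
    exact one_ne_zero this.symm
  · have e4 : algebraMap K L (r ^ 2 + algebraMap k[X] K a) + algebraMap K L r * θ +
        algebraMap K L 1 * θ ^ 2 = 0 := by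
      rw [map_add, map_pow, map_one, ← IsScalarTower.algebraMap_apply k[X] K L]
      linear_combination e3
    have h5 : h.co 2 (algebraMap K L (r ^ 2 + algebraMap k[X] K a) + algebraMap K L r * θ +
        algebraMap K L 1 * θ ^ 2) = 1 := co_sum h ![r ^ 2 + algebraMap k[X] K a, r, 1] 2
    rw [e4, map_zero] at h5
    exact one_ne_zero h5.symm

theorem disc_ne (h6 : (6 : k) ≠ 0) (h : IsCub K a b θ) :
    4 * (algebraMap k[X] K a) ^ 3 + 27 * (algebraMap k[X] K b) ^ 2 ≠ 0 := by
  intro hd
  have hinj : Function.Injective ((algebraMap k[X] K).comp C) :=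
    (IsFractionRing.injective k[X] K).comp C_injective
  have h6K : (6 : K) ≠ 0 := by
    intro h0
    apply h6
    apply hinj
    rw [map_ofNat, map_zero]
    exact h0
  have h2K : (2 : K) ≠ 0 := by
    intro h0
    apply h6K
    rw [show (6 : K) = 2 * 3 by norm_num, h0, zero_mul]
  have h3K : (3 : K) ≠ 0 := by
    intro h0
    apply h6K
    rw [show (6 : K) = 2 * 3 by norm_num, h0, mul_zero]
  set a' := algebraMap k[X] K a with ha'
  set b' := algebraMap k[X] K b with hb'
  by_cases ha : a' = 0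
  · have hb : b' = 0 := by
      rw [ha] at hd
      have : (3 : K) ^ 3 * b' ^ 2 = 0 := by linear_combination hd
      rcases mul_eq_zero.1 this with h1 | h1
      · exact absurd h1 (pow_ne_zero _ h3K)
      · exact pow_eq_zero_iff two_ne_zero |>.1 h1
    apply no_root h 0
    rw [← ha', ← hb', ha, hb]
    ring
  · apply no_root h (-3 * b' / (2 * a'))
    rw [← ha', ← hb']
    have : (-3 * b' / (2 * a')) ^ 3 + a' * (-3 * b' / (2 * a')) + b' =
      -b' * (4 * a' ^ 3 + 27 * b' ^ 2) / (8 * a' ^ 3) := by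
      have h8 : (8 : K) ≠ 0 := by
        have := pow_ne_zero 3 h2K
        norm_num at this
        exact this
      field_simp
      ring
    rw [this, hd, mul_zero, zero_div]

end disc

section loc

variable {k K L : Type} [Field k] [Field K] [Algebra k[X] K] [IsFractionRing k[X] K]
  [Field L] [Algebra K L] [Algebra k[X] L] [IsScalarTower k[X] K L] {a b : k[X]} {θ : L}

theorem locT_congr {F : Type} [Field F] {a b δ : F} {h₁ h₂ : F[X]}
    (hd : X ^ 3 + C a * X + C b ∣ h₁ - h₂) (h : LocT a b δ h₁) : LocT a b δ h₂ := by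
  rcases h with ⟨g, hg⟩ | ⟨z, w, hw, hzw, g, hg⟩
  · left
    refine ⟨g, ?_⟩
    have e : h₂ - g ^ 2 = (h₁ - g ^ 2) - (h₁ - h₂) := by ring
    rw [e]
    exact dvd_sub hg hd
  · right
    refine ⟨z, w, hw, hzw, g, ?_⟩
    have e : C δ * (C z - X) * h₂ - g ^ 2 = (C δ * (C z - X) * h₁ - g ^ 2) -
      C δ * (C z - X) * (h₁ - h₂) := by ring
    rw [e]
    exact dvd_sub hg (Dvd.dvd.mul_left hd _)

theorem map_dvd' (h : IsCub K a b θ) (F : Type) [Field F] [Algebra K F] {p : K[X]}
    (hp : cubp (algebraMap k[X] K a) (algebraMap k[X] K b) ∣ p) :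
    X ^ 3 + C (algebraMap K F (algebraMap k[X] K a)) * X +
      C (algebraMap K F (algebraMap k[X] K b)) ∣ p.map (algebraMap K F) := by
  have := Polynomial.map_dvd (algebraMap K F) hp
  rw [cubp_map] at this
  exact this

theorem locAt_mul (h6 : (6 : k) ≠ 0) (h : IsCub K a b θ) (F : Type) [Field F] [Algebra K F] {δ : F}
    (hδ : δ ≠ 0) (hinf : ∀ a b : F,
      {z : F | ∃ w : F, w ≠ 0 ∧ w ^ 2 = δ * (z ^ 3 + a * z + b)}.Infinite)
    {α β : L} (hα : α ≠ 0) (hβ : β ≠ 0) (h1 : LocAt h F δ α) (h2 : LocAt h F δ β) :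
    LocAt h F δ (α * β) := by
  have h6F : (6 : F) ≠ 0 := by
    intro h0
    apply h6
    have hinj : Function.Injective (((algebraMap K F).comp (algebraMap k[X] K)).comp C) :=
      ((algebraMap K F).injective.comp (IsFractionRing.injective k[X] K)).comp C_injective
    apply hinj
    rw [map_ofNat, map_zero]
    exact h0
  have hdF : 4 * (algebraMap K F (algebraMap k[X] K a)) ^ 3 +
      27 * (algebraMap K F (algebraMap k[X] K b)) ^ 2 ≠ 0 := by
    intro h0
    apply disc_ne h6 h
    apply (algebraMap K F).injective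
    rw [map_add, map_mul, map_mul, map_pow, map_pow, map_ofNat, map_ofNat, map_zero]
    exact h0
  have cop : ∀ {γ : L}, γ ≠ 0 → IsCoprime (X ^ 3 + C (algebraMap K F (algebraMap k[X] K a)) * X +
      C (algebraMap K F (algebraMap k[X] K b))) ((pol h γ).map (algebraMap K F)) := by
    intro γ hγ
    have := (pol_coprime h hγ).map (mapRingHom (algebraMap K F))
    rw [coe_mapRingHom, cubp_map] at this
    exact this
  have := LTM.ltm F _ _ δ h6F hdF hδ (hinf _ _) _ _ (cop hα) (cop hβ) h1 h2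
  refine locT_congr ?_ this
  have e := map_dvd' h F (dvd_neg.2 (pol_mul h α β))
  rwa [neg_sub, Polynomial.map_sub, Polynomial.map_mul] at e

theorem locAt_sq (h : IsCub K a b θ) (F : Type) [Field F] [Algebra K F] (δ : F) (r : L) :
    LocAt h F δ (r ^ 2) := by
  left
  refine ⟨(pol h r).map (algebraMap K F), ?_⟩
  have e := map_dvd' h F (pol_mul h r r)
  rwa [Polynomial.map_sub, Polynomial.map_mul, ← pow_two, ← pow_two] at e

end loc

section sel

variable {k K L O : Type} [Field k] [Finite k] [Field K] [Algebra k[X] K]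
  [IsFractionRing k[X] K]
  [Field L] [Algebra K L] [Algebra k[X] L] [IsScalarTower k[X] K L] [CommRing O]
  [IsDedekindDomain O] [Algebra O L] [IsFractionRing O L] [Algebra k[X] O]
  [IsScalarTower k[X] O L] [IsIntegralClosure O k[X] L] {a b : k[X]} {θ : L}

theorem two_ne (h6 : (6 : k) ≠ 0) : (2 : k) ≠ 0 := by
  intro h0
  apply h6
  rw [show (6 : k) = 2 * 3 by norm_num, h0, zero_mul]

theorem ev_mul {𝔓 : HeightOneSpectrum O} {α β : L} (h1 : Ev 𝔓 α) (h2 : Ev 𝔓 β) :
    Ev 𝔓 (α * β) := by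
  obtain ⟨x, hx⟩ := h1
  obtain ⟨y, hy⟩ := h2
  exact ⟨x * y, by rw [map_mul, map_mul, hx, hy, mul_pow]⟩

theorem selC_mul (h6 : (6 : k) ≠ 0) (h : IsCub K a b θ) {S : Finset k[X]} {u : k[X] → k[X]}
    (hS : GoodT a b S u) {α β : L} (h1 : SelC h O S u α) (h2 : SelC h O S u β) :
    SelC h O S u (α * β) := by
  have hI := INFP.infp k K (two_ne h6)
  refine ⟨mul_ne_zero h1.ne h2.ne, ?_, ?_, ?_, ?_, ?_⟩
  · rw [map_mul]
    exact h1.nsq.mul h2.nsq
  · intro P hPm hPi hPS hP2 𝔓 hO
    exact ev_mul (h1.ev P hPm hPi hPS hP2 𝔓 hO) (h2.ev P hPm hPi hPS hP2 𝔓 hO)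
  · intro P v hP hv hP2
    exact locAt_mul h6 h _ one_ne_zero (fun a b => hI.1 v a b 1 one_ne_zero) h1.ne h2.ne
      (h1.bad P v hP hv hP2) (h2.bad P v hP hv hP2)
  · intro P hP v hv
    have hne : algebraMap K (v.adicCompletion K) (algebraMap k[X] K (P * u P)) ≠ 0 := by
      rw [Ne, map_eq_zero, map_eq_zero_iff _ (IsFractionRing.injective k[X] K), mul_eq_zero]
      rintro (h0 | h0)
      · exact (hS.irr P hP).ne_zero h0
      · exact hS.nu P hP (h0 ▸ dvd_zero P)
    exact locAt_mul h6 h _ hne (fun a b => hI.1 v a b _ hne) h1.ne h2.ne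
      (h1.tw P hP v hv) (h2.tw P hP v hv)
  · exact locAt_mul h6 h _ one_ne_zero (fun a b => hI.2 a b 1 one_ne_zero) h1.ne h2.ne
      h1.inf h2.inf

theorem selC_sq (h : IsCub K a b θ) {S : Finset k[X]} {u : k[X] → k[X]} {r : L} (hr : r ≠ 0) :
    SelC h O S u (r ^ 2) := by
  refine ⟨pow_ne_zero _ hr, ?_, ?_, ?_, ?_, ?_⟩
  · rw [map_pow]
    exact ⟨_, pow_two _⟩
  · intro P hPm hPi hPS hP2 𝔓 hO
    exact ⟨r, map_pow _ _ _⟩
  · intro P v hP hv hP2
    exact locAt_sq h _ _ _
  · intro P hP v hv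
    exact locAt_sq h _ _ _
  · exact locAt_sq h _ _ _

theorem selG_iff (h6 : (6 : k) ≠ 0) (h : IsCub K a b θ) {S : Finset k[X]} {u : k[X] → k[X]}
    (hS : GoodT a b S u) (α : Lˣ) : α ∈ SelG h O S u ↔ SelC h O S u (α : L) := by
  constructor
  · intro hα
    unfold SelG at hα
    induction hα using Subgroup.closure_induction with
    | mem x hx => exact hx
    | one =>
      have := selC_sq (O := O) h (S := S) (u := u) (one_ne_zero (α := L))
      rwa [one_pow] at this
    | mul x y _ _ hx hy =>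
      rw [Units.val_mul]
      exact selC_mul h6 h hS hx hy
    | inv x _ hx =>
      have e : ((x⁻¹ : Lˣ) : L) = (x : L) * (((x⁻¹ : Lˣ) : L)) ^ 2 := by
        rw [pow_two, ← mul_assoc, Units.mul_inv, one_mul]
      rw [e]
      exact selC_mul h6 h hS hx (selC_sq h (Units.ne_zero _))
  · intro hα
    exact Subgroup.subset_closure hα

end sel

theorem grp : Run7.h875.TS.S_GRP := by
  intro k K L O _ _ _ _ _ _ _ _ _ _ _ _ _ _ _ _ a b θ h6 h S u hS
  refine ⟨fun α => selG_iff h6 h hS α, ?_⟩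
  rintro _ ⟨r, rfl⟩
  rw [selG_iff h6 h hS]
  have := selC_sq (O := O) h (S := S) (u := u) (Units.ne_zero r)
  simpa using this

end Run7.h225.TS.GRP
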