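import Pool.Agent.Run7.h875.TS.Def

/-!
# The polynomials `pol h α`

Project TS (helper875), problem MP_48b749_nt; helper225.
-/

set_option autoImplicit false
set_option linter.all false

open Polynomial IsDedekindDomain
open Pool.Agent.N874.PP Run7.h875.TS
open scoped Classical

namespace Run7.h225.TS

section cubic

variable {F : Type} [Field F]

/-- the cubic polynomial -/
noncomputable def cubp (a b : F) : F[X] := X ^ 3 + C a * X + C b

theorem cubp_monic (a b : F) : (cubp a b).Monic := by
  have e : (cubp a b : F[X]) = X ^ 3 + (C a * X + C b) := by unfold cubp; ring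
  rw [e]
  exact monic_X_pow_add (by compute_degree!)

theorem cubp_natDegree (a b : F) : (cubp a b).natDegree = 3 := by
  unfold cubp
  compute_degree!

theorem cubp_degree (a b : F) : (cubp a b).degree = 3 := by
  rw [degree_eq_natDegree (cubp_monic a b).ne_zero, cubp_natDegree]
  rfl

theorem cubp_map {F' : Type} [Field F'] (φ : F →+* F') (a b : F) :
    (cubp a b).map φ = cubp (φ a) (φ b) := by
  unfold cubp
  simp

/-- the coordinates of a remainder -/
theorem mod_eq (a b : F) (q : F[X]) : q %ₘ cubp a b =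
    C ((q %ₘ cubp a b).coeff 0) + C ((q %ₘ cubp a b).coeff 1) * X +
      C ((q %ₘ cubp a b).coeff 2) * X ^ 2 := by
  have h : (q %ₘ cubp a b).natDegree < 3 := by
    have := natDegree_modByMonic_lt q (cubp_monic a b) (by
      intro h
      have := cubp_natDegree a b
      rw [h] at this
      simp at this)
    rwa [cubp_natDegree] at this
  conv_lhs => rw [as_sum_range_C_mul_X_pow' _ h]
  rw [Finset.sum_range_succ, Finset.sum_range_succ, Finset.sum_range_one]
  simp

end cubic

section pol

variable {k K L : Type} [Field k] [Field K] [Algebra k[X] K]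
  [Field L] [Algebra K L] [Algebra k[X] L] [IsScalarTower k[X] K L] {a b : k[X]} {θ : L}

theorem co_sum (h : IsCub K a b θ) (c : Fin 3 → K) (i : Fin 3) :
    h.co i (algebraMap K L (c 0) + algebraMap K L (c 1) * θ + algebraMap K L (c 2) * θ ^ 2) =
      c i := by
  have e : algebraMap K L (c 0) + algebraMap K L (c 1) * θ + algebraMap K L (c 2) * θ ^ 2 =
      ∑ j, c j • h.basis j := by
    rw [Fin.sum_univ_three]
    simp only [h.basis_apply, Pool.Agent.N874.PP.vec, Algebra.smul_def]
    simp
  rw [e, IsCub.co, Module.Basis.coord_apply, Module.Basis.repr_sum_self]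

theorem aeval_cubp (h : IsCub K a b θ) :
    aeval θ (cubp (algebraMap k[X] K a) (algebraMap k[X] K b)) = 0 := by
  unfold cubp
  rw [map_add, map_add, map_pow, map_mul, aeval_X, aeval_C, aeval_C,
    ← IsScalarTower.algebraMap_apply k[X] K L, ← IsScalarTower.algebraMap_apply k[X] K L]
  exact h.root

theorem aeval_pol [IsFractionRing k[X] K] (h : IsCub K a b θ) (α : L) :
    aeval θ (pol h α) = α := by
  unfold pol
  rw [map_add, map_add, map_mul, map_mul, map_pow, aeval_X, aeval_C, aeval_C, aeval_C]
  have := h.basis.sum_repr α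
  rw [Fin.sum_univ_three] at this
  simp only [h.basis_apply, Pool.Agent.N874.PP.vec, Algebra.smul_def] at this
  simpa [IsCub.co] using this

theorem aeval_mod (h : IsCub K a b θ) (q : K[X]) :
    aeval θ (q %ₘ cubp (algebraMap k[X] K a) (algebraMap k[X] K b)) = aeval θ q := by
  conv_rhs => rw [← modByMonic_add_div q (cubp (algebraMap k[X] K a) (algebraMap k[X] K b))]
  rw [map_add, map_mul, aeval_cubp h, zero_mul, add_zero]

theorem co_aeval (h : IsCub K a b θ) (q : K[X]) (i : Fin 3) :
    h.co i (aeval θ q) =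
      (q %ₘ cubp (algebraMap k[X] K a) (algebraMap k[X] K b)).coeff (i : ℕ) := by
  rw [← aeval_mod h q]
  set r := q %ₘ cubp (algebraMap k[X] K a) (algebraMap k[X] K b) with hr
  have e := mod_eq (algebraMap k[X] K a) (algebraMap k[X] K b) q
  rw [← hr] at e
  have e2 : aeval θ r = algebraMap K L (r.coeff 0) + algebraMap K L (r.coeff 1) * θ +
      algebraMap K L (r.coeff 2) * θ ^ 2 := by
    conv_lhs => rw [e]
    rw [map_add, map_add, map_mul, map_mul, map_pow, aeval_X, aeval_C, aeval_C, aeval_C]
  rw [e2]
  exact co_sum h (fun j => r.coeff (j : ℕ)) i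

theorem pol_aeval [IsFractionRing k[X] K] (h : IsCub K a b θ) (q : K[X]) :
    pol h (aeval θ q) = q %ₘ cubp (algebraMap k[X] K a) (algebraMap k[X] K b) := by
  rw [mod_eq]
  unfold pol
  rw [co_aeval, co_aeval, co_aeval]
  rfl

/-- equality in `L` from divisibility -/
theorem dvd_iff [IsFractionRing k[X] K] (h : IsCub K a b θ) (q : K[X]) :
    cubp (algebraMap k[X] K a) (algebraMap k[X] K b) ∣ q ↔ aeval θ q = 0 := by
  rw [← modByMonic_eq_zero_iff_dvd (cubp_monic _ _)]
  constructor
  · intro e
    rw [← aeval_mod h, e, map_zero]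
  · intro e
    rw [← pol_aeval h, e]
    unfold pol
    simp

theorem pol_one [IsFractionRing k[X] K] (h : IsCub K a b θ) : pol h (1 : L) = 1 := by
  have : (1 : L) = aeval θ (1 : K[X]) := by simp
  rw [this, pol_aeval, (modByMonic_eq_self_iff (cubp_monic _ _)).2]
  rw [cubp_degree, degree_one]
  decide

theorem pol_mul [IsFractionRing k[X] K] (h : IsCub K a b θ) (α β : L) :
    cubp (algebraMap k[X] K a) (algebraMap k[X] K b) ∣ pol h (α * β) - pol h α * pol h β := by
  rw [dvd_iff h, map_sub, map_mul, aeval_pol, aeval_pol, aeval_pol, sub_self]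

theorem pol_inv [IsFractionRing k[X] K] (h : IsCub K a b θ) {α : L} (hα : α ≠ 0) :
    cubp (algebraMap k[X] K a) (algebraMap k[X] K b) ∣ pol h α * pol h α⁻¹ - 1 := by
  rw [dvd_iff h, map_sub, map_mul, aeval_pol, aeval_pol, map_one, mul_inv_cancel₀ hα, sub_self]

theorem pol_coprime [IsFractionRing k[X] K] (h : IsCub K a b θ) {α : L} (hα : α ≠ 0) :
    IsCoprime (cubp (algebraMap k[X] K a) (algebraMap k[X] K b)) (pol h α) := by
  obtain ⟨t, ht⟩ := pol_inv h hα
  exact ⟨-t, pol h α⁻¹, by linear_combination ht⟩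

end pol

end Run7.h225.TS
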