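import Pool.Agent.Run7.h875.TS.Stm
import Pool.Agent.Run7.h225.TS.Pol

/-!
# ISO: the local condition implies isotropy

Project TS (helper875), problem MP_48b749_nt; helper225.
-/

set_option autoImplicit false
set_option linter.all false

open Polynomial IsDedekindDomain
open Pool.Agent.N874.PP Run7.h875.TS Run7.h225.TS
open scoped Classical

namespace Run7.h225.TS.ISO

section

variable {F : Type} [Field F]

/-- the last coordinate modulo the cubic polynomial -/
noncomputable def c2 (a b : F) : F[X] →ₗ[F] F := (lcoeff F 2).comp (modByMonicHom (cubp a b))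

theorem c2_apply (a b : F) (p : F[X]) : c2 a b p = (p %ₘ cubp a b).coeff 2 := rfl

theorem c2_congr {a b : F} {p q : F[X]} (h : cubp a b ∣ p - q) : c2 a b p = c2 a b q := by
  have e : c2 a b (p - q) = 0 := by
    rw [c2_apply, (modByMonic_eq_zero_iff_dvd (cubp_monic a b)).2 h, coeff_zero]
  rw [map_sub] at e
  exact sub_eq_zero.1 e

theorem c2_one (a b : F) : c2 a b 1 = 0 := by
  rw [c2_apply, (modByMonic_eq_self_iff (cubp_monic _ _)).2]
  · rw [coeff_one]
    simp
  · rw [cubp_degree, degree_one]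
    decide

theorem c2_lin (a b δ z : F) : c2 a b (C δ * (C z - X)) = 0 := by
  have hd : (C δ * (C z - X) : F[X]).degree < 3 := by
    refine lt_of_le_of_lt (b := (1 : WithBot ℕ)) ?_ (by decide)
    compute_degree
  rw [c2_apply, (modByMonic_eq_self_iff (cubp_monic _ _)).2]
  · rw [coeff_C_mul, coeff_sub, coeff_C, coeff_X]
    simp
  · rw [cubp_degree]
    exact hd

end

variable {k K L : Type} [Field k] [Field K] [Algebra k[X] K] [IsFractionRing k[X] K]
  [Field L] [Algebra K L] [Algebra k[X] L] [IsScalarTower k[X] K L] {a b : k[X]} {θ : L}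

theorem co_c2 (h : IsCub K a b θ) {F : Type} [Field F] [Algebra K F] (α : L) (m : ℕ) :
    algebraMap K F (h.co 2 (θ ^ m / α)) =
      c2 (algebraMap K F (algebraMap k[X] K a)) (algebraMap K F (algebraMap k[X] K b))
        (X ^ m * (pol h α⁻¹).map (algebraMap K F)) := by
  have e : θ ^ m / α = aeval θ (X ^ m * pol h α⁻¹) := by
    rw [map_mul, map_pow, aeval_X, aeval_pol, div_eq_mul_inv]
  rw [e, co_aeval, ← coeff_map, map_modByMonic _ (cubp_monic _ _), cubp_map, c2_apply,
    Polynomial.map_mul, Polynomial.map_pow, map_X]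
  rfl

theorem form_eq (h : IsCub K a b θ) {F : Type} [Field F] [Algebra K F] (α : L) (x : Fin 3 → F) :
    ∑ i : Fin 3, ∑ j : Fin 3,
      algebraMap K F (h.co 2 (θ ^ (i : ℕ) * θ ^ (j : ℕ) / α)) * x i * x j =
      c2 (algebraMap K F (algebraMap k[X] K a)) (algebraMap K F (algebraMap k[X] K b))
        ((C (x 0) + C (x 1) * X + C (x 2) * X ^ 2) ^ 2 * (pol h α⁻¹).map (algebraMap K F)) := by
  have e : ((C (x 0) + C (x 1) * X + C (x 2) * X ^ 2) ^ 2 *
      (pol h α⁻¹).map (algebraMap K F) : F[X]) =
      ∑ i : Fin 3, ∑ j : Fin 3, (x i * x j) • (X ^ ((i : ℕ) + (j : ℕ)) *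
        (pol h α⁻¹).map (algebraMap K F)) := by
    simp only [Fin.sum_univ_three, smul_eq_C_mul, C_mul, Fin.val_zero, Fin.val_one, Fin.val_two]
    ring
  rw [e, map_sum]
  refine Finset.sum_congr rfl fun i _ => ?_
  rw [map_sum]
  refine Finset.sum_congr rfl fun j _ => ?_
  rw [map_smul, ← co_c2 h α, pow_add, smul_eq_mul]
  ring

theorem iso : Run7.h875.TS.S_ISO := by
  intro k K L _ _ _ _ _ _ _ _ a b θ h6 h F _ _ δ α hα hL
  set a' := algebraMap K F (algebraMap k[X] K a) with ha'
  set b' := algebraMap K F (algebraMap k[X] K b) with hb'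
  have hinv : cubp a' b' ∣ (pol h α).map (algebraMap K F) * (pol h α⁻¹).map (algebraMap K F)
      - 1 := by
    have := Polynomial.map_dvd (algebraMap K F) (pol_inv h hα)
    rwa [cubp_map, Polynomial.map_sub, Polynomial.map_mul, Polynomial.map_one] at this
  have hL' : LocT a' b' δ ((pol h α).map (algebraMap K F)) := hL
  -- a vector from a polynomial
  have key : ∀ g p : F[X], cubp a' b' ∣ g ^ 2 * (pol h α⁻¹).map (algebraMap K F) - p →
      c2 a' b' p = 0 → ¬ cubp a' b' ∣ p → IsoF h F α := by
    intro g p hg hp hnp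
    have e := mod_eq a' b' g
    have hgm : cubp a' b' ∣ g %ₘ cubp a' b' - g := by
      refine ⟨-(g /ₘ cubp a' b'), ?_⟩
      have := modByMonic_add_div g (cubp a' b')
      linear_combination this
    have hg2 : cubp a' b' ∣ (g %ₘ cubp a' b') ^ 2 * (pol h α⁻¹).map (algebraMap K F) - p := by
      have h1 : (g %ₘ cubp a' b') ^ 2 * (pol h α⁻¹).map (algebraMap K F) - p =
        (g %ₘ cubp a' b' - g) * ((g %ₘ cubp a' b' + g) * (pol h α⁻¹).map (algebraMap K F)) +
          (g ^ 2 * (pol h α⁻¹).map (algebraMap K F) - p) := by ring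
      rw [h1]
      exact dvd_add (Dvd.dvd.mul_right hgm _) hg
    refine ⟨![(g %ₘ cubp a' b').coeff 0, (g %ₘ cubp a' b').coeff 1,
      (g %ₘ cubp a' b').coeff 2], ?_, ?_⟩
    · intro h0
      have h00 := congrFun h0 0
      have h01 := congrFun h0 1
      have h02 := congrFun h0 2
      simp only [Matrix.cons_val_zero, Matrix.cons_val_one, Matrix.cons_val, Pi.zero_apply]
        at h00 h01 h02
      rw [h00, h01, h02] at e
      rw [e] at hg2
      refine hnp ?_
      have : cubp a' b' ∣ -p := by simpa using hg2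
      exact (dvd_neg).1 this
    · rw [form_eq]
      simp only [Matrix.cons_val_zero, Matrix.cons_val_one, Matrix.cons_val]
      rw [← e, c2_congr hg2, hp]
  have hdeg : ∀ p : F[X], p ≠ 0 → p.degree < 3 → ¬ cubp a' b' ∣ p := by
    intro p hp hd hdv
    have := degree_le_of_dvd hdv hp
    rw [cubp_degree] at this
    exact absurd (lt_of_le_of_lt this hd) (lt_irrefl _)
  rcases hL' with ⟨g, hg⟩ | ⟨z, w, hw, hzw, g, hg⟩
  · refine key g 1 ?_ (c2_one _ _) (hdeg 1 one_ne_zero (by rw [degree_one]; decide))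
    have hg' : cubp a' b' ∣ (pol h α).map (algebraMap K F) - g ^ 2 := hg
    have h1 : g ^ 2 * (pol h α⁻¹).map (algebraMap K F) - 1 =
      ((pol h α).map (algebraMap K F) * (pol h α⁻¹).map (algebraMap K F) - 1) -
        ((pol h α).map (algebraMap K F) - g ^ 2) * (pol h α⁻¹).map (algebraMap K F) := by ring
    rw [h1]
    exact dvd_sub hinv (Dvd.dvd.mul_right hg' _)
  · have hδ : δ ≠ 0 := by
      rintro rfl
      rw [zero_mul] at hzw
      exact hw (pow_eq_zero_iff two_ne_zero |>.1 hzw)
    have hp0 : (C δ * (C z - X) : F[X]) ≠ 0 := by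
      intro h0
      have := congrArg (fun p : F[X] => p.coeff 1) h0
      simp only [coeff_C_mul, coeff_sub, coeff_X_one, coeff_zero] at this
      rw [coeff_C_succ] at this
      apply hδ
      linear_combination -this
    refine key g (C δ * (C z - X)) ?_ (c2_lin _ _ _ _) (hdeg _ hp0 ?_)
    · have hg' : cubp a' b' ∣ C δ * (C z - X) * (pol h α).map (algebraMap K F) - g ^ 2 := hg
      have h1 : g ^ 2 * (pol h α⁻¹).map (algebraMap K F) - C δ * (C z - X) =
        ((pol h α).map (algebraMap K F) * (pol h α⁻¹).map (algebraMap K F) - 1) *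
          (C δ * (C z - X)) -
          (C δ * (C z - X) * (pol h α).map (algebraMap K F) - g ^ 2) *
            (pol h α⁻¹).map (algebraMap K F) := by ring
      rw [h1]
      exact dvd_sub (Dvd.dvd.mul_right hinv _) (Dvd.dvd.mul_right hg' _)
    · refine lt_of_le_of_lt (b := (1 : WithBot ℕ)) ?_ (by decide)
      compute_degree

end Run7.h225.TS.ISO
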