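import Pool.Agent.Run7.h875.TS.Stm

/-!
# The valuation at infinity

Project TS (helper875), problem MP_48b749_nt; helper225.
-/

set_option autoImplicit false
set_option linter.all false

open Polynomial IsDedekindDomain WithZero
open Pool.Agent.N874.PP Pool.Agent.TH115.GD
open scoped Classical

namespace Run7.h225.TS.Infv

theorem v_em' {R M : Type} [CommRing R] [IsDedekindDomain R] [Field M] [Algebra R M]
    [IsFractionRing R M] (v : HeightOneSpectrum R) (x : M) :
    Valued.v (algebraMap M (v.adicCompletion M) x) = v.valuation M x :=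
  v.valuedAdicCompletion_eq_valuation' x

section

variable {k K : Type} [Field k] [Field K] [Algebra k[X] K] [IsFractionRing k[X] K]

/-- the valuation at infinity -/
noncomputable def vi (k K : Type) [Field k] [Field K] [Algebra k[X] K] [IsFractionRing k[X] K] :
    Valuation K (WithZero (Multiplicative ℤ)) :=
  (pl (0 : k)).valuation (AtInf K)

theorem vi_eq (x : K) : Valued.v (R := (pl (0 : k)).adicCompletion (AtInf K))
    (algebraMap (AtInf K) ((pl (0 : k)).adicCompletion (AtInf K)) x) = vi k K x :=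
  v_em' (M := AtInf K) (pl (0 : k)) x

theorem vi_infMap (p : k[X]) : vi k K (infMap k K p) = (pl (0 : k)).intValuation p :=
  (pl (0 : k)).valuation_of_algebraMap (K := AtInf K) p

theorem vi_X : vi k K (algebraMap k[X] K X) = exp (1 : ℤ) := by
  have h1 : infMap k K X = (algebraMap k[X] K X)⁻¹ := by simp [infMap]
  have h2 := vi_infMap (K := K) (X : k[X])
  have h3 : (pl (0 : k)).intValuation X = exp (-1 : ℤ) :=
    (pl (0 : k)).intValuation_singleton X_ne_zero (by simp [pl])
  rw [h1, h3, map_inv₀] at h2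
  rw [← inv_inv (vi k K (algebraMap k[X] K X)), h2, ← exp_neg, neg_neg]

theorem vi_poly {p : k[X]} (hp : p ≠ 0) :
    vi k K (algebraMap k[X] K p) = exp (p.natDegree : ℤ) := by
  rw [std_inf p, map_mul, map_pow, vi_X, vi_infMap]
  have h1 : (pl (0 : k)).intValuation (reverse p) = 1 := by
    rw [HeightOneSpectrum.intValuation_eq_one_iff_mem_primeCompl, Ideal.mem_primeCompl_iff]
    intro hm
    have h2 : (pl (0 : k)).asIdeal = Ideal.span {X - C (0 : k)} := rfl
    rw [h2, Ideal.mem_span_singleton, C_0, sub_zero, X_dvd_iff, coeff_zero_reverse] at hm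
    exact hp (leadingCoeff_eq_zero.1 hm)
  rw [h1, one_mul, ← exp_nsmul]
  congr 1
  simp

/-- elements close to one -/
theorem near_one {r : K} (hr : vi k K (r - 1) < 1) : ∃ (D : k[X]) (g : K), D.Monic ∧
    Even D.natDegree ∧ g ≠ 0 ∧ r = algebraMap k[X] K D * g ^ 2 := by
  obtain ⟨n, d, hd, rfl⟩ := IsFractionRing.div_surjective (A := k[X]) r
  have hd0 : d ≠ 0 := nonZeroDivisors.ne_zero hd
  have hinj : Function.Injective (algebraMap k[X] K) := IsFractionRing.injective k[X] K
  have hdK : algebraMap k[X] K d ≠ 0 := fun h0 => hd0 (hinj (by rw [h0, map_zero]))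
  by_cases hnd : n = d
  · subst hnd
    refine ⟨1, 1, monic_one, by simp, one_ne_zero, ?_⟩
    rw [div_self hdK]
    simp
  have hnd' : n - d ≠ 0 := sub_ne_zero.2 hnd
  have e1 : algebraMap k[X] K n / algebraMap k[X] K d - 1 =
      algebraMap k[X] K (n - d) / algebraMap k[X] K d := by
    rw [map_sub]
    field_simp
  rw [e1, map_div₀, vi_poly hnd', vi_poly hd0, ← exp_sub, ← exp_zero, exp_lt_exp] at hr
  have hlt : (n - d).natDegree < d.natDegree := by omega
  have hlt' : (n - d).degree < d.degree := degree_lt_degree hlt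
  have e2 : n = (n - d) + d := by ring
  have hdeg : n.natDegree = d.natDegree := by
    rw [e2]
    exact natDegree_add_eq_right_of_natDegree_lt hlt
  have hlc : n.leadingCoeff = d.leadingCoeff := by
    rw [e2]
    exact leadingCoeff_add_of_degree_lt hlt'
  have hn0 : n ≠ 0 := by
    rintro rfl
    rw [leadingCoeff_zero] at hlc
    exact hd0 (leadingCoeff_eq_zero.1 hlc.symm)
  set l := d.leadingCoeff with hl
  have hl0 : l ≠ 0 := leadingCoeff_ne_zero.2 hd0
  refine ⟨C (l ^ 2)⁻¹ * (n * d), algebraMap k[X] K (C l) / algebraMap k[X] K d, ?_, ?_, ?_, ?_⟩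
  · rw [Monic, leadingCoeff_mul, leadingCoeff_C, leadingCoeff_mul, hlc, ← hl, ← pow_two,
      inv_mul_cancel₀ (pow_ne_zero 2 hl0)]
  · rw [natDegree_C_mul (inv_ne_zero (pow_ne_zero 2 hl0)), natDegree_mul hn0 hd0, hdeg]
    exact ⟨_, rfl⟩
  · refine div_ne_zero (fun h0 => hl0 ?_) hdK
    have := hinj (h0.trans (map_zero _).symm)
    exact C_eq_zero.1 this
  · have e3 : algebraMap k[X] K (C (l ^ 2)⁻¹) * algebraMap k[X] K (C l) ^ 2 = 1 := by
      rw [← map_pow, ← map_mul, ← C_pow, ← C_mul, inv_mul_cancel₀ (pow_ne_zero 2 hl0), C_1,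
        map_one]
    rw [map_mul, map_mul]
    obtain ⟨u, hu⟩ : ∃ u, u = algebraMap k[X] K (C (l ^ 2)⁻¹) := ⟨_, rfl⟩
    rw [← hu] at e3 ⊢
    field_simp
    linear_combination (-(algebraMap k[X] K n)) * e3

end

section dens

variable {R M : Type} [CommRing R] [IsDedekindDomain R] [Field M] [Algebra R M]
  [IsFractionRing R M] (v : HeightOneSpectrum R)

/-- approximation of a vector on which the form has the value one -/
theorem dens (G : Fin 3 → Fin 3 → M) (y : Fin 3 → v.adicCompletion M)
    (hy : ∑ i : Fin 3, ∑ j : Fin 3, algebraMap M (v.adicCompletion M) (G i j) * y i * y j = 1) :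
    ∃ y' : Fin 3 → M, v.valuation M ((∑ i : Fin 3, ∑ j : Fin 3, G i j * y' i * y' j) - 1) < 1 := by
  set φ := algebraMap M (v.adicCompletion M) with hφ
  set q : (Fin 3 → v.adicCompletion M) → v.adicCompletion M := fun y =>
    (∑ i : Fin 3, ∑ j : Fin 3, φ (G i j) * y i * y j) - 1 with hq
  have hqc : Continuous q := by
    rw [hq]
    fun_prop
  have hopen : IsOpen {z : Fin 3 → v.adicCompletion M |
      (Valued.v (R := v.adicCompletion M)).restrict (q z) < 1} := by
    have h7 := Valued.isOpen_ball (v.adicCompletion M) (1 : MonoidWithZeroHom.ValueGroup₀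
      (.ofClass (Valued.v (R := v.adicCompletion M))))
    exact h7.preimage hqc
  have hd : DenseRange (Pi.map (fun (_ : Fin 3) => (φ : M → v.adicCompletion M))) :=
    DenseRange.piMap fun _ => v.denseRange_algebraMap (K := M)
  obtain ⟨x, hx⟩ := hd.exists_mem_open hopen ⟨y, by
    change (Valued.v (R := v.adicCompletion M)).restrict (q y) < 1
    have : q y = 0 := by
      rw [hq]
      simp only
      rw [hy, sub_self]
    rw [this, map_zero]
    exact zero_lt_one⟩
  refine ⟨x, ?_⟩
  have h9 : (Valued.v (R := v.adicCompletion M)).restrict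
    (q (Pi.map (fun (_ : Fin 3) => (φ : M → v.adicCompletion M)) x)) < 1 := hx
  rw [Valuation.restrict_lt_one_iff] at h9
  have e : q (Pi.map (fun (_ : Fin 3) => (φ : M → v.adicCompletion M)) x) =
      φ ((∑ i : Fin 3, ∑ j : Fin 3, G i j * x i * x j) - 1) := by
    rw [hq]
    simp only [Pi.map_apply, map_sub, map_sum, map_mul, map_one]
  rw [e] at h9
  rwa [hφ, v_em'] at h9

end dens

section univ

variable {F : Type} [Field F]

/-- a nondegenerate isotropic form represents one -/
theorem univ (h2 : (2 : F) ≠ 0) (G : Matrix (Fin 3) (Fin 3) F) (hG : G.det ≠ 0)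
    (hs : ∀ i j, G i j = G j i) (x : Fin 3 → F) (hx : x ≠ 0)
    (hx0 : ∑ i : Fin 3, ∑ j : Fin 3, G i j * x i * x j = 0) :
    ∃ y : Fin 3 → F, ∑ i : Fin 3, ∑ j : Fin 3, G i j * y i * y j = 1 := by
  obtain ⟨l, hl⟩ : ∃ l, ∑ j : Fin 3, G l j * x j ≠ 0 := by
    by_contra hno
    push Not at hno
    apply hx
    have h1 : G.mulVec x = 0 := by
      funext i
      exact hno i
    exact Matrix.eq_zero_of_mulVec_eq_zero hG h1
  set B := ∑ j : Fin 3, G l j * x j with hB
  set t := (1 - G l l) / (2 * B) with ht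
  refine ⟨fun i => t * x i + if i = l then 1 else 0, ?_⟩
  have e : ∑ i : Fin 3, ∑ j : Fin 3, G i j * (t * x i + if i = l then 1 else 0) *
      (t * x j + if j = l then 1 else 0) =
      t ^ 2 * (∑ i : Fin 3, ∑ j : Fin 3, G i j * x i * x j) +
      t * (∑ j : Fin 3, G l j * x j) + t * (∑ i : Fin 3, G i l * x i) + G l l := by
    have e0 : ∀ i j : Fin 3, G i j * (t * x i + if i = l then 1 else 0) *
      (t * x j + if j = l then 1 else 0) = t ^ 2 * (G i j * x i * x j) +
        (if i = l then t * (G i j * x j) else 0) + (if j = l then t * (G i j * x i) else 0) +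
        (if i = l then (if j = l then G i j else 0) else 0) := by
      intro i j
      split_ifs <;> ring
    simp only [e0, Finset.sum_add_distrib, ← Finset.mul_sum]
    congr 1
    · congr 1
      · congr 1
        rw [Finset.sum_comm]
        simp only [Finset.sum_ite_eq', Finset.mem_univ, if_true, ← Finset.mul_sum]
      · simp only [Finset.sum_ite_eq', Finset.mem_univ, if_true, ← Finset.mul_sum]
    · rw [Finset.sum_comm]
      simp only [Finset.sum_ite_eq', Finset.mem_univ, if_true]
  rw [e, hx0]
  have e2 : ∑ i : Fin 3, G i l * x i = B := by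
    rw [hB]
    exact Finset.sum_congr rfl fun i _ => by rw [hs i l]
  rw [e2, ← hB, ht]
  field_simp
  ring

end univ

end Run7.h225.TS.Infv
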