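import Pool.Agent.Run7.h225.TS.Pol
import Pool.Agent.N833.PP.Int
import Pool.Agent.N862.PP.Ns
import Pool.Agent.N539.PP.Cls

/-!
# The primes over a prime `Q` not dividing the discriminant

Project TS (helper875), problem MP_48b749_nt; helper225.
-/

set_option autoImplicit false
set_option linter.all false

open Polynomial IsDedekindDomain
open Pool.Agent.N874.PP Run7.h875.TS Run7.h225.TS
open scoped Classical
open scoped Matrix

namespace Run7.h225.TS.Ovr

section coords

variable {k K L : Type} [Field k] [Field K] [Algebra k[X] K] [IsFractionRing k[X] K]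
  [Field L] [Algebra K L] [Algebra k[X] L] [IsScalarTower k[X] K L] {a b : k[X]} {θ : L}

theorem theta_int (h : IsCub K a b θ) : IsIntegral k[X] θ := by
  refine ⟨X ^ 3 + C a * X + C b, ?_, ?_⟩
  · have e : (X ^ 3 + C a * X + C b : k[X][X]) = X ^ 3 + (C a * X + C b) := by ring
    rw [e]
    exact monic_X_pow_add (by compute_degree!)
  · rw [eval₂_add, eval₂_add, eval₂_pow, eval₂_mul, eval₂_X, eval₂_C, eval₂_C]
    exact h.root

/-- the coefficient of `θ ^ 2` of an integral element -/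
theorem top_int (h : IsCub K a b θ) {r s t : K}
    (hx : IsIntegral k[X] (algebraMap K L r + algebraMap K L s * θ + algebraMap K L t * θ ^ 2)) :
    ∃ c : k[X], algebraMap k[X] K c = algebraMap k[X] K (dsc a b) * t := by
  have hfin : Module.Finite K L := Module.Finite.of_basis h.basis
  have hθ := theta_int h
  have h1 : IsIntegral k[X] (Algebra.discr K (vec θ ᵥ*
      (!![1, 0, r; 0, 1, s; 0, 0, t] : Matrix (Fin 3) (Fin 3) K).map (algebraMap K L))) := by
    apply Algebra.discr_isIntegral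
    intro i
    fin_cases i
    · have : (vec θ ᵥ* (!![1, 0, r; 0, 1, s; 0, 0, t] : Matrix (Fin 3) (Fin 3) K).map
          (algebraMap K L)) 0 = 1 := by
        simp [Matrix.vecMul, dotProduct, Fin.sum_univ_three, vec]
      simp only [Fin.zero_eta]
      rw [this]
      exact isIntegral_one
    · have : (vec θ ᵥ* (!![1, 0, r; 0, 1, s; 0, 0, t] : Matrix (Fin 3) (Fin 3) K).map
          (algebraMap K L)) 1 = θ := by
        simp [Matrix.vecMul, dotProduct, Fin.sum_univ_three, vec]
      simp only [Fin.mk_one]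
      rw [this]
      exact hθ
    · have : (vec θ ᵥ* (!![1, 0, r; 0, 1, s; 0, 0, t] : Matrix (Fin 3) (Fin 3) K).map
          (algebraMap K L)) 2 =
          algebraMap K L r + algebraMap K L s * θ + algebraMap K L t * θ ^ 2 := by
        simp [Matrix.vecMul, dotProduct, Fin.sum_univ_three, vec]
        ring
      simp only [Fin.reduceFinMk]
      rw [this]
      exact hx
  rw [Algebra.discr_of_matrix_vecMul, Pool.Agent.N833.PP.discr_vec h, Matrix.det_fin_three] at h1
  simp at h1
  have h2 : IsIntegral k[X] (algebraMap k[X] K (dsc a b) * t) := by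
    refine IsIntegral.of_pow (n := 2) (by norm_num) ?_
    have : (algebraMap k[X] K (dsc a b) * t) ^ 2 =
      t ^ 2 * algebraMap k[X] K (dsc a b) * algebraMap k[X] K (dsc a b) := by
      ring
    rw [this]
    exact h1.mul isIntegral_algebraMap
  exact IsIntegrallyClosed.isIntegral_iff.1 h2

/-- `dsc` times an integral element has polynomial coordinates -/
theorem dsc_crd (h : IsCub K a b θ) {x : L} (hx : IsIntegral k[X] x) :
    ∃ v : Fin 3 → k[X], Crd θ v (algebraMap k[X] L (dsc a b) * x) := by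
  obtain ⟨r, s, t, rfl⟩ := h.gen x
  set A := algebraMap k[X] K a with hA
  set B := algebraMap k[X] K b with hB
  have hθ := theta_int h
  have h3 := Pool.Agent.N833.PP.cube h
  obtain ⟨c2, hc2⟩ := top_int h hx
  obtain ⟨c1, hc1⟩ := top_int h (r := -(t * B)) (s := r - t * A) (t := s) (by
    have e : algebraMap K L (-(t * B)) + algebraMap K L (r - t * A) * θ + algebraMap K L s * θ ^ 2 =
        (algebraMap K L r + algebraMap K L s * θ + algebraMap K L t * θ ^ 2) * θ := by
      simp only [map_neg, map_sub, map_mul]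
      linear_combination - algebraMap K L t * h3
    rw [e]
    exact hx.mul hθ)
  obtain ⟨c0, hc0⟩ := top_int h (r := -(s * B)) (s := -(s * A) - t * B) (t := r - t * A) (by
    have e : algebraMap K L (-(s * B)) + algebraMap K L (-(s * A) - t * B) * θ +
        algebraMap K L (r - t * A) * θ ^ 2 =
        (algebraMap K L r + algebraMap K L s * θ + algebraMap K L t * θ ^ 2) * θ ^ 2 := by
      simp only [map_neg, map_sub, map_mul]
      linear_combination - (algebraMap K L s + algebraMap K L t * θ) * h3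
    rw [e]
    exact hx.mul (hθ.pow 2))
  refine ⟨![c0 + a * c2, c1, c2], ?_⟩
  unfold Crd
  simp only [Matrix.cons_val, Matrix.cons_val_zero, Matrix.cons_val_one]
  rw [IsScalarTower.algebraMap_apply k[X] K L, IsScalarTower.algebraMap_apply k[X] K L,
    IsScalarTower.algebraMap_apply k[X] K L, IsScalarTower.algebraMap_apply k[X] K L, map_add,
    map_mul, hc0, hc1, hc2, ← hA]
  simp only [map_add, map_mul, map_sub]
  ring

end coords

section quad

variable {k : Type} [Field k]

/-- the cubic polynomial over a ring -/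
noncomputable def cubR {R : Type} [CommRing R] (a b : R) : R[X] := X ^ 3 + C a * X + C b

theorem cubR_monic {R : Type} [CommRing R] [Nontrivial R] (a b : R) : (cubR a b).Monic := by
  have e : (cubR a b : R[X]) = X ^ 3 + (C a * X + C b) := by unfold cubR; ring
  rw [e]
  exact monic_X_pow_add (by compute_degree!)

theorem cubR_natDegree {R : Type} [CommRing R] [Nontrivial R] (a b : R) :
    (cubR a b).natDegree = 3 := by
  unfold cubR
  compute_degree!

theorem cubR_map {R S : Type} [CommRing R] [CommRing S] (φ : R →+* S) (a b : R) :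
    (cubR a b).map φ = cubR (φ a) (φ b) := by
  unfold cubR
  simp

/-- the quadratic polynomial -/
noncomputable def pq {R : Type} [CommRing R] (v : Fin 3 → R) : R[X] :=
  C (v 0) + C (v 1) * X + C (v 2) * X ^ 2

theorem pq_map {R S : Type} [CommRing R] [CommRing S] (φ : R →+* S) (v : Fin 3 → R) :
    (pq v).map φ = pq (fun i => φ (v i)) := by
  unfold pq
  simp

theorem pq_coeff {R : Type} [CommRing R] (v : Fin 3 → R) (i : Fin 3) :
    (pq v).coeff (i : ℕ) = v i := by
  unfold pq
  fin_cases i <;> simp [coeff_X, coeff_C, coeff_X_pow]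

theorem pq_natDegree {R : Type} [CommRing R] (v : Fin 3 → R) : (pq v).natDegree ≤ 2 := by
  unfold pq
  compute_degree

theorem pq_eq_of_natDegree {R : Type} [CommRing R] {p : R[X]} (hp : p.natDegree ≤ 2) :
    p = pq (fun i : Fin 3 => p.coeff (i : ℕ)) := by
  conv_lhs => rw [as_sum_range_C_mul_X_pow' p (n := 3) (by omega)]
  rw [Finset.sum_range_succ, Finset.sum_range_succ, Finset.sum_range_one]
  unfold pq
  simp

/-- not divisible by the cubic polynomial -/
theorem pq_dvd {R : Type} [CommRing R] [Nontrivial R] {a b : R} {v : Fin 3 → R}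
    (h : cubR a b ∣ pq v) (i : Fin 3) : v i = 0 := by
  have h0 : pq v = 0 := by
    by_contra hne
    obtain ⟨w, hw⟩ := h
    have hw0 : w ≠ 0 := by
      rintro rfl
      exact hne (by rw [hw, mul_zero])
    have h1 := (cubR_monic a b).natDegree_mul' hw0
    rw [← hw, cubR_natDegree] at h1
    have h2 := pq_natDegree v
    omega
  rw [← pq_coeff v i, h0, coeff_zero]

/-- separable -/
theorem cubR_sep {F : Type} [Field F] {a b : F} (hd : 4 * a ^ 3 + 27 * b ^ 2 ≠ 0) :
    (cubR a b).Separable := by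
  refine ⟨C (4 * a ^ 3 + 27 * b ^ 2)⁻¹ * (-3 * (6 * C a * X - 9 * C b)),
    C (4 * a ^ 3 + 27 * b ^ 2)⁻¹ * (4 * C a ^ 2 + (6 * C a * X - 9 * C b) * X), ?_⟩
  have e1 : derivative (cubR a b) = 3 * X ^ 2 + C a := by
    unfold cubR
    rw [derivative_add, derivative_add, derivative_X_pow, derivative_C, derivative_C_mul,
      derivative_X, add_zero, mul_one]
    norm_num
    rfl
  have e2 : (C (4 * a ^ 3 + 27 * b ^ 2)⁻¹ * (4 * C a ^ 3 + 27 * C b ^ 2) : F[X]) = 1 := by
    have e3 : (4 * C a ^ 3 + 27 * C b ^ 2 : F[X]) = C (4 * a ^ 3 + 27 * b ^ 2) := by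
      rw [C_add, C_mul, C_mul, C_pow, C_pow]
      rfl
    rw [e3, ← C_mul, inv_mul_cancel₀ hd, C_1]
  rw [e1, ← e2]
  unfold cubR
  ring

theorem exists_res {Q : k[X]} (hQ : Irreducible Q) : ∃ (κ : Type) (_ : Field κ) (π : k[X] →+* κ),
    Function.Surjective π ∧ ∀ c, π c = 0 ↔ Q ∣ c := by
  haveI : (Ideal.span {Q} : Ideal k[X]).IsMaximal := PrincipalIdealRing.isMaximal_of_irreducible hQ
  refine ⟨k[X] ⧸ (Ideal.span {Q} : Ideal k[X]), Ideal.Quotient.field _,
    Ideal.Quotient.mk (Ideal.span {Q}), Ideal.Quotient.mk_surjective, fun c => ?_⟩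
  rw [Ideal.Quotient.eq_zero_iff_mem, Ideal.mem_span_singleton]

end quad

section ovq

variable {k K L O : Type} [Field k] [Field K] [Algebra k[X] K] [IsFractionRing k[X] K]
  [Field L] [Algebra K L] [Algebra k[X] L] [IsScalarTower k[X] K L] [CommRing O]
  [IsDedekindDomain O] [Algebra O L] [IsFractionRing O L] [Algebra k[X] O]
  [IsScalarTower k[X] O L] [IsIntegralClosure O k[X] L] {a b : k[X]} {θ : L}

theorem aeval_pq (v : Fin 3 → k[X]) : aeval θ (pq v) =
    algebraMap k[X] L (v 0) + algebraMap k[X] L (v 1) * θ + algebraMap k[X] L (v 2) * θ ^ 2 := by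
  unfold pq
  rw [map_add, map_add, map_mul, map_mul, map_pow, aeval_X, aeval_C, aeval_C, aeval_C]

theorem crd_iff (v : Fin 3 → k[X]) (x : L) : Crd θ v x ↔ x = aeval θ (pq v) := by
  rw [aeval_pq]
  rfl

theorem aeval_cubR (h : IsCub K a b θ) : aeval θ (cubR a b) = 0 := by
  unfold cubR
  rw [map_add, map_add, map_pow, map_mul, aeval_X, aeval_C, aeval_C]
  exact h.root

theorem cubR_dvd (h : IsCub K a b θ) {P : k[X][X]} (hP : aeval θ P = 0) : cubR a b ∣ P := by
  rw [← modByMonic_eq_zero_iff_dvd (cubR_monic a b)]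
  have hd : (P %ₘ cubR a b).natDegree ≤ 2 := by
    have h1 : (P %ₘ cubR a b).natDegree < (cubR a b).natDegree :=
      natDegree_modByMonic_lt P (cubR_monic a b) (by
        intro h0
        have := cubR_natDegree a b
        rw [h0, natDegree_one] at this
        omega)
    rw [cubR_natDegree] at h1
    omega
  have h1 := pq_eq_of_natDegree hd
  have h2 : aeval θ (P %ₘ cubR a b) = 0 := by
    have h3 := modByMonic_add_div P (cubR a b)
    have h4 := congrArg (aeval θ) h3
    rwa [map_add, map_mul, aeval_cubR h, zero_mul, add_zero, hP] at h4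
  have h5 : Crd θ (fun i : Fin 3 => (P %ₘ cubR a b).coeff (i : ℕ)) (0 : L) := by
    rw [crd_iff, ← h1, h2]
  have h6 : Crd θ (fun _ : Fin 3 => (0 : k[X])) (0 : L) := by
    rw [crd_iff, aeval_pq]
    simp
  have h7 := Pool.Agent.N862.PP.crd_uniq h h5 h6
  rw [h1, h7]
  unfold pq
  simp

theorem dsc_ne_zero {Q : k[X]} (hd : ¬ Q ∣ dsc a b) : dsc a b ≠ 0 := by
  intro h0
  exact hd (h0 ▸ dvd_zero Q)

/-- elements in all the primes over `Q` -/
theorem nilp (h : IsCub K a b θ) {Q : k[X]} (hQ : Irreducible Q) (hd : ¬ Q ∣ dsc a b) {z : O}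
    (hz : ∀ 𝔓 : HeightOneSpectrum O, Ov Q 𝔓 → z ∈ 𝔓.asIdeal) :
    ∃ v : Fin 3 → k[X], algebraMap k[X] L (dsc a b) * algebraMap O L z =
      algebraMap k[X] L Q * aeval θ (pq v) := by
  have hinjO := Pool.Agent.N862.PP.algO_inj (K := K) (L := L) (O := O) (k := k)
  have hQO : algebraMap k[X] O Q ≠ 0 := by
    intro h0
    exact hQ.ne_zero (hinjO (by rw [h0, map_zero]))
  have hrad : z ∈ (Ideal.span {algebraMap k[X] O Q}).radical := by
    rw [Ideal.radical_eq_sInf, Ideal.mem_sInf]
    rintro J ⟨hJ1, hJ2⟩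
    have hQJ : algebraMap k[X] O Q ∈ J := hJ1 (Ideal.mem_span_singleton_self _)
    have hJ0 : J ≠ ⊥ := by
      rintro rfl
      exact hQO (by simpa using hQJ)
    exact hz ⟨J, hJ2, hJ0⟩ hQJ
  obtain ⟨n, hn⟩ := Ideal.mem_radical_iff.1 hrad
  obtain ⟨y, hy⟩ := Ideal.mem_span_singleton'.1 hn
  obtain ⟨v, hv⟩ := dsc_crd h (Pool.Agent.N862.PP.isInt (L := L) z)
  obtain ⟨w, hw⟩ := dsc_crd h (Pool.Agent.N862.PP.isInt (L := L) (z * y))
  rw [crd_iff] at hv hw
  set D := dsc a b with hD
  have hP : aeval θ (C D * (pq v) ^ (n + 1) - C (D ^ (n + 1) * Q) * pq w) = 0 := by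
    rw [map_sub, map_mul, map_mul, map_pow, aeval_C, aeval_C, ← hv, ← hw, map_mul, map_pow,
      map_mul (algebraMap O L)]
    have e : algebraMap O L z ^ n = algebraMap O L y * algebraMap k[X] L Q := by
      rw [IsScalarTower.algebraMap_apply k[X] O L, ← map_mul, hy, map_pow]
    rw [mul_pow, pow_succ (algebraMap O L z), e]
    ring
  have hdv := cubR_dvd h hP
  obtain ⟨κ, _, π, hπs, hπ⟩ := exists_res hQ
  have hD' : π D ≠ 0 := fun h0 => hd ((hπ _).1 h0)
  have hQ' : π Q = 0 := (hπ _).2 dvd_rfl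
  have h1 := Polynomial.map_dvd π hdv
  rw [cubR_map, Polynomial.map_sub, Polynomial.map_mul, Polynomial.map_mul, Polynomial.map_pow,
    map_C, map_C, map_mul π, hQ', mul_zero, C_0, zero_mul, sub_zero, pq_map] at h1
  have hu : IsUnit (C (π D)) := isUnit_C.2 (isUnit_iff_ne_zero.2 hD')
  rw [hu.dvd_mul_left] at h1
  have hsep : (cubR (π a) (π b)).Separable := by
    apply cubR_sep
    intro h0
    apply hD'
    rw [hD]
    unfold dsc
    rw [map_add, map_mul, map_mul, map_pow, map_pow, map_ofNat, map_ofNat]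
    exact h0
  have h2 := (hsep.squarefree.dvd_pow_iff_dvd (n := n + 1) (by omega)).1 h1
  have h3 := pq_dvd h2
  have h4 : ∀ i, ∃ w, v i = Q * w := fun i => (hπ _).1 (h3 i)
  choose w hw using h4
  refine ⟨w, ?_⟩
  rw [hv, aeval_pq, aeval_pq, hw 0, hw 1, hw 2]
  simp only [map_mul]
  ring

/-- elements small at all the primes over `Q` -/
theorem loc_max (h : IsCub K a b θ) {Q : k[X]} (hQ : Irreducible Q) (hd : ¬ Q ∣ dsc a b) {x : L}
    (hx : ∀ 𝔓 : HeightOneSpectrum O, Ov Q 𝔓 → 𝔓.valuation L x < 1) :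
    ∃ (m : k[X]) (v : Fin 3 → k[X]), ¬ Q ∣ m ∧ algebraMap k[X] L m * x =
      algebraMap k[X] L Q * aeval θ (pq v) := by
  obtain ⟨c, z, hc, hz⟩ := Pool.Agent.N862.PP.exists_den_Q h hQ x fun 𝔓 h𝔓 => (hx 𝔓 h𝔓).le
  obtain ⟨v, hv⟩ := nilp h hQ hd (z := z) (fun 𝔓 h𝔓 => by
    rw [← 𝔓.valuation_lt_one_iff_mem (K := L)]
    change 𝔓.valuation L (algebraMap O L z) < 1
    rw [← hz, map_mul]
    have h1 : 𝔓.valuation L (algebraMap k[X] L c) ≤ 1 := by
      rw [IsScalarTower.algebraMap_apply k[X] O L]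
      exact 𝔓.valuation_le_one _
    exact lt_of_le_of_lt (mul_le_of_le_one_left' h1) (hx 𝔓 h𝔓))
  refine ⟨dsc a b * c, v, fun h0 => ?_, ?_⟩
  · rcases hQ.prime.dvd_or_dvd h0 with h1 | h1
    · exact hd h1
    · exact hc h1
  · rw [map_mul, mul_assoc, hz, hv]

/-- elements integral at all the primes over `Q` -/
theorem loc_int (h : IsCub K a b θ) {Q : k[X]} (hQ : Irreducible Q) (hd : ¬ Q ∣ dsc a b) {x : L}
    (hx : ∀ 𝔓 : HeightOneSpectrum O, Ov Q 𝔓 → 𝔓.valuation L x ≤ 1) :
    ∃ (m : k[X]) (v : Fin 3 → k[X]), ¬ Q ∣ m ∧ algebraMap k[X] L m * x = aeval θ (pq v) := by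
  obtain ⟨c, z, hc, hz⟩ := Pool.Agent.N862.PP.exists_den_Q h hQ x hx
  obtain ⟨v, hv⟩ := dsc_crd h (Pool.Agent.N862.PP.isInt (L := L) z)
  refine ⟨dsc a b * c, v, fun h0 => ?_, ?_⟩
  · rcases hQ.prime.dvd_or_dvd h0 with h1 | h1
    · exact hd h1
    · exact hc h1
  · rw [map_mul, mul_assoc, hz, ← crd_iff]
    exact hv

end ovq

end Run7.h225.TS.Ovr
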