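import Pool.Agent.Run7.h225.TS.Ovr2

/-!
# The primes over a prime `Q` not dividing the discriminant, III: norms

Project TS (helper875), problem MP_48b749_nt; helper225.
-/

set_option autoImplicit false
set_option linter.all false

open Polynomial IsDedekindDomain WithZero
open Pool.Agent.N874.PP Run7.h875.TS Run7.h225.TS
open scoped Classical

namespace Run7.h225.TS.Ovr

section ovq

variable {k K L O : Type} [Field k] [Field K] [Algebra k[X] K] [IsFractionRing k[X] K]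
  [Field L] [Algebra K L] [Algebra k[X] L] [IsScalarTower k[X] K L] [CommRing O]
  [IsDedekindDomain O] [Algebra O L] [IsFractionRing O L] [Algebra k[X] O]
  [IsScalarTower k[X] O L] [IsIntegralClosure O k[X] L] {a b : k[X]} {θ : L}

theorem fin_O (h : IsCub K a b θ) (hd : dsc a b ≠ 0) : Module.Finite k[X] O := by
  set M : Submodule k[X] L := Submodule.span k[X] {1, θ, θ ^ 2} with hM
  haveI : IsNoetherian k[X] M := isNoetherian_span_of_finite k[X] (Set.toFinite _)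
  have hmem : ∀ z : O, (dsc a b • algebraMap O L z) ∈ M := by
    intro z
    obtain ⟨v, hv⟩ := dsc_crd h (Pool.Agent.N862.PP.isInt (L := L) z)
    have hv' : dsc a b • algebraMap O L z = v 0 • (1 : L) + v 1 • θ + v 2 • θ ^ 2 := by
      simp only [Algebra.smul_def, mul_one]
      exact hv
    rw [hv']
    exact Submodule.add_mem _ (Submodule.add_mem _
      (Submodule.smul_mem _ _ (Submodule.subset_span (by simp)))
      (Submodule.smul_mem _ _ (Submodule.subset_span (by simp))))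
      (Submodule.smul_mem _ _ (Submodule.subset_span (by simp)))
  let f : O →ₗ[k[X]] M :=
    { toFun := fun z => ⟨dsc a b • algebraMap O L z, hmem z⟩
      map_add' := fun x y => by
        apply Subtype.ext
        simp only [map_add, smul_add, Submodule.coe_add]
      map_smul' := fun c x => by
        apply Subtype.ext
        simp only [Algebra.smul_def, map_mul, RingHom.id_apply, Submodule.coe_smul,
          ← IsScalarTower.algebraMap_apply k[X] O L]
        ring }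
  refine Module.Finite.of_injective f ?_
  intro x y hxy
  have h1 : dsc a b • algebraMap O L x = dsc a b • algebraMap O L y := congrArg Subtype.val hxy
  rw [Algebra.smul_def, Algebra.smul_def] at h1
  have hD : algebraMap k[X] L (dsc a b) ≠ 0 := by
    intro h0
    exact hd (Pool.Agent.N862.PP.algL_inj (K := K) (by rw [h0, map_zero]))
  exact IsFractionRing.injective O L (mul_left_cancel₀ hD h1)

theorem root_of (h : IsCub K a b θ) {Q : k[X]} (hQ : Irreducible Q)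
    {𝔓 : HeightOneSpectrum O} (hov : Ov Q 𝔓) {c : k[X]}
    (hc : 𝔓.valuation L (θ - algebraMap k[X] L c) < 1) : Q ∣ c ^ 3 + a * c + b := by
  rw [← val_poly_lt (L := L) hQ hov]
  have e : algebraMap k[X] L (c ^ 3 + a * c + b) = -((θ - algebraMap k[X] L c) *
      aeval θ (pq ![c ^ 2 + a, c, 1])) := by
    rw [aeval_pq]
    have := h.root
    simp only [map_add, map_mul, map_pow, Matrix.cons_val_zero, Matrix.cons_val_one,
      Matrix.cons_val, map_one]
    linear_combination this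
  rw [e, Valuation.map_neg, map_mul]
  exact lt_of_le_of_lt (mul_le_of_le_one_right' (val_pq_le h 𝔓 _)) hc

theorem deriv_unit {Q : k[X]} (hQ : Irreducible Q) (hd : ¬ Q ∣ dsc a b) {c : k[X]}
    (hc : Q ∣ c ^ 3 + a * c + b) : ¬ Q ∣ 3 * c ^ 2 + a := by
  intro h0
  apply hd
  have e : dsc a b = (27 * (c ^ 3 + a * c + b) + 108 * c ^ 3 - 54 * c * (3 * c ^ 2 + a)) *
      (c ^ 3 + a * c + b) + (4 * (3 * c ^ 2 + a) - 9 * c ^ 2) * (3 * c ^ 2 + a) *
        (3 * c ^ 2 + a) := by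
    unfold dsc
    ring
  rw [e]
  exact dvd_add (Dvd.dvd.mul_left hc _) (Dvd.dvd.mul_left h0 _)

theorem exists_c' {Q : k[X]} (hQ : Irreducible Q) (hd : ¬ Q ∣ dsc a b) {c : k[X]}
    (hc : Q ∣ c ^ 3 + a * c + b) :
    ∃ c', Q ∣ c' - c ∧ ¬ Q ^ 2 ∣ c' ^ 3 + a * c' + b := by
  by_contra hno
  push Not at hno
  obtain ⟨e, he⟩ := hno c (by simp)
  obtain ⟨e', he'⟩ := hno (c + Q) (by simp)
  have h1 : Q * (3 * c ^ 2 + a) = Q * (Q * (e' - e - 3 * c - Q)) := by
    linear_combination he' - he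
  have h2 := mul_left_cancel₀ hQ.ne_zero h1
  exact deriv_unit hQ hd hc ⟨_, h2⟩

/-- primes of degree one -/
theorem cn_deg_one [Module.Finite k[X] O] [Module.IsTorsionFree k[X] O] (h : IsCub K a b θ)
    {Q : k[X]} (hQ : Irreducible Q) (hd : ¬ Q ∣ dsc a b) {𝔓 : HeightOneSpectrum O}
    (hov : Ov Q 𝔓) {t : O} (ht : algebraMap O L t = θ) {c : k[X]}
    (hc : t - algebraMap k[X] O c ∈ 𝔓.asIdeal) :
    Pool.Agent.N862.PP.cn k[X] (Ideal.span {Q}) 𝔓.asIdeal = 1 := by
  have hpp : (Ideal.span {Q} : Ideal k[X]).IsPrime :=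
    (Ideal.span_singleton_prime hQ.ne_zero).mpr hQ.prime
  have hpb : (Ideal.span {Q} : Ideal k[X]) ≠ ⊥ := by
    rw [Ne, Ideal.span_singleton_eq_bot]
    exact hQ.ne_zero
  have hcv : 𝔓.valuation L (θ - algebraMap k[X] L c) < 1 := by
    have h1 := (𝔓.valuation_lt_one_iff_mem (K := L) _).2 hc
    have h2 : algebraMap O L (t - algebraMap k[X] O c) = θ - algebraMap k[X] L c := by
      rw [map_sub, ht, ← IsScalarTower.algebraMap_apply k[X] O L]
    rw [← h2]
    exact h1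
  obtain ⟨c', ⟨d, hd'⟩, hc'⟩ := exists_c' hQ hd (root_of h hQ hov hcv)
  refine Pool.Agent.N862.PP.cn_one hpp hpb 𝔓.isPrime ?_ (z := t - algebraMap k[X] O c') ?_ ?_
  · ext x
    rw [Ideal.mem_comap, Pool.Agent.N862.PP.ov_iff hQ hov, Ideal.mem_span_singleton]
  · have : t - algebraMap k[X] O c' = (t - algebraMap k[X] O c) -
        algebraMap k[X] O d * algebraMap k[X] O Q := by
      have hd'' : c' = c + Q * d := by linear_combination hd'
      rw [hd'', map_add, map_mul]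
      ring
    rw [this]
    exact 𝔓.asIdeal.sub_mem hc (𝔓.asIdeal.mul_mem_left _ hov)
  · have hcr : Crd θ ![-c', 1, 0] (algebraMap O L (t - algebraMap k[X] O c')) := by
      unfold Crd
      simp only [Matrix.cons_val_zero, Matrix.cons_val_one, Matrix.cons_val, map_sub, ht,
        map_neg, map_one, map_zero, ← IsScalarTower.algebraMap_apply k[X] O L]
      ring
    rw [Pool.Agent.N862.PP.intNorm_crd h hcr, Pool.Agent.N862.PP.dn_lin, Ideal.neg_mem_iff,
      Ideal.span_singleton_pow, Ideal.mem_span_singleton]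
    exact hc'

/-- parity at the prime of degree one -/
theorem ev_c (h : IsCub K a b θ) {Q : k[X]} (hQ : Irreducible Q) (hd : ¬ Q ∣ dsc a b)
    {𝔓 : HeightOneSpectrum O} (hov : Ov Q 𝔓) {c : k[X]}
    (hc : 𝔓.valuation L (θ - algebraMap k[X] L c) < 1) {α : L} (hα : α ≠ 0)
    (hn : IsSquare (Algebra.norm K α))
    (hoth : ∀ 𝔮 : HeightOneSpectrum O, Ov Q 𝔮 → 𝔮 ≠ 𝔓 → Ev 𝔮 α) : Ev 𝔓 α := by
  obtain ⟨t, ht, htr⟩ := Pool.Agent.N862.PP.exists_theta (K := K) (O := O) h
  haveI hfin : Module.Finite k[X] O := fin_O (K := K) (L := L) h (dsc_ne_zero hd)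
  haveI htf : Module.IsTorsionFree k[X] O := Pool.Agent.N862.PP.tf_O (K := K) (L := L)
  have hc' : t - algebraMap k[X] O c ∈ 𝔓.asIdeal := by
    rw [← 𝔓.valuation_lt_one_iff_mem (K := L)]
    change 𝔓.valuation L (algebraMap O L (t - algebraMap k[X] O c)) < 1
    rw [map_sub, ht, ← IsScalarTower.algebraMap_apply k[X] O L]
    exact hc
  have h1 := cn_deg_one h hQ hd hov ht hc'
  exact Pool.Agent.N862.PP.parity h hQ 𝔓 hov (by rw [h1]; exact odd_one) hα hn
    fun 𝔮 ho hne => Or.inl (hoth 𝔮 ho hne)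

theorem dn_map {R : Type} [CommRing R] (π : k[X] →+* R) (a b : k[X]) (v : Fin 3 → k[X]) :
    π (Pool.Agent.N862.PP.dn a b v) =
      π (v 0) * ((π (v 0) - π a * π (v 2)) * (π (v 0) - π a * π (v 2)) -
        (-π b * π (v 2) - π a * π (v 1)) * π (v 1))
      - (-π b * π (v 2)) * (π (v 1) * (π (v 0) - π a * π (v 2)) -
        (-π b * π (v 2) - π a * π (v 1)) * π (v 2))
      + (-π b * π (v 1)) * (π (v 1) * π (v 1) - (π (v 0) - π a * π (v 2)) * π (v 2)) := by
  unfold Pool.Agent.N862.PP.dn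
  simp only [map_add, map_sub, map_mul, map_neg]

theorem ap_val {𝔮 : HeightOneSpectrum O} {x y : L} (hxy : 𝔮.valuation L (x - y) < 𝔮.valuation L y) :
    𝔮.valuation L x = 𝔮.valuation L y := by
  have e : x = y + (x - y) := by ring
  rw [e]
  exact Valuation.map_add_eq_of_lt_left _ hxy

/-- the quotient is close to one -/
theorem ap_div {𝔮 : HeightOneSpectrum O} {α s β : L} (hs : 𝔮.valuation L (α - s ^ 2) < 𝔮.valuation L α)
    (hβ : 𝔮.valuation L (β - s) < 𝔮.valuation L s) : 𝔮.valuation L (α / β ^ 2 - 1) < 1 := by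
  have h1 := Pool.Agent.N539.PP.sq1_val 𝔮 hs
  have h2 := ap_val hβ
  have h3 : 0 < 𝔮.valuation L s := lt_of_le_of_lt zero_le hβ
  have hβ0 : β ≠ 0 := by
    rintro rfl
    rw [map_zero] at h2
    exact h3.ne h2
  have e : α / β ^ 2 - 1 = ((α - s ^ 2) - (β - s) * (β + s)) / β ^ 2 := by
    field_simp
    ring
  have h4 : 0 < 𝔮.valuation L β ^ 2 := by
    rw [h2]
    exact pow_pos h3 2
  rw [e, map_div₀, map_pow, div_lt_one₀ h4]
  refine Valuation.map_sub_lt _ ?_ ?_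
  · rw [h2, h1]
    exact hs
  · rw [map_mul, pow_two]
    have h5 : 𝔮.valuation L (β + s) ≤ 𝔮.valuation L β :=
      Valuation.map_add_le _ le_rfl (by rw [h2])
    rw [h2] at h5 ⊢
    exact lt_of_le_of_lt (mul_le_mul_right h5 _) (mul_lt_mul_of_pos_right hβ h3)

theorem norm_sq1 (h : IsCub K a b θ) {Q : k[X]} (hQ : Irreducible Q) (hd : ¬ Q ∣ dsc a b)
    {c : k[X]} {α : L} (hα : α ≠ 0)
    (hn : IsSquare (Algebra.norm K α))
    (hs : ∀ 𝔓 : HeightOneSpectrum O, Ov Q 𝔓 → 𝔓.valuation L (θ - algebraMap k[X] L c) = 1 →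
      Sq1 𝔓 α) : Tr O Q α := by
  intro 𝔓 hov
  by_cases hc1 : 𝔓.valuation L (θ - algebraMap k[X] L c) = 1
  · exact hs 𝔓 hov hc1
  have hθ := val_theta_le h 𝔓
  have hc : 𝔓.valuation L (θ - algebraMap k[X] L c) < 1 :=
    lt_of_le_of_ne (Valuation.map_sub_le _ hθ (val_poly_le 𝔓 c)) hc1
  have hroot := root_of h hQ hov hc
  have hoth : ∀ 𝔮 : HeightOneSpectrum O, Ov Q 𝔮 → 𝔮 ≠ 𝔓 →
      𝔮.valuation L (θ - algebraMap k[X] L c) = 1 := by
    intro 𝔮 h𝔮 hne
    by_contra hne1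
    apply hne
    exact uniq_c h hQ hd h𝔮 hov (lt_of_le_of_ne
      (Valuation.map_sub_le _ (val_theta_le h 𝔮) (val_poly_le 𝔮 c)) hne1) hc
  obtain ⟨y, hy⟩ := ev_c h hQ hd hov hc hα hn fun 𝔮 h𝔮 hne =>
    Pool.Agent.N539.PP.Sq1.ev 𝔮 (hs 𝔮 h𝔮 (hoth 𝔮 h𝔮 hne))
  have hvα : ∀ 𝔮 : HeightOneSpectrum O, 𝔮.valuation L α ≠ 0 := fun 𝔮 =>
    (Valuation.ne_zero_iff _).2 hα
  -- approximate square roots
  have hex : ∀ 𝔮 : HeightOneSpectrum O, ∃ s : L, (Ov Q 𝔮 → s ≠ 0) ∧
      (Ov Q 𝔮 → 𝔮 ≠ 𝔓 → 𝔮.valuation L (α - s ^ 2) < 𝔮.valuation L α) ∧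
      (𝔮 = 𝔓 → s = y) := by
    intro 𝔮
    by_cases he : 𝔮 = 𝔓
    · refine ⟨y, fun _ => ?_, fun _ h' => absurd he h', fun _ => rfl⟩
      rintro rfl
      rw [map_zero] at hy
      exact hvα 𝔓 (by rw [hy]; simp)
    · by_cases ho : Ov Q 𝔮
      · obtain ⟨s, hs'⟩ := hs 𝔮 ho (hoth 𝔮 ho he)
        refine ⟨s, fun _ => ?_, fun _ _ => hs', fun h' => absurd h' he⟩
        rintro rfl
        rw [zero_pow two_ne_zero, sub_zero] at hs'
        exact lt_irrefl _ hs'
      · exact ⟨1, fun h' => absurd h' ho, fun h' => absurd h' ho, fun h' => absurd h' he⟩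
  choose s hs1 hs2 hs3 using hex
  obtain ⟨β, hβ⟩ := approx (fin_ov (K := K) (L := L) (O := O) hQ.ne_zero) s fun 𝔮 h𝔮 => hs1 𝔮 h𝔮
  have hβP : 𝔓.valuation L β = 𝔓.valuation L y := by
    rw [ap_val (hβ 𝔓 hov), hs3 𝔓 rfl]
  have hβ0 : β ≠ 0 := by
    rintro rfl
    rw [map_zero] at hβP
    rw [← hβP] at hy
    exact hvα 𝔓 (by rw [hy]; simp)
  set α' := α / β ^ 2 with hα'
  have hα'0 : α' ≠ 0 := div_ne_zero hα (pow_ne_zero 2 hβ0)
  have hP1 : 𝔓.valuation L α' = 1 := by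
    rw [hα', map_div₀, map_pow, hβP, ← hy, div_self (hvα 𝔓)]
  have ho1 : ∀ 𝔮 : HeightOneSpectrum O, Ov Q 𝔮 → 𝔮 ≠ 𝔓 → 𝔮.valuation L (α' - 1) < 1 :=
    fun 𝔮 h𝔮 hne => ap_div (hs2 𝔮 h𝔮 hne) (hβ 𝔮 h𝔮)
  obtain ⟨r, hr⟩ := resid_c h hQ hd hov hc hP1.le
  obtain ⟨u, u1, hu⟩ := exists_inv hQ (deriv_unit hQ hd hroot)
  -- the element `e = 1 + (r - 1) u g(θ)`
  set ψ := (r - 1) * u with hψ
  set E : Fin 3 → k[X] := ![1 + ψ * (c ^ 2 + a), ψ * c, ψ] with hE
  have hEe : aeval θ (pq E) = 1 + algebraMap k[X] L ψ * aeval θ (pq ![c ^ 2 + a, c, 1]) := by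
    rw [aeval_pq, aeval_pq, hE]
    simp only [map_add, map_mul, map_pow, Matrix.cons_val_zero, Matrix.cons_val_one,
      Matrix.cons_val, map_one]
    ring
  have hg : (θ - algebraMap k[X] L c) * aeval θ (pq ![c ^ 2 + a, c, 1]) =
      - algebraMap k[X] L (c ^ 3 + a * c + b) := by
    rw [aeval_pq]
    have := h.root
    simp only [map_add, map_mul, map_pow, Matrix.cons_val_zero, Matrix.cons_val_one,
      Matrix.cons_val, map_one]
    linear_combination this
  have hsmall : ∀ 𝔮 : HeightOneSpectrum O, Ov Q 𝔮 → 𝔮.valuation L (α' - aeval θ (pq E)) < 1 := by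
    intro 𝔮 h𝔮
    by_cases he : 𝔮 = 𝔓
    · rw [he]
      have h1 := val_pq_sub h hc E
      have h2 : Q ∣ (E 0 + E 1 * c + E 2 * c ^ 2) - r := by
        refine ⟨(r - 1) * u1, ?_⟩
        simp only [hE, Matrix.cons_val_zero, Matrix.cons_val_one, Matrix.cons_val, hψ]
        linear_combination (r - 1) * hu
      have h3 := (val_poly_lt (L := L) hQ hov _).2 h2
      rw [map_sub] at h3
      have e : α' - aeval θ (pq E) = (α' - algebraMap k[X] L r) -
        ((aeval θ (pq E) - algebraMap k[X] L (E 0 + E 1 * c + E 2 * c ^ 2)) +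
          (algebraMap k[X] L (E 0 + E 1 * c + E 2 * c ^ 2) - algebraMap k[X] L r)) := by ring
      rw [e]
      exact Valuation.map_sub_lt _ hr (Valuation.map_add_lt _ h1 h3)
    · have h1 := hoth 𝔮 h𝔮 he
      have h2 := congrArg (𝔮.valuation L) hg
      rw [map_mul, h1, one_mul, Valuation.map_neg] at h2
      have h3 := (val_poly_lt (L := L) hQ h𝔮 _).2 hroot
      rw [← h2] at h3
      have e : α' - aeval θ (pq E) = (α' - 1) -
        algebraMap k[X] L ψ * aeval θ (pq ![c ^ 2 + a, c, 1]) := by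
        rw [hEe]
        ring
      rw [e]
      refine Valuation.map_sub_lt _ (ho1 𝔮 h𝔮 he) ?_
      rw [map_mul]
      exact lt_of_le_of_lt (mul_le_of_le_one_left' (val_poly_le 𝔮 ψ)) h3
  obtain ⟨m, w, hm, hw⟩ := loc_max (O := O) h hQ hd hsmall
  -- the norm
  set v : Fin 3 → k[X] := fun i => m * E i + Q * w i with hv
  have hcr : Crd θ v (algebraMap k[X] L m * α') := by
    rw [crd_iff, aeval_pq, hv]
    have h1 := aeval_pq (θ := θ) E
    have h2 := aeval_pq (θ := θ) w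
    simp only [map_add, map_mul]
    linear_combination hw + algebraMap k[X] L m * h1 + algebraMap k[X] L Q * h2
  have hα2 : α = α' * β ^ 2 := by
    rw [hα']
    field_simp
  have hN1 := Pool.Agent.N862.PP.norm_crd h hcr
  have hN2 : Algebra.norm K (algebraMap k[X] L m) = algebraMap k[X] K m ^ 3 := by
    rw [IsScalarTower.algebraMap_apply k[X] K L, Algebra.norm_algebraMap, h.rank]
  obtain ⟨ρ, hρ⟩ : IsSquare (Algebra.norm K α') := by
    obtain ⟨σ, hσ⟩ := hn
    have hNβ : Algebra.norm K β ≠ 0 := by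
      haveI : Module.Finite K L := Module.Finite.of_basis h.basis
      exact Algebra.norm_ne_zero_iff.2 hβ0
    refine ⟨σ / Algebra.norm K β, ?_⟩
    have h1 := congrArg (Algebra.norm K) hα2
    rw [map_mul, map_pow, hσ] at h1
    field_simp
    linear_combination -h1
  rw [map_mul, hN2, hρ] at hN1
  have hint : IsIntegral k[X] (algebraMap k[X] K m ^ 2 * ρ) := by
    refine IsIntegral.of_pow (n := 2) (by norm_num) ?_
    have e : (algebraMap k[X] K m ^ 2 * ρ) ^ 2 =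
        algebraMap k[X] K (m * Pool.Agent.N862.PP.dn a b v) := by
      rw [map_mul, ← hN1]
      ring
    rw [e]
    exact isIntegral_algebraMap
  obtain ⟨n, hn'⟩ := IsIntegrallyClosed.isIntegral_iff.1 hint
  have hnn : n ^ 2 = m * Pool.Agent.N862.PP.dn a b v := by
    apply IsFractionRing.injective k[X] K
    rw [map_pow, hn', map_mul, ← hN1]
    ring
  obtain ⟨m', m1, hm'⟩ := exists_inv hQ hm
  obtain ⟨κ, _, π, hπs, hπ⟩ := exists_res hQ
  have hQ' : π Q = 0 := (hπ _).2 dvd_rfl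
  have p1 := congrArg π hnn
  have p2 := congrArg π hm'
  have p3 := congrArg π hu
  have p4 := (hπ _).2 hroot
  have hvE : ∀ i, π (v i) = π m * π (E i) := by
    intro i
    rw [hv]
    simp only [map_add, map_mul, hQ', zero_mul, add_zero]
  rw [map_pow, map_mul, dn_map, hvE, hvE, hvE] at p1
  simp only [hE, hψ, Matrix.cons_val_zero, Matrix.cons_val_one, Matrix.cons_val, map_add, map_mul,
    map_sub, map_pow, map_one, map_ofNat, hQ', zero_mul, add_zero] at p1 p2 p3 p4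
  have p5 : π b = -(π c ^ 3 + π a * π c) := by linear_combination p4
  have p6 : π n ^ 2 = π m ^ 4 * π r := by
    rw [p1, p5]
    linear_combination (π m ^ 4 * (π r - 1)) * p3
  have p7 : Q ∣ r - (m' ^ 2 * n) ^ 2 := by
    rw [← hπ, map_sub, map_pow, map_mul, map_pow, mul_pow, p6]
    have : π m' ^ 4 * π m ^ 4 = 1 := by
      rw [← mul_pow, p2, one_pow]
    linear_combination (-π r) * this
  have hfin : Sq1 𝔓 α' := by
    refine ⟨algebraMap k[X] L (m' ^ 2 * n), ?_⟩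
    rw [hP1]
    have h3 := (val_poly_lt (L := L) hQ hov _).2 p7
    have e : α' - algebraMap k[X] L (m' ^ 2 * n) ^ 2 = (α' - algebraMap k[X] L r) +
      algebraMap k[X] L (r - (m' ^ 2 * n) ^ 2) := by
      rw [map_sub, map_pow (algebraMap k[X] L)]
      ring
    rw [e]
    exact Valuation.map_add_lt _ hr h3
  rw [hα2]
  exact (Pool.Agent.N539.PP.sq1_mul_sq 𝔓 hβ0).2 hfin

/-- The residue field of a prime over `Q`. -/
theorem mem_iff_dvd {Q : k[X]} (hQ : Irreducible Q) {κ : Type} [Field κ] {π : k[X] →+* κ}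
    (hπs : Function.Surjective π) (hπ : ∀ c, π c = 0 ↔ Q ∣ c) {𝔓 : HeightOneSpectrum O}
    (hov : Ov Q 𝔓) (t : O) {G : k[X][X]} (hG : aeval t G ∈ 𝔓.asIdeal)
    (hGi : Irreducible (G.map π)) (P : k[X][X]) : aeval t P ∈ 𝔓.asIdeal ↔ G.map π ∣ P.map π := by
  have hker : ∀ R : k[X][X], R.map π = 0 → aeval t R ∈ 𝔓.asIdeal := by
    intro R hR
    have h1 : C Q ∣ R := by
      rw [C_dvd_iff_dvd_coeff]
      intro i
      rw [← hπ, ← coeff_map, hR, coeff_zero]
    obtain ⟨R', rfl⟩ := h1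
    rw [map_mul, aeval_C]
    exact Ideal.mul_mem_right _ _ hov
  have hsurj := map_surjective π hπs
  constructor
  · intro hP
    by_contra hn
    obtain ⟨A, B, hAB⟩ := (hGi.coprime_iff_not_dvd).2 hn
    obtain ⟨A', rfl⟩ := hsurj A
    obtain ⟨B', rfl⟩ := hsurj B
    have h1 : aeval t (A' * G + B' * P - 1) ∈ 𝔓.asIdeal := by
      apply hker
      rw [Polynomial.map_sub, Polynomial.map_add, Polynomial.map_mul, Polynomial.map_mul,
        Polynomial.map_one, hAB, sub_self]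
    rw [map_sub, map_add, map_mul, map_mul, map_one] at h1
    apply 𝔓.isPrime.ne_top
    rw [Ideal.eq_top_iff_one]
    have e : (1 : O) = (aeval t A' * aeval t G + aeval t B' * aeval t P) -
      (aeval t A' * aeval t G + aeval t B' * aeval t P - 1) := by ring
    rw [e]
    exact 𝔓.asIdeal.sub_mem (𝔓.asIdeal.add_mem (𝔓.asIdeal.mul_mem_left _ hG)
      (𝔓.asIdeal.mul_mem_left _ hP)) h1
  · rintro ⟨W, hW⟩
    obtain ⟨W', rfl⟩ := hsurj W
    have h1 : aeval t (P - G * W') ∈ 𝔓.asIdeal := by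
      apply hker
      rw [Polynomial.map_sub, Polynomial.map_mul, hW, sub_self]
    rw [map_sub, map_mul] at h1
    have e : aeval t P = (aeval t P - aeval t G * aeval t W') + aeval t G * aeval t W' := by ring
    rw [e]
    exact 𝔓.asIdeal.add_mem h1 (𝔓.asIdeal.mul_mem_right _ hG)

theorem map_aeval_t {t : O} (ht : algebraMap O L t = θ) (P : k[X][X]) :
    algebraMap O L (aeval t P) = aeval θ P := by
  rw [← ht]
  exact (aeval_algebraMap_apply L t P).symm

/-- two primes over `Q` with the same factor agree -/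
theorem uniq_G (h : IsCub K a b θ) {Q : k[X]} (hQ : Irreducible Q) (hd : ¬ Q ∣ dsc a b)
    {κ : Type} [Field κ] {π : k[X] →+* κ}
    (hπs : Function.Surjective π) (hπ : ∀ c, π c = 0 ↔ Q ∣ c) {𝔓 𝔮 : HeightOneSpectrum O}
    (hov : Ov Q 𝔓) (hov' : Ov Q 𝔮) {t : O} (ht : algebraMap O L t = θ) {G : k[X][X]}
    (hG : aeval t G ∈ 𝔓.asIdeal) (hG' : aeval t G ∈ 𝔮.asIdeal)
    (hGi : Irreducible (G.map π)) : 𝔓 = 𝔮 := by
  apply HeightOneSpectrum.ext
  ext z
  obtain ⟨v, hv⟩ := dsc_crd h (Pool.Agent.N862.PP.isInt (L := L) z)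
  rw [crd_iff] at hv
  rw [mem_iff h hQ hd hov hv, mem_iff h hQ hd hov' hv, ← map_aeval_t ht]
  have h1 := 𝔓.valuation_lt_one_iff_mem (K := L) (aeval t (pq v))
  have h2 := 𝔮.valuation_lt_one_iff_mem (K := L) (aeval t (pq v))
  rw [mem_iff_dvd hQ hπs hπ hov t hG hGi] at h1
  rw [mem_iff_dvd hQ hπs hπ hov' t hG' hGi] at h2
  exact h1.trans h2.symm

theorem irr_quad {Q : k[X]} (hQ : Irreducible Q) (hd : ¬ Q ∣ dsc a b)
    {κ : Type} [Field κ] {π : k[X] →+* κ}
    (hπs : Function.Surjective π) (hπ : ∀ c, π c = 0 ↔ Q ∣ c) {c : k[X]} (hc : RtM a b Q c)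
    (huniq : ∀ c' : k[X], RtM a b Q c' → Q ∣ c' - c) :
    Irreducible ((pq ![c ^ 2 + a, c, 1] : k[X][X]).map π) := by
  have hdeg : ((pq ![c ^ 2 + a, c, 1] : k[X][X]).map π).natDegree = 2 := by
    rw [pq_map]
    unfold pq
    simp only [Matrix.cons_val_zero, Matrix.cons_val_one, Matrix.cons_val, map_one]
    compute_degree!
  rw [irreducible_iff_roots_eq_zero_of_degree_le_three (by omega) (by omega)]
  refine Multiset.eq_zero_of_forall_notMem fun x hx => ?_
  have hne : ((pq ![c ^ 2 + a, c, 1] : k[X][X]).map π) ≠ 0 := by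
    intro h0
    rw [h0, natDegree_zero] at hdeg
    omega
  have h1 := (mem_roots hne).1 hx
  obtain ⟨c', rfl⟩ := hπs x
  rw [IsRoot, pq_map] at h1
  unfold pq at h1
  simp only [Matrix.cons_val_zero, Matrix.cons_val_one, Matrix.cons_val, map_one, eval_add,
    eval_mul, eval_C, eval_X, eval_pow, map_add, map_pow, one_mul] at h1
  have h2 : Q ∣ c' ^ 2 + c * c' + (c ^ 2 + a) := by
    rw [← hπ]
    simp only [map_add, map_mul, map_pow]
    linear_combination h1
  have h3 : RtM a b Q c' := by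
    unfold RtM at hc ⊢
    have e : c' ^ 3 + a * c' + b = (c' - c) * (c' ^ 2 + c * c' + (c ^ 2 + a)) +
      (c ^ 3 + a * c + b) := by ring
    rw [e]
    exact dvd_add (Dvd.dvd.mul_left h2 _) hc
  have h4 := huniq c' h3
  apply deriv_unit hQ hd hc
  have e : 3 * c ^ 2 + a = (c' ^ 2 + c * c' + (c ^ 2 + a)) - (c' - c) * (c' + 2 * c) := by ring
  rw [e]
  exact dvd_sub h2 (Dvd.dvd.mul_right h4 _)

/-- the quadratic factor vanishes -/
theorem quad_mem (h : IsCub K a b θ) {Q : k[X]} (hQ : Irreducible Q)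
    {𝔮 : HeightOneSpectrum O} (hov : Ov Q 𝔮) {t : O} (ht : algebraMap O L t = θ)
    {c : k[X]} (hc : RtM a b Q c)
    (hc1 : 𝔮.valuation L (θ - algebraMap k[X] L c) = 1) :
    aeval t (pq ![c ^ 2 + a, c, 1]) ∈ 𝔮.asIdeal := by
  rw [← 𝔮.valuation_lt_one_iff_mem (K := L)]
  change 𝔮.valuation L (algebraMap O L (aeval t (pq ![c ^ 2 + a, c, 1]))) < 1
  rw [map_aeval_t ht]
  have hg : (θ - algebraMap k[X] L c) * aeval θ (pq ![c ^ 2 + a, c, 1]) =
      - algebraMap k[X] L (c ^ 3 + a * c + b) := by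
    rw [aeval_pq]
    have := h.root
    simp only [map_add, map_mul, map_pow, Matrix.cons_val_zero, Matrix.cons_val_one,
      Matrix.cons_val, map_one]
    linear_combination this
  have h2 := congrArg (𝔮.valuation L) hg
  rw [map_mul, hc1, one_mul, Valuation.map_neg] at h2
  rw [h2]
  exact (val_poly_lt (L := L) hQ hov _).2 hc

/-- exactly one zero: only one prime with `θ - c` a unit -/
theorem uniq_q (h : IsCub K a b θ) {Q : k[X]} (hQ : Irreducible Q) (hd : ¬ Q ∣ dsc a b)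
    {𝔮 𝔮' : HeightOneSpectrum O} (hov : Ov Q 𝔮) (hov' : Ov Q 𝔮') {c : k[X]} (hc : RtM a b Q c)
    (huniq : ∀ c' : k[X], RtM a b Q c' → Q ∣ c' - c)
    (h1 : 𝔮.valuation L (θ - algebraMap k[X] L c) = 1)
    (h2 : 𝔮'.valuation L (θ - algebraMap k[X] L c) = 1) : 𝔮 = 𝔮' := by
  obtain ⟨t, ht, htr⟩ := Pool.Agent.N862.PP.exists_theta (K := K) (O := O) h
  obtain ⟨κ, _, π, hπs, hπ⟩ := exists_res hQ
  exact uniq_G h hQ hd hπs hπ hov hov' ht (quad_mem h hQ hov ht hc h1)
    (quad_mem h hQ hov' ht hc h2) (irr_quad hQ hd hπs hπ hc huniq)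

/-- `Tr` as a subgroup -/
def Tsub (O : Type) [CommRing O] [IsDedekindDomain O] [Algebra O L]
    [IsFractionRing O L] [Algebra k[X] O] (Q : k[X]) : Subgroup Lˣ where
  carrier := {α | Tr O Q (α : L)}
  mul_mem' := by
    intro x y hx hy 𝔓 h𝔓
    rw [Units.val_mul]
    exact Pool.Agent.N539.PP.Sq1.mul 𝔓 (hx 𝔓 h𝔓) (hy 𝔓 h𝔓)
  one_mem' := by
    intro 𝔓 h𝔓
    have := Pool.Agent.N539.PP.sq1_sq 𝔓 (x := (1 : L)) one_ne_zero
    simpa using this
  inv_mem' := by
    intro x hx 𝔓 h𝔓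
    have e : ((x⁻¹ : Lˣ) : L) = (x : L) * (((x⁻¹ : Lˣ) : L)) ^ 2 := by
      rw [pow_two, ← mul_assoc, Units.mul_inv, one_mul]
    rw [e]
    exact (Pool.Agent.N539.PP.sq1_mul_sq 𝔓 (Units.ne_zero _)).2 (hx 𝔓 h𝔓)

theorem mem_Tsub {Q : k[X]} (α : Lˣ) : α ∈ Tsub (L := L) O Q ↔ Tr O Q (α : L) := Iff.rfl

theorem sqL_le_Tsub (Q : k[X]) : sqL L ≤ Tsub (L := L) O Q := by
  rintro _ ⟨x, rfl⟩ 𝔓 h𝔓
  have := Pool.Agent.N539.PP.sq1_sq 𝔓 (x := (x : L)) (Units.ne_zero _)
  simpa using this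

end ovq

end Run7.h225.TS.Ovr
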