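import Pool.Agent.Run7.h225.TS.Infv
import Pool.Agent.Run7.h225.TS.GRP
import Pool.Agent.N26.PP.Diag
import Pool.Agent.N141.PP.Rec
import Pool.Agent.N352.PP.Tame
import Pool.Agent.N368.PP.Hp

/-!
# REC2: reciprocity

Project TS (helper875), problem MP_48b749_nt; helper225.
-/

set_option autoImplicit false
set_option linter.all false

open Polynomial IsDedekindDomain WithZero Matrix
open Pool.Agent.N874.PP Pool.Agent.N26.PP Pool.Agent.TH115.GD Run7.h875.TS
open scoped Classical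

namespace Run7.h225.TS.REC2

/-- Diagonalisation with given first vector (the second half of `Pool.Agent.N26.PP.t_diag`). -/
theorem diag2 {k K L : Type} [Field k] [Field K] [Algebra k[X] K] [IsFractionRing k[X] K]
    [Field L] [Algebra K L] [Algebra k[X] L] [IsScalarTower k[X] K L] {a b : k[X]} {θ : L}
    (h2K : (2 : K) ≠ 0) (h : IsCub K a b θ) {α : L} (hα : α ≠ 0)
    (hsq : IsSquare (Algebra.norm K α)) {v₀ : L} {d : k[X]} (hd0 : d ≠ 0)
    (hv00 : h.co 2 (v₀ * v₀ / α) = algebraMap k[X] K d) :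
    ∃ e : k[X], e ≠ 0 ∧ Squarefree e ∧ ∃ ve : Fin 3 → L, LinearIndependent K ve ∧
      (∀ i j, i ≠ j → h.co 2 (ve i * ve j / α) = 0) ∧
      h.co 2 (ve 0 ^ 2 / α) = algebraMap k[X] K d ∧
      h.co 2 (ve 1 ^ 2 / α) = algebraMap k[X] K e ∧
      h.co 2 (ve 2 ^ 2 / α) = - algebraMap k[X] K (d * e) := by
  have hinj : Function.Injective (algebraMap k[X] K) := IsFractionRing.injective k[X] K
  obtain ⟨ν, hν⟩ := hsq
  have hnα : Algebra.norm K α ≠ 0 := by
    have : FiniteDimensional K L := Module.finite_of_finrank_pos (by rw [h.rank]; omega)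
    exact Algebra.norm_ne_zero_iff.2 hα
  have hν0 : ν ≠ 0 := by
    rintro rfl
    exact hnα (by rw [hν, mul_zero])
  have hne : ∀ q : k[X], q ≠ 0 → algebraMap k[X] K q ≠ 0 := by
    intro q hq h0
    exact hq (hinj (by rw [h0, map_zero]))
  have hsc : ∀ (t t' : K) (v w : L), h.co 2 ((algebraMap K L t * v) * (algebraMap K L t' * w) / α) =
      t * t' * h.co 2 (v * w / α) := by
    intro t t' v w
    have e1 : (algebraMap K L t * v) * (algebraMap K L t' * w) / α =
        (t * t') • (v * w / α) := by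
      rw [Algebra.smul_def, map_mul]; ring
    rw [e1, map_smul, smul_eq_mul]
  have hdK := hne d hd0
  obtain ⟨v₁, v₂, h01, h02, h12, h11, h22⟩ := orth h hα h2K (v₀ := v₀) (by rw [hv00]; exact hdK)
  -- the second vector
  obtain ⟨p₁, q₁, hq₁, hpq⟩ := IsFractionRing.div_surjective (A := k[X]) (h.co 2 (v₁ * v₁ / α))
  have hq₁0 : q₁ ≠ 0 := nonZeroDivisors.ne_zero hq₁
  have hq₁K := hne q₁ hq₁0
  have hp₁0 : p₁ ≠ 0 := by
    rintro rfl
    rw [map_zero, zero_div] at hpq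
    exact h11 hpq.symm
  obtain ⟨e₁, g₂, he₁sq, hg₂0, heg⟩ := sqf_dec _ (p₁ * q₁) le_rfl (mul_ne_zero hp₁0 hq₁0)
  have he₁0 : e₁ ≠ 0 := he₁sq.ne_zero
  have he₁K := hne e₁ he₁0
  have hg₂K := hne g₂ hg₂0
  set t₁ : K := algebraMap k[X] K q₁ / algebraMap k[X] K g₂ with ht₁
  have hv11 : h.co 2 ((algebraMap K L t₁ * v₁) * (algebraMap K L t₁ * v₁) / α) =
      algebraMap k[X] K e₁ := by
    rw [hsc, ← hpq, ht₁]
    have h1 : algebraMap k[X] K p₁ * algebraMap k[X] K q₁ =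
        algebraMap k[X] K e₁ * algebraMap k[X] K g₂ ^ 2 := by
      rw [← map_mul, heg, map_mul, map_pow]
    field_simp
    linear_combination h1
  -- the determinant
  set w₁ : L := algebraMap K L t₁ * v₁ with hw₁
  have hw01 : h.co 2 (v₀ * w₁ / α) = 0 := by
    have h1 := hsc 1 t₁ v₀ v₁
    rw [map_one, one_mul, h01, mul_zero] at h1
    exact h1
  have hw12 : ∀ t : K, h.co 2 (w₁ * (algebraMap K L t * v₂) / α) = 0 := by
    intro t
    rw [hw₁, hsc, h12, mul_zero]
  have hdet : ∀ t : K, algebraMap k[X] K d * algebraMap k[X] K e₁ *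
      (t * t * h.co 2 (v₂ * v₂ / α)) * (ν * ν) =
      -((h.basis.toMatrix ![v₀, w₁, algebraMap K L t * v₂]).det ^ 2) := by
    intro t
    rw [← hν, ← det_gram h hα, Matrix.det_fin_three]
    have h02' : h.co 2 (v₀ * (algebraMap K L t * v₂) / α) = 0 := by
      have h1 := hsc 1 t v₀ v₂
      rw [map_one, one_mul, h02, mul_zero] at h1
      exact h1
    simp only [Matrix.of_apply, Matrix.cons_val_zero, Matrix.cons_val_one, Matrix.cons_val]
    rw [hv00, hv11, hw12, h02', hw01, mul_comm w₁ v₀, hw01, mul_comm (algebraMap K L t * v₂) v₀,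
      h02', mul_comm (algebraMap K L t * v₂) w₁, hw12, hsc]
    ring
  set Δ : K := (h.basis.toMatrix ![v₀, w₁, algebraMap K L 1 * v₂]).det with hΔ
  have hdet1 := hdet 1
  rw [← hΔ, one_mul, one_mul] at hdet1
  have hΔ0 : Δ ≠ 0 := by
    intro h0
    rw [h0] at hdet1
    have h1 : algebraMap k[X] K d * algebraMap k[X] K e₁ * h.co 2 (v₂ * v₂ / α) * (ν * ν) ≠ 0 :=
      mul_ne_zero (mul_ne_zero (mul_ne_zero hdK he₁K) h22) (mul_ne_zero hν0 hν0)
    exact h1 (by rw [hdet1]; ring)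
  set t₂ : K := algebraMap k[X] K d * algebraMap k[X] K e₁ * ν / Δ with ht₂
  have ht₂0 : t₂ ≠ 0 := div_ne_zero (mul_ne_zero (mul_ne_zero hdK he₁K) hν0) hΔ0
  have hv22 : t₂ * t₂ * h.co 2 (v₂ * v₂ / α) = -(algebraMap k[X] K (d * e₁)) := by
    obtain ⟨β, hβ⟩ : ∃ β, β = h.co 2 (v₂ * v₂ / α) := ⟨_, rfl⟩
    rw [← hβ] at hdet1 ⊢
    rw [map_mul, ht₂]
    have h1 : algebraMap k[X] K d * algebraMap k[X] K e₁ ≠ 0 := mul_ne_zero hdK he₁K
    field_simp
    linear_combination hdet1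
  refine ⟨e₁, he₁0, he₁sq, ![v₀, w₁, algebraMap K L t₂ * v₂], ?_, ?_, ?_,
    ?_, ?_⟩
  · have hdt := hdet t₂
    have hne2 : (h.basis.toMatrix ![v₀, w₁, algebraMap K L t₂ * v₂]).det ≠ 0 := by
      intro h0
      rw [h0, hv22, map_mul] at hdt
      have h1 : algebraMap k[X] K d * algebraMap k[X] K e₁ *
          -(algebraMap k[X] K d * algebraMap k[X] K e₁) * (ν * ν) ≠ 0 :=
        mul_ne_zero (mul_ne_zero (mul_ne_zero hdK he₁K) (neg_ne_zero.2 (mul_ne_zero hdK he₁K)))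
          (mul_ne_zero hν0 hν0)
      exact h1 (by rw [hdt]; ring)
    exact ((h.basis.is_basis_iff_det).2 (isUnit_iff_ne_zero.2 hne2)).1
  · have h02' : h.co 2 (v₀ * (algebraMap K L t₂ * v₂) / α) = 0 := by
      have h1 := hsc 1 t₂ v₀ v₂
      rw [map_one, one_mul, h02, mul_zero] at h1
      exact h1
    intro i j hij
    fin_cases i <;> fin_cases j
    · exact absurd rfl hij
    · exact hw01
    · exact h02'
    · show h.co 2 (w₁ * v₀ / α) = 0
      rw [mul_comm]; exact hw01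
    · exact absurd rfl hij
    · exact hw12 t₂
    · show h.co 2 (algebraMap K L t₂ * v₂ * v₀ / α) = 0
      rw [mul_comm]; exact h02'
    · show h.co 2 (algebraMap K L t₂ * v₂ * w₁ / α) = 0
      rw [mul_comm]; exact hw12 t₂
    · exact absurd rfl hij
  · show h.co 2 (v₀ ^ 2 / α) = _
    rw [pow_two]; exact hv00
  · show h.co 2 (w₁ ^ 2 / α) = _
    rw [pow_two]; exact hv11
  · show h.co 2 ((algebraMap K L t₂ * v₂) ^ 2 / α) = _
    rw [pow_two, hsc]; exact hv22

/-- A first vector. -/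
theorem first {k K L : Type} [Field k] [Field K] [Algebra k[X] K] [IsFractionRing k[X] K]
    [Field L] [Algebra K L] [Algebra k[X] L] [IsScalarTower k[X] K L] {a b : k[X]} {θ : L}
    (h6 : (6 : k) ≠ 0) (h : IsCub K a b θ) {α : L} (hα : α ≠ 0)
    (hiso : IsoF h (CompInf k K) α) : ∃ (d : k[X]) (v₀ : L), d.Monic ∧ Squarefree d ∧
      Even d.natDegree ∧ h.co 2 (v₀ * v₀ / α) = algebraMap k[X] K d := by
  have hinjK : Function.Injective (algebraMap k[X] K) := IsFractionRing.injective k[X] K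
  obtain ⟨x, hx, hx0⟩ := hiso
  set φ := algebraMap K (CompInf k K) with hφ
  have hnd : (Matrix.of fun i j : Fin 3 => h.co 2 (θ ^ (i : ℕ) * θ ^ (j : ℕ) / α)).det ≠ 0 := by
    intro h0
    have h1 := det_gram h hα (fun i : Fin 3 => θ ^ (i : ℕ))
    have h2 : h.basis.toMatrix (fun i : Fin 3 => θ ^ (i : ℕ)) = 1 := by
      have : (fun i : Fin 3 => θ ^ (i : ℕ)) = ⇑h.basis := by
        funext i
        rw [h.basis_apply, Pool.Agent.N141.PP.vec_eq]
      rw [this, Module.Basis.toMatrix_self]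
    rw [h2, Matrix.det_one, h0, zero_mul] at h1
    norm_num at h1
  have h2F : (2 : CompInf k K) ≠ 0 := by
    intro h0
    have h2k : (2 : k) ≠ 0 := by
      intro h0
      apply h6
      rw [show (6 : k) = 2 * 3 by norm_num, h0, zero_mul]
    apply h2k
    have hinj : Function.Injective ((φ.comp (algebraMap k[X] K)).comp C) :=
      (φ.injective.comp hinjK).comp C_injective
    apply hinj
    rw [map_ofNat, map_zero]
    exact h0
  obtain ⟨y, hy⟩ := Infv.univ h2F
    (Matrix.of fun i j : Fin 3 => φ (h.co 2 (θ ^ (i : ℕ) * θ ^ (j : ℕ) / α))) (by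
      have e : (Matrix.of fun i j : Fin 3 => φ (h.co 2 (θ ^ (i : ℕ) * θ ^ (j : ℕ) / α))) =
        φ.mapMatrix (Matrix.of fun i j : Fin 3 => h.co 2 (θ ^ (i : ℕ) * θ ^ (j : ℕ) / α)) := rfl
      rw [e, ← RingHom.map_det, Ne, map_eq_zero]
      exact hnd) (fun i j => by
        simp only [Matrix.of_apply]
        rw [mul_comm (θ ^ (i : ℕ))]) x hx hx0
  simp only [Matrix.of_apply] at hy
  obtain ⟨z, hz⟩ : ∃ z : Fin 3 → K, Infv.vi k K ((∑ i : Fin 3, ∑ j : Fin 3,
      h.co 2 (θ ^ (i : ℕ) * θ ^ (j : ℕ) / α) * z i * z j) - 1) < 1 :=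
    Infv.dens (M := AtInf K) (pl (0 : k))
      (fun i j => h.co 2 (θ ^ (i : ℕ) * θ ^ (j : ℕ) / α)) y hy
  set r : K := ∑ i : Fin 3, ∑ j : Fin 3, h.co 2 (θ ^ (i : ℕ) * θ ^ (j : ℕ) / α) * z i * z j with hr
  have hz' : Infv.vi k K (r - 1) < 1 := hz
  obtain ⟨D, g, hDm, hDe, hg0, hDg⟩ := Infv.near_one hz'
  obtain ⟨d, g₁, hds, hdm, hg₁m, hpd⟩ := sqf_dec_monic D hDm
  have hdeven : Even d.natDegree := by
    have h1 : D.natDegree = d.natDegree + 2 * g₁.natDegree := by
      rw [hpd, hdm.natDegree_mul (hg₁m.pow 2), hg₁m.natDegree_pow]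
    rw [Nat.even_iff] at hDe ⊢
    omega
  set v : L := ∑ i : Fin 3, algebraMap K L (z i) * θ ^ (i : ℕ) with hv
  have hvr : h.co 2 (v * v / α) = r := by
    have e : v * v / α = ∑ i : Fin 3, ∑ j : Fin 3, (z i * z j) •
        (θ ^ (i : ℕ) * θ ^ (j : ℕ) / α) := by
      rw [hv, Finset.sum_mul_sum, Finset.sum_div]
      refine Finset.sum_congr rfl fun i _ => ?_
      rw [Finset.sum_div]
      refine Finset.sum_congr rfl fun j _ => ?_
      rw [Algebra.smul_def, map_mul]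
      ring
    rw [e, map_sum, hr]
    refine Finset.sum_congr rfl fun i _ => ?_
    rw [map_sum]
    refine Finset.sum_congr rfl fun j _ => ?_
    rw [map_smul, smul_eq_mul]
    ring
  have hg₁K : algebraMap k[X] K g₁ ≠ 0 := fun h0 => hg₁m.ne_zero (hinjK (by rw [h0, map_zero]))
  set t : K := (algebraMap k[X] K g₁ * g)⁻¹ with ht
  refine ⟨d, algebraMap K L t * v, hdm, hds, hdeven, ?_⟩
  have e1 : (algebraMap K L t * v) * (algebraMap K L t * v) / α = (t * t) • (v * v / α) := by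
    rw [Algebra.smul_def, map_mul]; ring
  rw [e1, map_smul, smul_eq_mul, hvr, hDg, hpd, map_mul, map_pow, ht]
  field_simp

/-- **REC2** -/
theorem rec2 : Run7.h875.TS.S_REC2 := by
  intro k K L _ _ _ _ _ _ _ _ _ a b θ h6 h α hα hsq hinf
  have h2k := GRP.two_ne h6
  have h2K : (2 : K) ≠ 0 := by
    intro h0
    apply h2k
    have hinj : Function.Injective ((algebraMap k[X] K).comp C) :=
      (IsFractionRing.injective k[X] K).comp C_injective
    apply hinj
    rw [map_ofNat, map_zero]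
    exact h0
  obtain ⟨d, v₀, hdm, hds, hde, hv₀⟩ := first h6 h hα hinf
  obtain ⟨e, he0, hes, ve, hli, ho, g0, g1, g2⟩ := diag2 h2K h hα hsq hdm.ne_zero hv₀
  obtain ⟨hfin, heven⟩ := Pool.Agent.N368.PP.hp k h2k d e hdm hds hde he0 hes
  have hiso : ∀ (P : k[X]) (v : HeightOneSpectrum k[X]), Irreducible P →
      v.asIdeal = Ideal.span {P} → (IsoAt h v α ↔ ¬ HBad P d e) := by
    intro P v hP hv
    rw [Pool.Agent.N141.PP.iso_iff h v α hli d e ho g0 g1 g2]
    exact Pool.Agent.N352.PP.tame k K h2k P v hP hv d e hdm.ne_zero he0 hds hes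
  have hset : {P : k[X] | P.Monic ∧ Irreducible P ∧
      ∀ v : HeightOneSpectrum k[X], v.asIdeal = Ideal.span {P} → ¬ IsoAt h v α} =
      {P : k[X] | P.Monic ∧ Irreducible P ∧ HBad P d e} := by
    ext P
    constructor
    · rintro ⟨h1, h2, h3⟩
      refine ⟨h1, h2, ?_⟩
      have h4 := h3 (Pool.Agent.N141.PP.vP P h2) rfl
      rw [hiso P _ h2 rfl, not_not] at h4
      exact h4
    · rintro ⟨h1, h2, h3⟩
      refine ⟨h1, h2, fun v hv => ?_⟩
      rw [hiso P v h2 hv, not_not]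
      exact h3
  rw [hset]
  exact ⟨hfin, heven⟩

end Run7.h225.TS.REC2
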