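import Pool.Agent.Run7.h225.TS.Infv
import Pool.Agent.Run7.h225.TS.GRP
import Pool.Agent.Run7.h225.TS.Ovr
import Pool.Agent.Helper386.D5V.Helper386_FF_Div

/-!
# The function field `L` over `k`

Project TS (helper875), problem MP_48b749_nt; helper225.
-/

set_option autoImplicit false
set_option linter.all false

open Polynomial IsDedekindDomain WithZero FF
open Pool.Agent.N874.PP Pool.Agent.TH115.GD Run7.h875.TS Run7.h225.TS
open scoped Classical IntermediateField

namespace Run7.h225.TS.RepB

section gen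

variable {k A K' L' : Type} [Field k] [CommRing A] [IsDedekindDomain A] [Algebra k A]
  [Field K'] [Algebra A K'] [IsFractionRing A K'] [Field L'] [Algebra K' L'] [Algebra A L']
  [IsScalarTower A K' L'] [FiniteDimensional K' L'] [Algebra.IsSeparable K' L'] [Algebra k L']
  [IsScalarTower k A L']

variable (k A K' L') in
include K' in
/-- elements regular at all the places over `A` -/
theorem reg_gen : ∃ s : Finset L', ∀ γ : L',
    (∀ P : Place k L', (∀ a : A, P.Reg (algebraMap A L' a)) → P.Reg γ) →
    γ ∈ Submodule.span A (s : Set L') := by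
  haveI : IsDedekindDomain (integralClosure A L') := integralClosure.isDedekindDomain A K' L'
  haveI : IsFractionRing (integralClosure A L') L' :=
    integralClosure.isFractionRing_of_finite_extension K' L'
  haveI : Module.Finite A (integralClosure A L') := IsIntegralClosure.finite A K' L' _
  obtain ⟨s, hs⟩ := Module.Finite.fg_top (R := A) (M := integralClosure A L')
  refine ⟨s.image (algebraMap (integralClosure A L') L'), fun γ hγ => ?_⟩
  have hint : ∀ w : HeightOneSpectrum (integralClosure A L'), w.valuation L' γ ≤ 1 := by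
    intro w
    by_cases hγ0 : γ = 0
    · rw [hγ0, map_zero]
      exact zero_le
    have h1 := hγ (placeOf (k := k) (L := L') w) (fun a => by
      rw [IsScalarTower.algebraMap_apply A (integralClosure A L') L']
      exact placeOf_reg w _)
    exact (placeOf_nonneg (k := k) w hγ0).1 ((Place.reg_iff _ hγ0).1 h1)
  obtain ⟨z, rfl⟩ := HeightOneSpectrum.mem_integers_of_valuation_le_one L' _ hint
  have hz : z ∈ Submodule.span A (s : Set (integralClosure A L')) := by
    rw [hs]
    trivial
  have h2 := Submodule.mem_map_of_mem (f := (IsScalarTower.toAlgHom A (integralClosure A L')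
    L').toLinearMap) hz
  rw [Submodule.map_span] at h2
  rw [Finset.coe_image]
  exact h2

end gen

section cub

variable {k K L : Type} [Field k] [Field K] [Algebra k[X] K] [IsFractionRing k[X] K]
  [Field L] [Algebra K L] [Algebra k[X] L] [IsScalarTower k[X] K L] {a b : k[X]} {θ : L}

/-- `L` as a `k`-algebra -/
@[reducible] noncomputable def algk (k L : Type) [Field k] [Field L] [Algebra k[X] L] :
    Algebra k L := ((algebraMap k[X] L).comp C).toAlgebra

include K in
theorem algL_inj : Function.Injective (algebraMap k[X] L) := by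
  rw [IsScalarTower.algebraMap_eq k[X] K L]
  exact (algebraMap K L).injective.comp (IsFractionRing.injective k[X] K)

theorem aeval_x [Algebra k L] (hk : ∀ c : k, algebraMap k L c = algebraMap k[X] L (C c))
    (p : k[X]) : aeval (algebraMap k[X] L X) p = algebraMap k[X] L p := by
  haveI : IsScalarTower k k[X] L := IsScalarTower.of_algebraMap_eq hk
  rw [aeval_algebraMap_apply, aeval_X_left_apply]

include K in
theorem transc [Algebra k L] (hk : ∀ c : k, algebraMap k L c = algebraMap k[X] L (C c)) :
    Transcendental k (algebraMap k[X] L X) := by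
  rw [transcendental_iff_injective]
  intro p q hpq
  rw [aeval_x hk, aeval_x hk] at hpq
  exact algL_inj (K := K) hpq

theorem isFF (h : IsCub K a b θ) [Algebra k L]
    (hk : ∀ c : k, algebraMap k L c = algebraMap k[X] L (C c)) : IsFF k L := by
  set x := algebraMap k[X] L X with hx
  have hK : ∀ r : K, algebraMap K L r ∈ k⟮x⟯ := by
    intro r
    obtain ⟨n, d, hd, rfl⟩ := IsFractionRing.div_surjective (A := k[X]) r
    have hp : ∀ p : k[X], algebraMap k[X] L p ∈ k⟮x⟯ := by
      intro p
      rw [← aeval_x hk]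
      exact IntermediateField.algebra_adjoin_le_adjoin k {x} (aeval_mem_adjoin_singleton k x)
    rw [map_div₀, ← IsScalarTower.algebraMap_apply k[X] K L,
      ← IsScalarTower.algebraMap_apply k[X] K L]
    exact div_mem (hp n) (hp d)
  refine IsFF.of_finite (transc (K := K) hk) ?_
  refine ⟨⟨{1, θ, θ ^ 2}, ?_⟩⟩
  rw [eq_top_iff]
  intro y _
  obtain ⟨r, s, t, rfl⟩ := h.gen y
  have e : algebraMap K L r + algebraMap K L s * θ + algebraMap K L t * θ ^ 2 =
      (⟨_, hK r⟩ : k⟮x⟯) • (1 : L) + (⟨_, hK s⟩ : k⟮x⟯) • θ + (⟨_, hK t⟩ : k⟮x⟯) • θ ^ 2 := by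
    simp only [IntermediateField.smul_def, smul_eq_mul, mul_one]
  rw [e]
  exact Submodule.add_mem _ (Submodule.add_mem _
    (Submodule.smul_mem _ _ (Submodule.subset_span (by simp)))
    (Submodule.smul_mem _ _ (Submodule.subset_span (by simp))))
    (Submodule.smul_mem _ _ (Submodule.subset_span (by simp)))

theorem isSep (h6 : (6 : k) ≠ 0) (h : IsCub K a b θ) : Algebra.IsSeparable K L := by
  haveI : Module.Finite K L := Module.Finite.of_basis h.basis
  have htop : IntermediateField.adjoin K ({θ} : Set L) = ⊤ := by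
    rw [eq_top_iff]
    intro y _
    obtain ⟨r, s, t, rfl⟩ := h.gen y
    have hθ : θ ∈ IntermediateField.adjoin K ({θ} : Set L) :=
      IntermediateField.mem_adjoin_simple_self K θ
    exact add_mem (add_mem (algebraMap_mem _ r) (mul_mem (algebraMap_mem _ s) hθ))
      (mul_mem (algebraMap_mem _ t) (pow_mem hθ 2))
  have hd := GRP.disc_ne h6 h
  have hsep : (minpoly K θ).Separable := by
    have h1 : minpoly K θ ∣ cubp (algebraMap k[X] K a) (algebraMap k[X] K b) :=
      minpoly.dvd K θ (aeval_cubp h)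
    have h2 : (cubp (algebraMap k[X] K a) (algebraMap k[X] K b)).Separable :=
      Ovr.cubR_sep hd
    exact Separable.of_dvd h2 h1
  have h1 : Algebra.IsSeparable K (IntermediateField.adjoin K ({θ} : Set L)) := by
    rw [IntermediateField.isSeparable_adjoin_simple_iff_isSeparable, IsSeparable]
    exact hsep
  rw [htop] at h1
  exact AlgEquiv.Algebra.isSeparable (IntermediateField.topEquiv (F := K) (E := L))

/-- the bound at infinity -/
theorem inf_bound (h6 : (6 : k) ≠ 0) (h : IsCub K a b θ) [Algebra k L]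
    (hk : ∀ c : k, algebraMap k L c = algebraMap k[X] L (C c)) :
    ∃ c : ℕ, ∀ (m : ℕ) (β : L), β ≠ 0 →
      (∀ P : Place k L, -(m : ℤ) * max (- P.ord (algebraMap k[X] L X)) 0 ≤ P.ord β) →
      ∀ i, Infv.vi k K (h.co i β) ≤ exp ((c : ℤ) + m) := by
  set x := algebraMap k[X] L X with hx
  have hx0 : x ≠ 0 := fun h0 =>
    (X_ne_zero : (X : k[X]) ≠ 0) (algL_inj (K := K) (L := L) (by rw [← hx, h0, map_zero]))
  haveI : Module.Finite K L := Module.Finite.of_basis h.basis
  haveI := isSep h6 h
  letI a1 : Algebra (AtInf K) (AtInf L) := (inferInstance : Algebra K L)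
  have hmap : ∀ p : k[X], infMap k L p = algebraMap K L (infMap k K p) := by
    intro p
    unfold infMap
    rw [coe_eval₂RingHom, coe_eval₂RingHom, hom_eval₂, map_inv₀,
      ← IsScalarTower.algebraMap_apply k[X] K L, ← RingHom.comp_assoc,
      ← IsScalarTower.algebraMap_eq k[X] K L]
  haveI a2 : IsScalarTower k[X] (AtInf K) (AtInf L) := IsScalarTower.of_algebraMap_eq hmap
  haveI a3 : FiniteDimensional (AtInf K) (AtInf L) := (inferInstance : FiniteDimensional K L)
  haveI a4 : Algebra.IsSeparable (AtInf K) (AtInf L) := (inferInstance : Algebra.IsSeparable K L)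
  letI a5 : Algebra k (AtInf L) := (inferInstance : Algebra k L)
  haveI a6 : IsScalarTower k k[X] (AtInf L) := IsScalarTower.of_algebraMap_eq fun c => by
    show algebraMap k L c = infMap k L (C c)
    rw [hk]
    unfold infMap
    rw [coe_eval₂RingHom, eval₂_C]
    rfl
  obtain ⟨s, hs⟩ := reg_gen k k[X] (AtInf K) (AtInf L)
  -- a bound for the coordinates of the generators
  obtain ⟨c, hc⟩ : ∃ c : ℕ, ∀ e ∈ s, ∀ i : Fin 3, Infv.vi k K (h.co i e) ≤ exp (c : ℤ) := by
    have h1 : ∀ (e : L) (i : Fin 3), ∃ c : ℕ, Infv.vi k K (h.co i e) ≤ exp (c : ℤ) := by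
      intro e i
      by_cases h0 : h.co i e = 0
      · exact ⟨0, by rw [h0, map_zero]; exact zero_le⟩
      · have h2 : Infv.vi k K (h.co i e) ≠ 0 := (Valuation.ne_zero_iff _).2 h0
        refine ⟨(log (Infv.vi k K (h.co i e))).toNat, ?_⟩
        rw [← log_le_iff_le_exp h2]
        exact Int.self_le_toNat _
    choose c hc using h1
    refine ⟨∑ e ∈ s, ∑ i, c e i, fun e he i => (hc e i).trans ?_⟩
    rw [exp_le_exp]
    have h2 : c e i ≤ ∑ i, c e i := Finset.single_le_sum (f := fun i => c e i)
      (fun _ _ => Nat.zero_le _) (Finset.mem_univ i)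
    have h3 : ∑ i, c e i ≤ ∑ e ∈ s, ∑ i, c e i := Finset.single_le_sum
      (f := fun e => ∑ i, c e i) (fun _ _ => Nat.zero_le _) he
    exact_mod_cast h2.trans h3
  refine ⟨c, fun m β hβ hP i => ?_⟩
  have hmem := hs ((x⁻¹) ^ m * β : L) (fun P hPr => by
    have h1 : P.Reg (infMap k L X) := hPr X
    have h2 : infMap k L X = x⁻¹ := by simp [infMap, hx]
    rw [h2] at h1
    have h3 := (P.reg_iff (inv_ne_zero hx0)).1 h1
    have h3' : 0 ≤ P.ord (x⁻¹ : L) := h3
    have h4 : P.ord (x⁻¹ : L) = - P.ord x := P.ord_inv x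
    have hne : ((x⁻¹) ^ m * β : L) ≠ 0 := mul_ne_zero (pow_ne_zero _ (inv_ne_zero hx0)) hβ
    refine (P.reg_iff hne).2 ?_
    have h5 : P.ord ((x⁻¹) ^ m * β : L) = (m : ℤ) * P.ord (x⁻¹ : L) + P.ord β := by
      have e1 : P.ord ((x⁻¹) ^ m * β : L) = P.ord ((x⁻¹ : L) ^ m) + P.ord β :=
        P.ord_mul (pow_ne_zero _ (inv_ne_zero hx0)) hβ
      have e2 : P.ord ((x⁻¹ : L) ^ m) = (m : ℤ) * P.ord (x⁻¹ : L) := P.ord_pow _ m
      rw [e1, e2]
    show 0 ≤ P.ord ((x⁻¹) ^ m * β : L)
    rw [h5, h4]
    have h6 := hP P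
    rw [h4] at h3'
    rw [max_eq_left h3'] at h6
    linarith)
  have key : ∀ (p : k[X]) (y : L), Infv.vi k K (h.co i (algebraMap K L (infMap k K p) * y)) ≤
      Infv.vi k K (h.co i y) := by
    intro p y
    rw [← Algebra.smul_def, map_smul, smul_eq_mul, map_mul, Infv.vi_infMap]
    exact mul_le_of_le_one_left' (HeightOneSpectrum.intValuation_le_one _ _)
  have hco : ∀ γ : AtInf L, γ ∈ Submodule.span k[X] (s : Set (AtInf L)) →
      Infv.vi k K (h.co i γ) ≤ exp (c : ℤ) := by
    intro γ hγ
    induction hγ using Submodule.span_induction with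
    | mem y hy => exact hc y hy i
    | zero =>
      have : h.co i (0 : L) = 0 := map_zero _
      show Infv.vi k K (h.co i (0 : L)) ≤ _
      rw [this, map_zero]
      exact zero_le
    | add y z _ _ hy hz =>
      have : h.co i ((y : L) + z) = h.co i y + h.co i z := map_add _ _ _
      show Infv.vi k K (h.co i ((y : L) + z)) ≤ _
      rw [this]
      exact Valuation.map_add_le _ hy hz
    | smul p y _ hy =>
      have e0 : (p • y : AtInf L) = algebraMap k[X] (AtInf L) p * y := Algebra.smul_def p y
      have e1 : algebraMap k[X] (AtInf L) p = algebraMap K L (infMap k K p) := hmap p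
      rw [e0, e1]
      exact (key p y).trans hy
  have h1 := hco _ hmem
  set X' := algebraMap k[X] K X with hX'
  have e1 : ((x⁻¹) ^ m * β : L) = (X'⁻¹ ^ m) • β := by
    rw [Algebra.smul_def, map_pow, map_inv₀, hX', ← IsScalarTower.algebraMap_apply k[X] K L]
  rw [e1, map_smul, smul_eq_mul, map_mul, map_pow, map_inv₀, Infv.vi_X] at h1
  have e2 : exp ((c : ℤ) + m) = exp (1 : ℤ) ^ m * exp (c : ℤ) := by
    rw [← exp_nsmul, ← exp_add]
    congr 1
    simp
    ring
  rw [e2]
  have h3 : Infv.vi k K (h.co i β) = exp (1 : ℤ) ^ m *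
      (((exp (1 : ℤ))⁻¹) ^ m * Infv.vi k K (h.co i β)) := by
    rw [← mul_assoc, ← mul_pow, mul_inv_cancel₀ exp_ne_zero, one_pow, one_mul]
  rw [h3]
  exact mul_le_mul_right h1 _

end cub

end Run7.h225.TS.RepB
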