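import Pool.Agent.Run7.h225.TS.RepA
import Pool.Agent.Run7.h225.TS.RepB

/-!
# REP: small representatives, finiteness

Project TS (helper875), problem MP_48b749_nt; helper225.
-/

set_option autoImplicit false
set_option linter.all false

open Polynomial IsDedekindDomain WithZero FF
open Pool.Agent.N874.PP Pool.Agent.TH115.GD Run7.h875.TS Run7.h225.TS
open scoped Classical

namespace Run7.h225.TS.REP

section poly

variable {k L : Type} [Field k] [Field L] [Algebra k[X] L] [Algebra k L] [PerfectField k]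
  [IsFF k L]

/-- the poles of polynomials -/
theorem ord_poly (hk : ∀ c : k, algebraMap k L c = algebraMap k[X] L (C c)) {p : k[X]}
    (hp : algebraMap k[X] L p ≠ 0) (P : Place k L) :
    -(p.natDegree : ℤ) * max (- P.ord (algebraMap k[X] L X)) 0 ≤ P.ord (algebraMap k[X] L p) := by
  set x := algebraMap k[X] L X with hx
  have hmem : algebraMap k[X] L p ∈ Pool.Agent.H525R3.FFp.LL
      (p.natDegree • Pool.Agent.H525R3.FFp.polar (k := k) x) := by
    rw [← RepB.aeval_x hk, aeval_eq_sum_range]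
    refine Submodule.sum_mem _ fun i hi => Submodule.smul_mem _ _ ?_
    rw [Finset.mem_range] at hi
    right
    intro Q
    rw [Finsupp.smul_apply, Pool.Agent.H525R3.FFp.polar_apply, Q.ord_pow, nsmul_eq_mul]
    have hi1 : ((i : ℕ) : ℤ) ≤ p.natDegree := by omega
    have hi0 : (0 : ℤ) ≤ ((i : ℕ) : ℤ) := by positivity
    rcases le_total (Q.ord x) 0 with h | h
    · rw [max_eq_left (by omega)]
      nlinarith
    · rw [max_eq_right (by omega)]
      nlinarith
  have h1 := hmem.resolve_left hp P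
  rw [Finsupp.smul_apply, Pool.Agent.H525R3.FFp.polar_apply, nsmul_eq_mul] at h1
  linarith

end poly

section fin

theorem fin_deg {k : Type} [Field k] [Finite k] (N : ℕ) : {p : k[X] | p.natDegree ≤ N}.Finite := by
  refine Set.Finite.subset (s := (fun c : Fin (N + 1) → k =>
    ∑ i : Fin (N + 1), C (c i) * X ^ (i : ℕ)) '' Set.univ) (Set.finite_univ.image _) ?_
  rintro Q hQ
  refine ⟨fun i => Q.coeff i, trivial, ?_⟩
  simp only
  rw [Finset.sum_range (f := fun i => C (Q.coeff i) * X ^ i) |>.symm]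
  exact (Q.as_sum_range_C_mul_X_pow' (n := N + 1) (by
    have : Q.natDegree ≤ N := hQ
    omega)).symm

end fin

section cub

variable {k K L O : Type} [Field k] [Finite k] [Field K] [Algebra k[X] K]
  [IsFractionRing k[X] K]
  [Field L] [Algebra K L] [Algebra k[X] L] [IsScalarTower k[X] K L] [CommRing O]
  [IsDedekindDomain O] [Algebra O L] [IsFractionRing O L] [Algebra k[X] O]
  [IsScalarTower k[X] O L] [IsIntegralClosure O k[X] L] {a b : k[X]} {θ : L}

include L in
/-- the prime below -/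
theorem below (𝔓 : HeightOneSpectrum O) : ∃ p : k[X], p.Monic ∧ Irreducible p ∧ Ov p 𝔓 := by
  set I := 𝔓.asIdeal.comap (algebraMap k[X] O) with hI
  haveI hp : I.IsPrime := Ideal.IsPrime.comap _
  have h0 : I ≠ ⊥ := by
    obtain ⟨z, hz, hz0⟩ := (Submodule.ne_bot_iff _).1 𝔓.ne_bot
    exact Ideal.comap_ne_bot_of_integral_mem hz0 hz (IsIntegralClosure.isIntegral k[X] L z)
  obtain ⟨g, hg⟩ := (IsPrincipalIdealRing.principal I).principal
  have hg' : I = Ideal.span {g} := hg
  have hg0 : g ≠ 0 := by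
    rintro rfl
    exact h0 (by rw [hg', Ideal.span_singleton_eq_bot])
  have hgp : Prime g := (Ideal.span_singleton_prime hg0).1 (hg' ▸ hp)
  have hl : g.leadingCoeff ≠ 0 := leadingCoeff_ne_zero.2 hg0
  refine ⟨g * C g.leadingCoeff⁻¹, monic_mul_leadingCoeff_inv hg0, ?_, ?_⟩
  · have hu : IsUnit (C g.leadingCoeff⁻¹ : k[X]) := isUnit_C.2 (isUnit_iff_ne_zero.2 (inv_ne_zero hl))
    exact (irreducible_mul_isUnit hu).2 hgp.irreducible
  · have h1 : g ∈ I := by
      rw [hg']
      exact Ideal.mem_span_singleton_self g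
    show algebraMap k[X] O (g * C g.leadingCoeff⁻¹) ∈ 𝔓.asIdeal
    rw [map_mul]
    exact Ideal.mul_mem_right _ _ h1

theorem rep1 (h6 : (6 : k) ≠ 0) (h : IsCub K a b θ) :
    ∃ C₀ : ℕ, ∀ (S : Finset k[X]) (u : k[X] → k[X]), GoodT a b S u → ∀ α : L, SelC h O S u α →
    ∃ (r : L) (z : Fin 3 → k[X]), r ≠ 0 ∧ Crd θ z (α * r ^ 2) ∧
      ∀ i, (z i).natDegree ≤ C₀ * (1 + ∑ P ∈ S, P.natDegree) := by
  letI : Algebra k L := RepB.algk k L
  have hk : ∀ c : k, algebraMap k L c = algebraMap k[X] L (C c) := fun _ => rfl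
  haveI : IsFF k L := RepB.isFF h hk
  letI : Algebra k O := ((algebraMap k[X] O).comp C).toAlgebra
  haveI : IsScalarTower k O L := IsScalarTower.of_algebraMap_eq fun c => by
    rw [hk, IsScalarTower.algebraMap_apply k[X] O L]
    rfl
  have hinj := RepB.algL_inj (k := k) (K := K) (L := L)
  have htr := RepB.transc (k := k) (K := K) (L := L) hk
  set x := algebraMap k[X] L X with hx
  obtain ⟨g, hg⟩ := RepA.small_rep (k := k) htr
  obtain ⟨c, hc⟩ := RepB.inf_bound h6 h hk
  rw [← hx] at hc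
  set D := dsc a b with hD
  have hdK := GRP.disc_ne h6 h
  have hD0 : D ≠ 0 := by
    intro h0
    apply hdK
    have : algebraMap k[X] K D = 0 := by rw [h0, map_zero]
    rw [hD] at this
    unfold dsc at this
    rwa [map_add, map_mul, map_mul, map_pow, map_pow, map_ofNat, map_ofNat] at this
  have hne : ∀ p : k[X], p ≠ 0 → algebraMap k[X] L p ≠ 0 := fun p hp h0 =>
    hp (hinj (by rw [h0, map_zero]))
  refine ⟨4 * D.natDegree + c + 2 * g + 4, fun S u hS α hα => ?_⟩
  set M : k[X] := D * ∏ P ∈ S, P with hM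
  have hprod : (∏ P ∈ S, P) ≠ 0 := Finset.prod_ne_zero_iff.2 fun P hP => (hS.irr P hP).ne_zero
  have hM0 : M ≠ 0 := mul_ne_zero hD0 hprod
  have hMdeg : M.natDegree = D.natDegree + ∑ P ∈ S, P.natDegree := by
    rw [hM, natDegree_mul hD0 hprod, natDegree_prod _ _ fun P hP => (hS.irr P hP).ne_zero]
  obtain ⟨r, hr0, hr⟩ := hg M.natDegree (algebraMap k[X] L M) (hne M hM0)
    (fun P => ord_poly hk (hne M hM0) P) α hα.ne (by
      intro P hodd
      by_contra hcon
      push Not at hcon
      obtain ⟨hx0, hMP⟩ := hcon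
      have hregX : ∀ p : k[X], P.Reg (algebraMap k[X] L p) := by
        intro p
        by_cases hp : p = 0
        · rw [hp, map_zero]
          exact Or.inl rfl
        · refine Or.inr ?_
          have := ord_poly hk (hne p hp) P
          rw [← hx, max_eq_right (by omega), mul_zero] at this
          exact this
      have hregO : ∀ z : O, P.Reg (algebraMap O L z) := fun z =>
        P.reg_of_isIntegral (A := k[X]) hregX (Pool.Agent.N862.PP.isInt (L := L) z)
      obtain ⟨𝔓, rfl⟩ := exists_placeOf_eq P hregO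
      obtain ⟨p, hpm, hpi, hpov⟩ := below (k := k) (L := L) 𝔓
      have hpM : ¬ p ∣ M := by
        rintro ⟨q, hq⟩
        have h1 : algebraMap k[X] L M ≠ 0 := hne M hM0
        have h2 : 𝔓.valuation L (algebraMap k[X] L M) < 1 := by
          rw [IsScalarTower.algebraMap_apply k[X] O L]
          refine (𝔓.valuation_lt_one_iff_mem _).2 ?_
          rw [hq, map_mul]
          exact Ideal.mul_mem_right _ _ hpov
        have h3 := (placeOf_pos (k := k) 𝔓 h1).2 h2
        omega
      have hpS : p ∉ S := fun hpS => hpM ((Finset.dvd_prod_of_mem (fun P => P) hpS).trans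
        (Dvd.intro_left D rfl))
      have hpD : ¬ p ^ 2 ∣ dsc a b := fun h0 => hpM (((dvd_pow_self p two_ne_zero).trans h0).trans
        (Dvd.intro _ rfl))
      obtain ⟨y, hy⟩ := hα.ev p hpm hpi hpS hpD 𝔓 hpov
      have hvα : 𝔓.valuation L α ≠ 0 := (Valuation.ne_zero_iff _).2 hα.ne
      have hvy : 𝔓.valuation L y ≠ 0 := by
        intro h0
        rw [h0] at hy
        exact hvα (by rw [hy]; simp)
      have h4 : (placeOf (k := k) (L := L) 𝔓).ord α = -(2 * log (𝔓.valuation L y)) := by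
        rw [placeOf_ord, hy, pow_two, log_mul hvy hvy]
        ring
      rw [h4] at hodd
      rcases hodd with ⟨t, ht⟩
      omega)
  set m : ℕ := 2 * (M.natDegree + 1 + g) with hm
  set β := α * r ^ 2 with hβ
  have hβ0 : β ≠ 0 := mul_ne_zero hα.ne (pow_ne_zero 2 hr0)
  have hr' : ∀ P : Place k L, -(m : ℤ) * max (- P.ord x) 0 ≤ P.ord β := by
    intro P
    have := hr P
    rw [hm]
    push_cast at this ⊢
    exact this
  have hint : ∀ 𝔓 : HeightOneSpectrum O, 𝔓.valuation L β ≤ 1 := by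
    intro 𝔓
    refine (placeOf_nonneg (k := k) 𝔓 hβ0).1 ?_
    have h1 := hr' (placeOf 𝔓)
    have h2 : 0 ≤ (placeOf (k := k) (L := L) 𝔓).ord x := by
      rw [placeOf_nonneg 𝔓 (hne X X_ne_zero), IsScalarTower.algebraMap_apply k[X] O L]
      exact 𝔓.valuation_le_one _
    rw [max_eq_right (by omega), mul_zero] at h1
    exact h1
  obtain ⟨z, hz⟩ := HeightOneSpectrum.mem_integers_of_valuation_le_one L _ hint
  have hβint : IsIntegral k[X] β := by
    rw [← hz]
    exact Pool.Agent.N862.PP.isInt (L := L) z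
  obtain ⟨v, hv⟩ := Ovr.dsc_crd h hβint
  rw [← hD] at hv
  have hvdeg : ∀ i, (v i).natDegree ≤ D.natDegree + c + m := by
    intro i
    by_cases hvi : v i = 0
    · rw [hvi, natDegree_zero]
      exact Nat.zero_le _
    have h1 : h.co i (algebraMap k[X] L D * β) = algebraMap k[X] K (v i) :=
      Pool.Agent.N862.PP.repr_crd h hv i
    have h2 : h.co i (algebraMap k[X] L D * β) = algebraMap k[X] K D * h.co i β := by
      rw [IsScalarTower.algebraMap_apply k[X] K L, ← Algebra.smul_def, map_smul, smul_eq_mul]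
    have h3 := hc m β hβ0 hr' i
    have h4 : Infv.vi k K (algebraMap k[X] K (v i)) ≤ exp (D.natDegree : ℤ) * exp ((c : ℤ) + m) := by
      rw [← h1, h2, map_mul, Infv.vi_poly hD0]
      exact mul_le_mul_right h3 _
    rw [Infv.vi_poly hvi, ← exp_add, exp_le_exp] at h4
    omega
  refine ⟨r * algebraMap k[X] L D, fun i => D * v i, mul_ne_zero hr0 (hne D hD0), ?_, ?_⟩
  · have e : α * (r * algebraMap k[X] L D) ^ 2 = algebraMap k[X] L D * (algebraMap k[X] L D * β) := by
      rw [hβ]
      ring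
    rw [e]
    exact Pool.Agent.N862.PP.crd_smul D hv
  · intro i
    have h1 : (D * v i).natDegree ≤ D.natDegree + (v i).natDegree := natDegree_mul_le
    have h2 := hvdeg i
    rw [hm, hMdeg] at h2
    set s := ∑ P ∈ S, P.natDegree with hs
    have h3 : (D * v i).natDegree ≤ D.natDegree + (D.natDegree + c +
      2 * (D.natDegree + s + 1 + g)) := by omega
    refine h3.trans ?_
    nlinarith [Nat.zero_le (D.natDegree * s), Nat.zero_le (c * s), Nat.zero_le (g * s)]

theorem rep : Run7.h875.TS.S_REP := by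
  intro k K L O _ _ _ _ _ _ _ _ _ _ _ _ _ _ _ _ a b θ h6 h
  have hrep1 := rep1 (O := O) h6 h
  refine ⟨hrep1, fun S u hS hG => ?_⟩
  obtain ⟨C₀, hC⟩ := hrep1
  set N := C₀ * (1 + ∑ P ∈ S, P.natDegree) with hN
  have hfin : {z : Fin 3 → k[X] | ∀ i, (z i).natDegree ≤ N}.Finite := by
    have := Set.Finite.pi' (ι := Fin 3) (t := fun _ => {p : k[X] | p.natDegree ≤ N})
      (fun _ => fin_deg N)
    exact this
  set G := SelG h O S u with hGdef
  have hex : ∀ α : Lˣ, ∃ (z : Fin 3 → k[X]), α ∈ G → (∀ i, (z i).natDegree ≤ N) ∧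
      ∃ r : L, r ≠ 0 ∧ Crd θ z ((α : L) * r ^ 2) := by
    intro α
    by_cases hα : α ∈ G
    · obtain ⟨r, z, hr, hz, hd⟩ := hC S u hS α ((hG α).1 hα)
      exact ⟨z, fun _ => ⟨hd, r, hr, hz⟩⟩
    · exact ⟨0, fun h0 => absurd h0 hα⟩
  choose f hf using hex
  haveI : Finite {z : Fin 3 → k[X] | ∀ i, (z i).natDegree ≤ N} := hfin.to_subtype
  have hfinq : Finite (G ⧸ (sqL L).subgroupOf G) := by
    refine Finite.of_injective (fun q : G ⧸ (sqL L).subgroupOf G =>
      (⟨f ((Quotient.out q : G) : Lˣ), (hf _ (Quotient.out q : G).2).1⟩ :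
        {z : Fin 3 → k[X] | ∀ i, (z i).natDegree ≤ N})) ?_
    intro q q' hqq
    have hqq' := congrArg Subtype.val hqq
    simp only at hqq'
    rw [← Quotient.out_eq q, ← Quotient.out_eq q']
    set y : G := Quotient.out q with hy
    set y' : G := Quotient.out q' with hy'
    obtain ⟨-, r, hr, hcr⟩ := hf _ y.2
    obtain ⟨-, s, hs, hcs⟩ := hf _ y'.2
    rw [hqq'] at hcr
    have e : ((y : Lˣ) : L) * r ^ 2 = ((y' : Lˣ) : L) * s ^ 2 := by
      have e1 : ((y : Lˣ) : L) * r ^ 2 = _ := hcr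
      have e2 : ((y' : Lˣ) : L) * s ^ 2 = _ := hcs
      rw [e1, e2]
    rw [QuotientGroup.eq, Subgroup.mem_subgroupOf]
    refine ⟨Units.mk0 (r / s) (div_ne_zero hr hs), ?_⟩
    apply Units.ext
    show (r / s) ^ 2 = (((y : Lˣ)⁻¹ * (y' : Lˣ) : Lˣ) : L)
    rw [Units.val_mul, Units.val_inv_eq_inv_val]
    have hy0 : ((y : Lˣ) : L) ≠ 0 := Units.ne_zero _
    field_simp
    linear_combination e
  unfold sz
  rw [Subgroup.relIndex, Subgroup.index]
  exact Nat.card_ne_zero.2 ⟨⟨1⟩, hfinq⟩

end cub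

end Run7.h225.TS.REP
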