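import Pool.Agent.H525R3.FFp.Riemann

/-!
# Small representatives modulo squares in a function field

Project TS (helper875), problem MP_48b749_nt; helper225.
-/

set_option autoImplicit false
set_option linter.all false

open Module FF Pool.Agent.H525R3.FFp

namespace Run7.h225.TS.RepA

variable {k K : Type} [Field k] [Field K] [Algebra k K] [PerfectField k] [IsFF k K]

/-- a transcendental element has poles -/
theorem ddeg_pos {x : K} (hx : Transcendental k x) : 1 ≤ ddeg (polar (k := k) x) := by
  have hx0 : x ≠ 0 := by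
    rintro rfl
    exact hx isAlgebraic_zero
  have h0 : 0 ≤ ddeg (polar (k := k) x) := ddeg_nonneg (polar_nonneg x)
  by_contra hcon
  have hV : ddeg (polar (k := k) x) = 0 := by omega
  set n := (ell (0 : Place k K →₀ ℤ)).toNat with hn
  have h1 : ell (n • polar (k := k) x) ≤ ell (0 : Place k K →₀ ℤ) := by
    have := ell_le (D := (0 : Place k K →₀ ℤ)) (E := n • polar (k := k) x)
      (nsmul_nonneg (polar_nonneg x) n)
    rw [ddeg_nsmul, hV, ddeg_zero, mul_zero, sub_zero, add_zero] at this
    exact this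
  have hpow : LinearIndependent k (fun j : Fin (n + 1) => x ^ (j : ℕ)) := by
    have h1 := (Polynomial.basisMonomials k).linearIndependent
    have h2 := h1.map' (Polynomial.aeval x).toLinearMap (by
      rw [LinearMap.ker_eq_bot]
      exact transcendental_iff_injective.1 hx)
    have h3 : (fun j : Fin (n + 1) => x ^ (j : ℕ)) =
        (⇑(Polynomial.aeval x).toLinearMap ∘ ⇑(Polynomial.basisMonomials k)) ∘
          (fun j : Fin (n + 1) => (j : ℕ)) := by
      funext j
      simp
    rw [h3]
    exact h2.comp _ Fin.val_injective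
  have hmem : ∀ j : Fin (n + 1), x ^ (j : ℕ) ∈ LL (n • polar (k := k) x) := by
    intro j
    right
    intro P
    rw [Finsupp.smul_apply, polar_apply, P.ord_pow, nsmul_eq_mul]
    have hj : ((j : ℕ) : ℤ) ≤ n := by
      have := j.2
      omega
    have hj0 : (0 : ℤ) ≤ ((j : ℕ) : ℤ) := by positivity
    rcases le_total (P.ord x) 0 with h | h
    · rw [max_eq_left (by omega)]
      nlinarith
    · rw [max_eq_right (by omega)]
      nlinarith
  have h3 : LinearIndependent k (fun j : Fin (n + 1) =>
      (⟨x ^ (j : ℕ), hmem j⟩ : LL (n • polar (k := k) x))) := by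
    apply LinearIndependent.of_comp (LL (n • polar (k := k) x)).subtype
    exact hpow
  have h4 := h3.fintype_card_le_finrank
  rw [Fintype.card_fin] at h4
  have h5 : ((n + 1 : ℕ) : ℤ) ≤ ell (n • polar (k := k) x) := by
    unfold ell
    exact_mod_cast h4
  have h6 := ell_nonneg (0 : Place k K →₀ ℤ)
  push_cast at h5
  omega

theorem small_rep {x : K} (hx : Transcendental k x) : ∃ g : ℕ, ∀ (m : ℕ) (M : K), M ≠ 0 →
    (∀ P : Place k K, -(m : ℤ) * max (- P.ord x) 0 ≤ P.ord M) → ∀ α : K, α ≠ 0 →
    (∀ P : Place k K, Odd (P.ord α) → P.ord x < 0 ∨ 0 < P.ord M) →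
    ∃ r : K, r ≠ 0 ∧ ∀ P : Place k K,
      -(2 * (m + 1 + g : ℕ) : ℤ) * max (- P.ord x) 0 ≤ P.ord (α * r ^ 2) := by
  obtain ⟨γ, N, hγ, -⟩ := riemann k K
  have hV := ddeg_pos (k := k) hx
  set V := polar (k := k) x with hVdef
  refine ⟨γ.toNat + 1, fun m M hM hMp α hα hodd => ?_⟩
  set A : Place k K →₀ ℤ := (divisor k α).mapRange (fun n => n / 2) (by simp) with hA
  have hAP : ∀ P : Place k K, A P = P.ord α / 2 := fun P => by
    rw [hA, Finsupp.mapRange_apply, divisor_apply]
  set n : ℕ := m + 1 + (γ.toNat + 1) with hn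
  -- the degree of `A`
  have hB : divisor k α ≤ (2 : ℕ) • A + (divisor k M + (m • V) + V) := by
    intro P
    simp only [Finsupp.add_apply, Finsupp.smul_apply, divisor_apply, hAP, nsmul_eq_mul,
      hVdef, polar_apply]
    have h1 := hMp P
    have h2 : 0 ≤ max (-P.ord x) 0 := le_max_right _ _
    have h3 := Int.emod_add_mul_ediv (P.ord α) 2
    rcases Int.emod_two_eq_zero_or_one (P.ord α) with h4 | h4
    · push_cast
      nlinarith
    · have h5 := hodd P (Int.odd_iff.2 h4)
      rcases h5 with h5 | h5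
      · have h6 : 1 ≤ max (-P.ord x) 0 := le_trans (by omega) (le_max_left _ _)
        push_cast
        nlinarith
      · have h6 : 0 ≤ (m : ℤ) * max (-P.ord x) 0 := by positivity
        push_cast
        nlinarith
  have hdeg := ddeg_mono hB
  rw [ddeg_divisor, ddeg_add, ddeg_add, ddeg_add, ddeg_divisor, ddeg_nsmul, ddeg_nsmul] at hdeg
  have hell : 0 < ell (A + n • V) := by
    have h1 := hγ (A + n • V)
    rw [ddeg_add, ddeg_nsmul] at h1
    have h2 : γ ≤ γ.toNat := Int.self_le_toNat γ
    have h3 : (0 : ℤ) ≤ γ.toNat := by positivity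
    have h4 : ((n : ℕ) : ℤ) = m + 1 + (γ.toNat + 1) := by rw [hn]; push_cast; ring
    rw [h4] at h1
    have h5 : (0 : ℤ) ≤ (m : ℤ) := by positivity
    push_cast at hdeg
    nlinarith
  obtain ⟨r, hr, hr0⟩ := exists_ne_zero_of_ell_pos hell
  refine ⟨r, hr0, fun P => ?_⟩
  have h1 := hr.resolve_left hr0 P
  simp only [Finsupp.add_apply, Finsupp.smul_apply, hAP, nsmul_eq_mul, hVdef, polar_apply] at h1
  rw [P.ord_mul hα (pow_ne_zero 2 hr0), P.ord_pow]
  have h3 := Int.emod_add_mul_ediv (P.ord α) 2
  have h4 := Int.emod_nonneg (P.ord α) (b := 2) (by norm_num)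
  have h7 : ((n : ℕ) : ℤ) = m + 1 + (γ.toNat + 1) := by rw [hn]; push_cast; ring
  rw [h7] at h1
  push_cast
  rw [h7]
  nlinarith

end Run7.h225.TS.RepA
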