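import Pool.Agent.Run7.h225.TS.Ovr3
import Pool.Agent.Run7.h225.TS.GRP
import Pool.Agent.Run7.h225.TS.ISO

/-!
# STEP: the effect of one more prime

Project TS (helper875), problem MP_48b749_nt; helper225.
-/

set_option autoImplicit false
set_option linter.all false

open Polynomial IsDedekindDomain WithZero
open Pool.Agent.N874.PP Pool.Agent.TH115.GD Run7.h875.TS Run7.h225.TS Run7.h225.TS.Ovr
open Run7.h225.TS.GRP
open scoped Classical

namespace Run7.h225.TS.STEP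

section group

variable {A : Type} [CommGroup A]

/-- classes -/
theorem relIndex_le (T G : Subgroup A) {ι : Type} [Fintype ι] (f : A → Option ι)
    (h0 : ∀ x ∈ G, f x = none → x ∈ T)
    (h1 : ∀ x ∈ G, ∀ y ∈ G, ∀ i, f x = some i → f y = some i → x * y ∈ T)
    (h2 : ∀ x ∈ G, x ^ 2 ∈ T) : T.relIndex G ≤ Fintype.card ι + 1 := by
  rw [Subgroup.relIndex, Subgroup.index, ← Fintype.card_option]
  rw [← Nat.card_eq_fintype_card]
  refine Nat.card_le_card_of_injective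
    (fun q : G ⧸ T.subgroupOf G => f ((Quotient.out q : G) : A)) ?_
  intro q q' hqq
  simp only at hqq
  rw [← Quotient.out_eq q, ← Quotient.out_eq q']
  set x : G := Quotient.out q with hx
  set y : G := Quotient.out q' with hy
  rw [QuotientGroup.eq, Subgroup.mem_subgroupOf]
  show ((x : A))⁻¹ * (y : A) ∈ T
  rcases hfx : f (x : A) with _ | i
  · have hfy : f (y : A) = none := by rw [← hqq, hfx]
    exact T.mul_mem (T.inv_mem (h0 _ x.2 hfx)) (h0 _ y.2 hfy)
  · have hfy : f (y : A) = some i := by rw [← hqq, hfx]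
    have h3 := h1 _ x.2 _ y.2 i hfx hfy
    have h4 := T.mul_mem (T.inv_mem (h2 _ x.2)) h3
    have e : ((x : A) ^ 2)⁻¹ * ((x : A) * y) = (x : A)⁻¹ * y := by
      rw [pow_two]
      group
    rwa [e] at h4

theorem card_chain (H T G G' : Subgroup A) (hHT : H ≤ T) (hG' : G' ⊓ T ≤ G ⊓ T)
    (hG : H.relIndex (G ⊓ T) ≠ 0) {n : ℕ} (hn : T.relIndex G' ≤ n) :
    H.relIndex G' ≤ n * H.relIndex (G ⊓ T) := by
  have h1 := Subgroup.relIndex_inf_mul_relIndex H T G'
  rw [inf_eq_left.2 hHT] at h1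
  rw [← h1, mul_comm]
  refine Nat.mul_le_mul hn ?_
  rw [inf_comm]
  exact Subgroup.relIndex_le_of_le_right hG' hG

end group

section main

variable {k K L O : Type} [Field k] [Finite k] [Field K] [Algebra k[X] K]
  [IsFractionRing k[X] K]
  [Field L] [Algebra K L] [Algebra k[X] L] [IsScalarTower k[X] K L] [CommRing O]
  [IsDedekindDomain O] [Algebra O L] [IsFractionRing O L] [Algebra k[X] O]
  [IsScalarTower k[X] O L] [IsIntegralClosure O k[X] L] {a b : k[X]} {θ : L}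

/-- the conditions away from `Q` -/
structure SelQ (h : IsCub K a b θ) (O : Type) [CommRing O] [IsDedekindDomain O] [Algebra O L]
    [IsFractionRing O L] [Algebra k[X] O] (S : Finset k[X]) (u : k[X] → k[X]) (Q : k[X]) (α : L) :
    Prop where
  ne : α ≠ 0
  nsq : IsSquare (Algebra.norm K α)
  ev : ∀ P : k[X], P.Monic → Irreducible P → P ∉ S → P ≠ Q → ¬ P ^ 2 ∣ dsc a b →
    ∀ 𝔓 : HeightOneSpectrum O, Ov P 𝔓 → Ev 𝔓 α
  bad : ∀ (P : k[X]) (v : HeightOneSpectrum k[X]), Irreducible P → v.asIdeal = Ideal.span {P} →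
    P ^ 2 ∣ dsc a b → LocAt h (v.adicCompletion K) 1 α
  tw : ∀ P ∈ S, ∀ v : HeightOneSpectrum k[X], v.asIdeal = Ideal.span {P} →
    LocAt h (v.adicCompletion K)
      (algebraMap K (v.adicCompletion K) (algebraMap k[X] K (P * u P))) α
  inf : LocAt h (CompInf k K) 1 α

theorem selQ_of {h : IsCub K a b θ} {S : Finset k[X]} {u : k[X] → k[X]} (Q : k[X]) {α : L}
    (hα : SelC h O S u α) : SelQ h O S u Q α :=
  ⟨hα.ne, hα.nsq, fun P h1 h2 h3 _ h4 => hα.ev P h1 h2 h3 h4, hα.bad, hα.tw, hα.inf⟩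

theorem selQ_of' {h : IsCub K a b θ} {S : Finset k[X]} {u : k[X] → k[X]} {Q w : k[X]}
    (hQ : Q ∉ S) {α : L}
    (hα : SelC h O (insert Q S) (Function.update u Q w) α) : SelQ h O S u Q α := by
  refine ⟨hα.ne, hα.nsq, fun P h1 h2 h3 h4 h5 => hα.ev P h1 h2 ?_ h5, hα.bad, ?_, hα.inf⟩
  · rw [Finset.mem_insert, not_or]
    exact ⟨h4, h3⟩
  · intro P hP v hv
    have hne : P ≠ Q := fun h0 => hQ (h0 ▸ hP)
    have := hα.tw P (Finset.mem_insert_of_mem hP) v hv
    rwa [Function.update_of_ne hne] at this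

theorem selQ_mul (h6 : (6 : k) ≠ 0) {h : IsCub K a b θ} {S : Finset k[X]} {u : k[X] → k[X]}
    (hS : GoodT a b S u) {Q : k[X]} {α β : L} (h1 : SelQ h O S u Q α) (h2 : SelQ h O S u Q β) :
    SelQ h O S u Q (α * β) := by
  have hI := INFP.infp k K (two_ne h6)
  refine ⟨mul_ne_zero h1.ne h2.ne, ?_, ?_, ?_, ?_, ?_⟩
  · rw [map_mul]
    exact h1.nsq.mul h2.nsq
  · intro P hPm hPi hPS hPQ hP2 𝔓 hO
    exact GRP.ev_mul (h1.ev P hPm hPi hPS hPQ hP2 𝔓 hO) (h2.ev P hPm hPi hPS hPQ hP2 𝔓 hO)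
  · intro P v hP hv hP2
    exact locAt_mul h6 h _ one_ne_zero (fun a b => hI.1 v a b 1 one_ne_zero) h1.ne h2.ne
      (h1.bad P v hP hv hP2) (h2.bad P v hP hv hP2)
  · intro P hP v hv
    have hne : algebraMap K (v.adicCompletion K) (algebraMap k[X] K (P * u P)) ≠ 0 := by
      rw [Ne, map_eq_zero, map_eq_zero_iff _ (IsFractionRing.injective k[X] K), mul_eq_zero]
      rintro (h0 | h0)
      · exact (hS.irr P hP).ne_zero h0
      · exact hS.nu P hP (h0 ▸ dvd_zero P)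
    exact locAt_mul h6 h _ hne (fun a b => hI.1 v a b _ hne) h1.ne h2.ne
      (h1.tw P hP v hv) (h2.tw P hP v hv)
  · exact locAt_mul h6 h _ one_ne_zero (fun a b => hI.2 a b 1 one_ne_zero) h1.ne h2.ne
      h1.inf h2.inf

/-- the place of an irreducible polynomial -/
noncomputable def plP {P : k[X]} (hP : Irreducible P) : HeightOneSpectrum k[X] where
  asIdeal := Ideal.span {P}
  isPrime := (Ideal.span_singleton_prime hP.ne_zero).2 hP.prime
  ne_bot := by
    rw [Ne, Ideal.span_singleton_eq_bot]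
    exact hP.ne_zero

/-- isotropy at `Q` -/
theorem iso_Q (hU : S_UNI) (hR : S_REC2) (h6 : (6 : k) ≠ 0) {h : IsCub K a b θ}
    {S : Finset k[X]} {u : k[X] → k[X]} (hS : GoodT a b S u) {Q : k[X]} (hQm : Q.Monic)
    (hQ : Irreducible Q) {α : L}
    (hα : SelQ h O S u Q α) (v : HeightOneSpectrum k[X]) (hv : v.asIdeal = Ideal.span {Q}) :
    IsoAt h v α := by
  have hI := ISO.iso
  have hinf : IsoF h (CompInf k K) α := hI k K L a b θ h6 h _ 1 α hα.ne hα.inf
  obtain ⟨hfin, hev⟩ := hR k K L a b θ h6 h α hα.ne hα.nsq hinf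
  set A := {P : k[X] | P.Monic ∧ Irreducible P ∧
    ∀ v : HeightOneSpectrum k[X], v.asIdeal = Ideal.span {P} → ¬ IsoAt h v α} with hA
  have hsub : A ⊆ {Q} := by
    rintro P ⟨hPm, hPi, hP⟩
    by_contra hne
    rw [Set.mem_singleton_iff] at hne
    have hno := hP (plP hPi) rfl
    apply hno
    by_cases hPS : P ∈ S
    · rw [isoAt_eq]
      exact hI k K L a b θ h6 h _ _ α hα.ne (hα.tw P hPS (plP hPi) rfl)
    · by_cases hP2 : P ^ 2 ∣ dsc a b
      · rw [isoAt_eq]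
        exact hI k K L a b θ h6 h _ 1 α hα.ne (hα.bad P (plP hPi) hPi rfl hP2)
      · exact hU k K L O a b θ h6 h P (plP hPi) hPi rfl hP2 α hα.ne
          (hα.ev P hPm hPi hPS hne hP2)
  have hle : A.ncard ≤ 1 := by
    have := Set.ncard_le_ncard hsub (Set.finite_singleton Q)
    rwa [Set.ncard_singleton] at this
  have h0 : A.ncard = 0 := by
    rcases hev with ⟨m, hm⟩
    omega
  have hempty : A = ∅ := (Set.ncard_eq_zero hfin).1 h0
  by_contra hno
  have hQA : Q ∈ A := by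
    refine ⟨hQm, hQ, fun v' hv' => ?_⟩
    have : v' = v := HeightOneSpectrum.ext (hv'.trans hv.symm)
    rw [this]
    exact hno
  rw [hempty] at hQA
  exact hQA

theorem sel_of_T {h : IsCub K a b θ} {S : Finset k[X]} {u : k[X] → k[X]} {Q w : k[X]}
    (hQ : Q ∉ S) {α : L}
    (hα : SelC h O (insert Q S) (Function.update u Q w) α) (hT : Tr O Q α) :
    SelC h O S u α := by
  have h1 := selQ_of' hQ hα
  refine ⟨h1.ne, h1.nsq, fun P hPm hPi hPS hP2 𝔓 h𝔓 => ?_, h1.bad, h1.tw, h1.inf⟩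
  by_cases hPQ : P = Q
  · subst hPQ
    exact Pool.Agent.N539.PP.Sq1.ev 𝔓 (hT 𝔓 h𝔓)
  · exact h1.ev P hPm hPi hPS hPQ hP2 𝔓 h𝔓

/-- the classes of points at `Q` -/
theorem cls (hL : S_L2) (h6 : (6 : k) ≠ 0) {h : IsCub K a b θ} {S : Finset k[X]}
    {u : k[X] → k[X]} {Q w : k[X]} (hQ : Irreducible Q) (hd : ¬ Q ∣ dsc a b) (hw : ¬ Q ∣ w)
    {α : L} (hα : SelC h O (insert Q S) (Function.update u Q w) α) :
    Tr O Q α ∨ ∃ c : k[X], RtM a b Q c ∧ ∀ 𝔓 : HeightOneSpectrum O, Ov Q 𝔓 →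
      𝔓.valuation L (θ - algebraMap k[X] L c) = 1 →
      Sq1 𝔓 (α * (algebraMap k[X] L (Q * w) * (algebraMap k[X] L c - θ))) := by
  have h1 := hα.tw Q (Finset.mem_insert_self Q S) (plP hQ) rfl
  rw [Function.update_self] at h1
  exact hL k K L O a b θ h6 h Q (plP hQ) hQ rfl hd w hw α hα.ne h1

include K in
theorem algL_ne {c : k[X]} (hc : c ≠ 0) : algebraMap k[X] L c ≠ 0 := fun h0 =>
  hc (Pool.Agent.N862.PP.algL_inj (K := K) (by rw [h0, map_zero]))

theorem val_sub_c (h : IsCub K a b θ) {Q : k[X]} (hQ : Irreducible Q) {𝔓 : HeightOneSpectrum O}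
    (hov : Ov Q 𝔓) {c c' : k[X]} (hcc : Q ∣ c' - c)
    (hc : 𝔓.valuation L (θ - algebraMap k[X] L c) = 1) :
    𝔓.valuation L (θ - algebraMap k[X] L c') = 1 := by
  have h1 := (val_poly_lt (L := L) hQ hov _).2 hcc
  have e : θ - algebraMap k[X] L c' = (θ - algebraMap k[X] L c) - algebraMap k[X] L (c' - c) := by
    rw [map_sub]
    ring
  rw [e, ← hc]
  exact Valuation.map_sub_eq_of_lt_left _ (by rw [hc]; exact h1)

/-- the product of two elements of the same class -/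
theorem same_cls (h : IsCub K a b θ) {Q w : k[X]} (hQ : Irreducible Q) (hd : ¬ Q ∣ dsc a b)
    (hw : ¬ Q ∣ w) {α β : L} (hα : α ≠ 0) (hβ : β ≠ 0)
    (hnα : IsSquare (Algebra.norm K α)) (hnβ : IsSquare (Algebra.norm K β))
    {c c' : k[X]} (hcc : Q ∣ c' - c)
    (h1 : ∀ 𝔓 : HeightOneSpectrum O, Ov Q 𝔓 → 𝔓.valuation L (θ - algebraMap k[X] L c) = 1 →
      Sq1 𝔓 (α * (algebraMap k[X] L (Q * w) * (algebraMap k[X] L c - θ))))
    (h2 : ∀ 𝔓 : HeightOneSpectrum O, Ov Q 𝔓 → 𝔓.valuation L (θ - algebraMap k[X] L c') = 1 →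
      Sq1 𝔓 (β * (algebraMap k[X] L (Q * w) * (algebraMap k[X] L c' - θ)))) :
    Tr O Q (α * β) := by
  refine norm_sq1 h hQ hd (c := c) (mul_ne_zero hα hβ) (by rw [map_mul]; exact hnα.mul hnβ) ?_
  intro 𝔓 hov hc
  have hc' := val_sub_c h hQ hov hcc hc
  have h3 := Pool.Agent.N539.PP.Sq1.mul 𝔓 (h1 𝔓 hov hc) (h2 𝔓 hov hc')
  set δ := algebraMap k[X] L (Q * w) with hδ
  have hδ0 : δ ≠ 0 := by
    refine algL_ne (K := K) (mul_ne_zero hQ.ne_zero ?_)
    rintro rfl
    exact hw (dvd_zero Q)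
  set ρ := (algebraMap k[X] L c - θ) * (algebraMap k[X] L c' - θ) with hρ
  have hvc : 𝔓.valuation L (algebraMap k[X] L c - θ) = 1 := by
    rw [Valuation.map_sub_swap]
    exact hc
  have hvc' : 𝔓.valuation L (algebraMap k[X] L c' - θ) = 1 := by
    rw [Valuation.map_sub_swap]
    exact hc'
  have hρ1 : 𝔓.valuation L ρ = 1 := by
    rw [hρ, map_mul, hvc, hvc', one_mul]
  have hρ0 : ρ ≠ 0 := by
    intro h0
    rw [h0, map_zero] at hρ1
    exact zero_ne_one hρ1
  have h4 : Sq1 𝔓 ρ := by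
    refine ⟨algebraMap k[X] L c - θ, ?_⟩
    have e : ρ - (algebraMap k[X] L c - θ) ^ 2 =
      (algebraMap k[X] L c - θ) * algebraMap k[X] L (c' - c) := by
      rw [hρ, map_sub]
      ring
    rw [e, map_mul, hvc, one_mul, hρ1]
    exact (val_poly_lt (L := L) hQ hov _).2 hcc
  have h5 := Pool.Agent.N539.PP.Sq1.mul 𝔓 h3 h4
  have e : α * (δ * (algebraMap k[X] L c - θ)) * (β * (δ * (algebraMap k[X] L c' - θ))) * ρ =
      (α * β) * (δ * ρ) ^ 2 := by
    rw [hρ]
    ring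
  rw [e] at h5
  exact (Pool.Agent.N539.PP.sq1_mul_sq 𝔓 (mul_ne_zero hδ0 hρ0)).1 h5

/-- not trivial: visible at a prime with `θ - c` a unit -/
theorem not_T (h : IsCub K a b θ) {Q : k[X]} (hQ : Irreducible Q) (hd : ¬ Q ∣ dsc a b)
    (c : k[X]) {α : L} (hα : α ≠ 0) (hn : IsSquare (Algebra.norm K α)) (hT : ¬ Tr O Q α) :
    ∃ 𝔮 : HeightOneSpectrum O, Ov Q 𝔮 ∧ 𝔮.valuation L (θ - algebraMap k[X] L c) = 1 ∧
      ¬ Sq1 𝔮 α := by
  by_contra hno
  push Not at hno
  exact hT (norm_sq1 h hQ hd (c := c) hα hn hno)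

/-- the case of exactly one zero: two nontrivial elements of the old group -/
theorem old_mul (h : IsCub K a b θ) {S : Finset k[X]} {u : k[X] → k[X]} {Q : k[X]}
    (hQm : Q.Monic) (hQ : Irreducible Q) (hQS : Q ∉ S) (hd : ¬ Q ∣ dsc a b)
    (hQ12 : Ty12 a b Q) {α β : L} (hα : SelC h O S u α) (hβ : SelC h O S u β)
    (hαT : ¬ Tr O Q α) (hβT : ¬ Tr O Q β) : Tr O Q (α * β) := by
  obtain ⟨c, hc, huniq⟩ := hQ12
  obtain ⟨𝔮, h𝔮, h𝔮c, hα𝔮⟩ := not_T h hQ hd c hα.ne hα.nsq hαT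
  obtain ⟨𝔮', h𝔮', h𝔮c', hβ𝔮⟩ := not_T h hQ hd c hβ.ne hβ.nsq hβT
  have he : 𝔮' = 𝔮 := uniq_q h hQ hd h𝔮' h𝔮 hc huniq h𝔮c' h𝔮c
  subst he
  have hQ2 : ¬ Q ^ 2 ∣ dsc a b := fun h0 => hd ((dvd_pow_self Q two_ne_zero).trans h0)
  have e1 := hα.ev Q hQm hQ hQS hQ2 𝔮' h𝔮
  have e2 := hβ.ev Q hQm hQ hQS hQ2 𝔮' h𝔮
  haveI : Module.Finite k[X] O := fin_O (K := K) (L := L) h (dsc_ne_zero hd)
  haveI := Pool.Agent.N539.PP.finite_residue hQ h𝔮
  have h1 : Sq1 𝔮' (α * β) := by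
    rw [Pool.Agent.N539.PP.sq1_mul_iff 𝔮' hα.ne hβ.ne e1 e2]
    exact iff_of_false hα𝔮 hβ𝔮
  refine norm_sq1 h hQ hd (c := c) (mul_ne_zero hα.ne hβ.ne)
    (by rw [map_mul]; exact hα.nsq.mul hβ.nsq) ?_
  intro 𝔓 hov hcP
  rw [uniq_q h hQ hd hov h𝔮 hc huniq hcP h𝔮c]
  exact h1

/-- the case of exactly one zero: no new elements if there is a nontrivial old one -/
theorem no_new (hU : S_UNI) (hR : S_REC2) (hR2 : S_R2) (hL : S_L2) (h6 : (6 : k) ≠ 0)
    (h : IsCub K a b θ) {S : Finset k[X]} {u : k[X] → k[X]} (hS : GoodT a b S u) {Q w : k[X]}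
    (hQm : Q.Monic) (hQ : Irreducible Q) (hQS : Q ∉ S) (hd : ¬ Q ∣ dsc a b) (hw : ¬ Q ∣ w)
    (hQ12 : Ty12 a b Q) {s x : L} (hs : SelC h O S u s)
    (hx : SelC h O (insert Q S) (Function.update u Q w) x)
    (hsT : ¬ Tr O Q s) : Tr O Q x := by
  by_contra hxT
  obtain ⟨c, hc, huniq⟩ := hQ12
  obtain ⟨c', hc', hcl⟩ := (cls hL h6 hQ hd hw hx).resolve_left hxT
  have hcc := huniq c' hc'
  apply hsT
  refine norm_sq1 h hQ hd (c := c) hs.ne hs.nsq ?_
  intro 𝔮 hov hcq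
  have hcq' := val_sub_c h hQ hov hcc hcq
  have hQ2 : ¬ Q ^ 2 ∣ dsc a b := fun h0 => hd ((dvd_pow_self Q two_ne_zero).trans h0)
  have es := hs.ev Q hQm hQ hQS hQ2 𝔮 hov
  have hvc : 𝔮.valuation L (algebraMap k[X] L c - θ) = 1 := by
    rw [Valuation.map_sub_swap]
    exact hcq
  have hvc' : 𝔮.valuation L (algebraMap k[X] L c' - θ) = 1 := by
    rw [Valuation.map_sub_swap]
    exact hcq'
  have hne : algebraMap k[X] L c - θ ≠ 0 := by
    intro h0
    rw [h0, map_zero] at hvc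
    exact zero_ne_one hvc
  have hne' : algebraMap k[X] L c' - θ ≠ 0 := by
    intro h0
    rw [h0, map_zero] at hvc'
    exact zero_ne_one hvc'
  have hQL := algL_ne (K := K) (L := L) hQ.ne_zero
  have hwL : algebraMap k[X] L w ≠ 0 := by
    refine algL_ne (K := K) ?_
    rintro rfl
    exact hw (dvd_zero Q)
  -- the valuation of `x` is odd
  have hxo : ¬ Ev 𝔮 x := by
    have h1 := Pool.Agent.N539.PP.Sq1.ev 𝔮 (hcl 𝔮 hov hcq')
    have h2 : algebraMap k[X] L (Q * w) * (algebraMap k[X] L c' - θ) ≠ 0 := by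
      rw [map_mul]
      exact mul_ne_zero (mul_ne_zero hQL hwL) hne'
    rw [Pool.Agent.N539.PP.ev_mul 𝔮 hx.ne h2] at h1
    rw [h1, Pool.Agent.N539.PP.ev_iff 𝔮 h2, map_mul, map_mul, map_mul, hvc',
      unram h hQ hd hov, val_poly_eq hQ hov hw, mul_one, mul_one, log_exp]
    decide
  have hsxo : ¬ Ev 𝔮 (s * x) := by
    rw [Pool.Agent.N539.PP.ev_mul 𝔮 hs.ne hx.ne]
    intro h0
    exact hxo (h0.1 es)
  have q1 := selQ_of' hQS hx
  have q2 := selQ_mul h6 hS (selQ_of Q hs) q1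
  have i1 := iso_Q hU hR h6 hS hQm hQ q1 (plP hQ) rfl
  have i2 := iso_Q hU hR h6 hS hQm hQ q2 (plP hQ) rfl
  have r1 := hR2 k K L O a b θ h6 h Q (plP hQ) hQ rfl hd c hc huniq x hx.ne hx.nsq i1
    𝔮 hov hcq hxo
  have r2 := hR2 k K L O a b θ h6 h Q (plP hQ) hQ rfl hd c hc huniq (s * x) q2.ne q2.nsq i2
    𝔮 hov hcq hsxo
  have r3 := Pool.Agent.N539.PP.Sq1.mul 𝔮 r1 r2
  have e : x * (algebraMap k[X] L Q * (algebraMap k[X] L c - θ)) *
      (s * x * (algebraMap k[X] L Q * (algebraMap k[X] L c - θ))) =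
      s * (x * (algebraMap k[X] L Q * (algebraMap k[X] L c - θ))) ^ 2 := by ring
  rw [e] at r3
  exact (Pool.Agent.N539.PP.sq1_mul_sq 𝔮 (mul_ne_zero hx.ne (mul_ne_zero hQL hne))).1 r3

end main

/-- **STEP** -/
theorem step (hU : S_UNI) (hR : S_REC2) (hL : S_L2) (hR2 : S_R2) : Run7.h875.TS.S_STEP := by
  intro k K L O _ _ _ _ _ _ _ _ _ _ _ _ _ _ _ _ a b θ h6 h S u hS hfin Q hQm hQ hQS hd w hw
  have hS' : GoodT a b (insert Q S) (Function.update u Q w) := by
    refine ⟨?_, ?_, ?_, ?_⟩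
    · intro P hP
      rcases Finset.mem_insert.1 hP with rfl | hP
      · exact hQm
      · exact hS.mon P hP
    · intro P hP
      rcases Finset.mem_insert.1 hP with rfl | hP
      · exact hQ
      · exact hS.irr P hP
    · intro P hP
      rcases Finset.mem_insert.1 hP with rfl | hP
      · exact hd
      · exact hS.nd P hP
    · intro P hP
      by_cases hPQ : P = Q
      · rw [hPQ, Function.update_self]
        exact hw
      · rcases Finset.mem_insert.1 hP with h0 | hP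
        · exact absurd h0 hPQ
        · rw [Function.update_of_ne hPQ]
          exact hS.nu P hP
  obtain ⟨hG, hsqG⟩ := GRP.grp k K L O a b θ h6 h S u hS
  obtain ⟨hG', hsqG'⟩ := GRP.grp k K L O a b θ h6 h (insert Q S) (Function.update u Q w) hS'
  set G := SelG h O S u with hGdef
  set G' := SelG h O (insert Q S) (Function.update u Q w) with hGdef'
  set T := Tsub (L := L) O Q with hT
  have hsqT : sqL L ≤ T := sqL_le_Tsub Q
  have hG'T : G' ⊓ T ≤ G := by
    rintro α ⟨h1, h2⟩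
    rw [hG]
    exact sel_of_T hQS ((hG' α).1 h1) h2
  have hGT : G' ⊓ T ≤ G ⊓ T := le_inf hG'T inf_le_right
  have hchain := Subgroup.relIndex_inf_mul_relIndex (sqL L) T G
  rw [inf_eq_left.2 hsqT, inf_comm] at hchain
  have hne : (sqL L).relIndex (G ⊓ T) ≠ 0 := by
    intro h0
    rw [h0, zero_mul] at hchain
    exact hfin hchain.symm
  have hsq : ∀ x : Lˣ, x ^ 2 ∈ T := fun x => hsqT ⟨x, rfl⟩
  refine ⟨T, fun α => Iff.rfl, hsqT, hG'T, ?_, ?_, ?_⟩
  · -- inert
    intro h3 α hα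
    have h1 := (hG' α).1 hα
    have h2 : Tr O Q (α : L) := by
      rcases cls hL h6 hQ hd hw h1 with h2 | ⟨c, hc, -⟩
      · exact h2
      · exact absurd hc (h3 c)
    exact hG'T ⟨hα, h2⟩
  · intro h12
    refine ⟨?_, ?_, ?_⟩
    · intro hnot α hα
      rw [SetLike.not_le_iff_exists] at hnot
      obtain ⟨s, hs, hsT⟩ := hnot
      have h2 : Tr O Q (α : L) := no_new hU hR hR2 hL h6 h hS hQm hQ hQS hd hw h12
        ((hG s).1 hs) ((hG' α).1 hα) hsT
      exact hGT ⟨hα, h2⟩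
    · obtain ⟨c, hc, huniq⟩ := h12
      refine card_chain (sqL L) T G G' hsqT hGT hne ?_
      refine relIndex_le T G' (ι := Unit) (fun α => if α ∈ T then none else some ()) ?_ ?_
        (fun x _ => hsq x)
      · intro x hx h0
        by_contra hno
        simp [hno] at h0
      · intro x hx y hy i h1 h2
        have hx' : x ∉ T := by
          intro h0
          simp [h0] at h1
        have hy' : y ∉ T := by
          intro h0
          simp [h0] at h2
        have sx := (hG' x).1 hx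
        have sy := (hG' y).1 hy
        obtain ⟨c1, hc1, hcl1⟩ := (cls hL h6 hQ hd hw sx).resolve_left hx'
        obtain ⟨c2, hc2, hcl2⟩ := (cls hL h6 hQ hd hw sy).resolve_left hy'
        have hcc : Q ∣ c2 - c1 := by
          have e : c2 - c1 = (c2 - c) - (c1 - c) := by ring
          rw [e]
          exact dvd_sub (huniq c2 hc2) (huniq c1 hc1)
        show Tr O Q ((x * y : Lˣ) : L)
        rw [Units.val_mul]
        exact same_cls h hQ hd hw sx.ne sy.ne sx.nsq sy.nsq hcc hcl1 hcl2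
    · unfold sz
      rw [← hchain, mul_comm]
      refine Nat.mul_le_mul_right _ ?_
      refine relIndex_le T G (ι := Unit) (fun α => if α ∈ T then none else some ()) ?_ ?_
        (fun x _ => hsq x)
      · intro x hx h0
        by_contra hno
        simp [hno] at h0
      · intro x hx y hy i h1 h2
        have hx' : x ∉ T := by
          intro h0
          simp [h0] at h1
        have hy' : y ∉ T := by
          intro h0
          simp [h0] at h2
        show Tr O Q ((x * y : Lˣ) : L)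
        rw [Units.val_mul]
        exact old_mul h hQm hQ hQS hd h12 ((hG x).1 hx) ((hG y).1 hy) hx' hy'
  · -- at most three zeros
    obtain ⟨κ, _, π, hπs, hπ⟩ := exists_res hQ
    set R := (cubR (π a) (π b)).roots.toFinset with hR'
    have hcard : R.card ≤ 3 := by
      have h1 := (cubR (π a) (π b)).card_roots'
      rw [cubR_natDegree] at h1
      exact (Multiset.toFinset_card_le _).trans h1
    refine card_chain (sqL L) T G G' hsqT hGT hne ?_
    have hmemR : ∀ c : k[X], RtM a b Q c → π c ∈ R := by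
      intro c hc
      rw [hR', Multiset.mem_toFinset, mem_roots (cubR_monic _ _).ne_zero]
      have := (hπ _).2 hc
      unfold cubR
      simp only [IsRoot, eval_add, eval_mul, eval_pow, eval_X, eval_C]
      simpa using this
    have hcls : ∀ α : Lˣ, ∃ o : Option R, (α ∈ G' → o = none → α ∈ T) ∧
        ∀ r : R, α ∈ G' → o = some r → ∃ c : k[X], π c = r ∧
          ∀ 𝔓 : HeightOneSpectrum O, Ov Q 𝔓 → 𝔓.valuation L (θ - algebraMap k[X] L c) = 1 →
            Sq1 𝔓 ((α : L) * (algebraMap k[X] L (Q * w) * (algebraMap k[X] L c - θ))) := by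
      intro α
      by_cases hα : α ∈ G'
      · rcases cls hL h6 hQ hd hw ((hG' α).1 hα) with h1 | ⟨c, hc, hcl⟩
        · exact ⟨none, fun _ _ => h1, fun r _ h0 => by simp at h0⟩
        · refine ⟨some ⟨π c, hmemR c hc⟩, fun _ h0 => by simp at h0, fun r _ h0 => ⟨c, ?_, hcl⟩⟩
          rw [Option.some.injEq] at h0
          rw [← h0]
      · exact ⟨none, fun h0 => absurd h0 hα, fun r h0 => absurd h0 hα⟩
    choose f hf1 hf2 using hcls
    have h1 := relIndex_le T G' (ι := R) f (fun x hx h0 => hf1 x hx h0) (by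
      intro x hx y hy r h1 h2
      obtain ⟨c1, hc1, hcl1⟩ := hf2 x r hx h1
      obtain ⟨c2, hc2, hcl2⟩ := hf2 y r hy h2
      have hcc : Q ∣ c2 - c1 := by
        rw [← hπ, map_sub, hc1, hc2, sub_self]
      have sx := (hG' x).1 hx
      have sy := (hG' y).1 hy
      show Tr O Q ((x * y : Lˣ) : L)
      rw [Units.val_mul]
      exact same_cls h hQ hd hw sx.ne sy.ne sx.nsq sy.nsq hcc hcl1 hcl2) (fun x _ => hsq x)
    rw [Fintype.card_coe] at h1
    omega

end Run7.h225.TS.STEP
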