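import Pool.Agent.Run7.h875.TS.StmA
import Pool.Agent.Run7.h225.TS.Pol

/-!
# STK: the parity of the number of zeros

Project TS (helper875), problem MP_48b749_nt; helper225.
-/

set_option autoImplicit false
set_option linter.all false

open Polynomial
open Pool.Agent.N874.PP Run7.h875.TS Run7.h225.TS
open scoped Classical

namespace Run7.h225.TS.STK

section

variable {F : Type} [Field F] [Fintype F]

/-- the elements fixed by the Frobenius map -/
theorem mem_range {E : Type} [Field E] [Algebra F E] {x : E} (hx : x ^ Fintype.card F = x) :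
    ∃ c : F, algebraMap F E c = x := by
  have h1 : (1 : ℕ) < Fintype.card F := Fintype.one_lt_card
  have hne : (X ^ Fintype.card F - X : F[X]) ≠ 0 := FiniteField.X_pow_card_sub_X_ne_zero F h1
  have hr := FiniteField.roots_X_pow_card_sub_X F
  have hd : (X ^ Fintype.card F - X : F[X]).natDegree = Fintype.card F :=
    FiniteField.X_pow_card_sub_X_natDegree_eq F h1
  have hm : (X ^ Fintype.card F - X : F[X]).Monic := by
    refine monic_X_pow_sub ?_
    rw [degree_X]
    exact_mod_cast h1
  have hs : (X ^ Fintype.card F - X : F[X]) = ∏ c : F, (X - C c) := by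
    have := prod_multiset_X_sub_C_of_monic_of_roots_card_eq hm (by
      rw [hr, hd]
      rfl)
    rw [hr] at this
    exact this.symm
  have h2 : aeval x (X ^ Fintype.card F - X : F[X]) = 0 := by
    rw [map_sub, map_pow, aeval_X, hx, sub_self]
  rw [hs, map_prod] at h2
  obtain ⟨c, -, hc⟩ := Finset.prod_eq_zero_iff.1 h2
  refine ⟨c, ?_⟩
  rw [map_sub, aeval_X, aeval_C, sub_eq_zero] at hc
  exact hc.symm

theorem sq_of_no_root (A B : F) (hno : ∀ c : F, c ^ 3 + A * c + B ≠ 0) :
    ∃ d : F, d ^ 2 = -(4 * A ^ 3 + 27 * B ^ 2) := by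
  have hdeg := cubp_natDegree A B
  have hirr : Irreducible (cubp A B) := by
    rw [irreducible_iff_roots_eq_zero_of_degree_le_three (by omega) (by omega)]
    refine Multiset.eq_zero_of_forall_notMem fun c hc => hno c ?_
    have := (mem_roots (cubp_monic A B).ne_zero).1 hc
    simpa [cubp, IsRoot] using this
  haveI : Fact (Irreducible (cubp A B)) := ⟨hirr⟩
  set E := AdjoinRoot (cubp A B) with hE
  set pb := AdjoinRoot.powerBasis (cubp_monic A B).ne_zero with hpb
  haveI : Module.Finite F E := pb.finite
  haveI : Finite E := Module.finite_of_finite F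
  letI : Fintype E := Fintype.ofFinite E
  have hfr : Module.finrank F E = 3 := by
    rw [pb.finrank, hpb, AdjoinRoot.powerBasis_dim, hdeg]
  have hcard : Fintype.card E = Fintype.card F ^ 3 := by
    rw [← hfr]
    exact Module.card_eq_pow_finrank
  set φ := FiniteField.frobeniusAlgHom F E with hφ
  have hφa : ∀ x : E, φ x = x ^ Fintype.card F := fun x => rfl
  set α : E := AdjoinRoot.root (cubp A B) with hα
  set a := algebraMap F E A with ha
  set b := algebraMap F E B with hb
  have h1 : α ^ 3 + a * α + b = 0 := by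
    have h0 : aeval α (cubp A B) = 0 := by
      rw [hα, AdjoinRoot.aeval_eq, AdjoinRoot.mk_self]
    simpa [cubp] using h0
  set β := φ α with hβ
  set γ := φ β with hγ
  have h2 : β ^ 3 + a * β + b = 0 := by
    have := congrArg φ h1
    rwa [map_add, map_add, map_mul, map_pow, map_zero, ha, hb, AlgHom.commutes,
      AlgHom.commutes] at this
  have h3 : γ ^ 3 + a * γ + b = 0 := by
    have := congrArg φ h2
    rwa [map_add, map_add, map_mul, map_pow, map_zero, ha, hb, AlgHom.commutes,
      AlgHom.commutes] at this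
  have h4 : φ γ = α := by
    rw [hγ, hβ, hφa, hφa, hφa, ← pow_mul, ← pow_mul]
    have e : Fintype.card F * (Fintype.card F * Fintype.card F) = Fintype.card E := by
      rw [hcard]; ring
    rw [e]
    exact FiniteField.pow_card α
  have hinj : Function.Injective φ := φ.injective
  have hab : α ≠ β := by
    intro h
    obtain ⟨c, hc⟩ := mem_range (F := F) (x := α) (by rw [← hφa, ← hβ]; exact h.symm)
    apply hno c
    apply (algebraMap F E).injective
    rw [map_add, map_add, map_mul, map_pow, map_zero, hc]
    exact h1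
  have hbc : β ≠ γ := fun h => hab (hinj h)
  have hca : γ ≠ α := fun h => hab (by
    have h5 : φ γ = φ α := by rw [h]
    rw [h4] at h5
    exact h5)
  have e1 : α ^ 2 + α * β + β ^ 2 + a = 0 := by
    apply mul_left_cancel₀ (sub_ne_zero.2 hab)
    linear_combination h1 - h2
  have e2 : β ^ 2 + β * γ + γ ^ 2 + a = 0 := by
    apply mul_left_cancel₀ (sub_ne_zero.2 hbc)
    linear_combination h2 - h3
  have e3 : α + β + γ = 0 := by
    apply mul_left_cancel₀ (sub_ne_zero.2 hca)
    linear_combination e2 - e1
  have hg : γ = -α - β := by linear_combination e3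
  have ha' : a = -(α ^ 2 + α * β + β ^ 2) := by linear_combination e1
  have hb' : b = α * β * (α + β) := by linear_combination h1 - α * e1
  set δ := (α - β) * (β - γ) * (γ - α) with hδ
  have hφδ : φ δ = δ := by
    rw [hδ, map_mul, map_mul, map_sub, map_sub, map_sub, h4, ← hγ, ← hβ]
    ring
  obtain ⟨d, hd⟩ := mem_range (F := F) (x := δ) (by rw [← hφa]; exact hφδ)
  refine ⟨d, ?_⟩
  apply (algebraMap F E).injective
  rw [map_pow, hd, map_neg, map_add, map_mul, map_mul, map_pow, map_pow, map_ofNat, map_ofNat,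
    ← ha, ← hb, ha', hb', hδ, hg]
  ring

theorem of_root {A B : F} (h6 : (6 : F) ≠ 0) (hd : 4 * A ^ 3 + 27 * B ^ 2 ≠ 0) {r : F}
    (hr : r ^ 3 + A * r + B = 0) :
    (IsSquare (-(4 * A ^ 3 + 27 * B ^ 2)) ∧
      (Finset.univ.filter fun c : F => c ^ 3 + A * c + B = 0).card = 3) ∨
    (¬ IsSquare (-(4 * A ^ 3 + 27 * B ^ 2)) ∧
      (Finset.univ.filter fun c : F => c ^ 3 + A * c + B = 0).card = 1) := by
  have h2 : (2 : F) ≠ 0 := by
    intro h0
    apply h6
    rw [show (6 : F) = 2 * 3 by norm_num, h0, zero_mul]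
  have hB : B = -r ^ 3 - A * r := by linear_combination hr
  have key : -(4 * A ^ 3 + 27 * B ^ 2) = (3 * r ^ 2 + A) ^ 2 * (-3 * r ^ 2 - 4 * A) := by
    rw [hB]; ring
  have hne : 3 * r ^ 2 + A ≠ 0 := by
    intro h0
    apply hd
    rw [h0] at key
    linear_combination -key
  have hne' : -3 * r ^ 2 - 4 * A ≠ 0 := by
    intro h0
    apply hd
    rw [h0] at key
    linear_combination -key
  have hfac : ∀ c : F, c ^ 3 + A * c + B = (c - r) * (c ^ 2 + r * c + (r ^ 2 + A)) := by
    intro c
    rw [hB]; ring
  by_cases hs : IsSquare (-3 * r ^ 2 - 4 * A)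
  · left
    obtain ⟨s, hs⟩ := hs
    have hs0 : s ≠ 0 := by
      rintro rfl
      exact hne' (by rw [hs]; ring)
    refine ⟨⟨(3 * r ^ 2 + A) * s, by rw [key, hs]; ring⟩, ?_⟩
    have hset : (Finset.univ.filter fun c : F => c ^ 3 + A * c + B = 0) =
        {r, (-r + s) / 2, (-r - s) / 2} := by
      ext c
      simp only [Finset.mem_filter, Finset.mem_univ, true_and, Finset.mem_insert,
        Finset.mem_singleton]
      rw [hfac]
      have e : c ^ 2 + r * c + (r ^ 2 + A) = (c - (-r + s) / 2) * (c - (-r - s) / 2) := by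
        field_simp
        linear_combination -hs
      rw [e, mul_eq_zero, mul_eq_zero, sub_eq_zero, sub_eq_zero, sub_eq_zero]
    rw [hset]
    have e1 : (-r + s) / 2 ≠ (-r - s) / 2 := by
      intro h0
      apply mul_ne_zero h2 hs0
      field_simp at h0
      linear_combination h0
    have q0 : r ^ 2 + r * r + (r ^ 2 + A) ≠ 0 := by
      intro h0
      apply hne
      linear_combination h0
    have q1 : r ^ 2 + r * r + (r ^ 2 + A) = (r - (-r + s) / 2) * (r - (-r - s) / 2) := by
      field_simp
      linear_combination -hs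
    have e2 : r ≠ (-r + s) / 2 := by
      intro h0
      apply q0
      rw [q1]
      rw [← h0, sub_self, zero_mul]
    have e3 : r ≠ (-r - s) / 2 := by
      intro h0
      apply q0
      rw [q1]
      rw [← h0, sub_self, mul_zero]
    exact Finset.card_eq_three.2 ⟨_, _, _, e2, e3, e1, rfl⟩
  · right
    refine ⟨?_, ?_⟩
    · rintro ⟨s, hs'⟩
      apply hs
      rw [key] at hs'
      refine ⟨s / (3 * r ^ 2 + A), ?_⟩
      field_simp
      linear_combination hs'
    · have hset : (Finset.univ.filter fun c : F => c ^ 3 + A * c + B = 0) = {r} := by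
        ext c
        simp only [Finset.mem_filter, Finset.mem_univ, true_and, Finset.mem_singleton]
        rw [hfac, mul_eq_zero, sub_eq_zero, or_iff_left]
        intro h0
        apply hs
        exact ⟨2 * c + r, by linear_combination -4 * h0⟩
      rw [hset, Finset.card_singleton]

end

theorem stk : Run7.h875.TS.S_STK := by
  intro k F _ _ _ _ a b t h6 hd
  have h6F : (6 : F) ≠ 0 := by
    intro h0
    apply h6
    apply (algebraMap k F).injective
    rw [map_ofNat, map_zero]
    exact h0
  have hdsc : aeval t (dsc a b) = 4 * (aeval t a) ^ 3 + 27 * (aeval t b) ^ 2 := by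
    unfold dsc
    rw [map_add, map_mul, map_mul, map_pow, map_pow, map_ofNat, map_ofNat]
  rw [hdsc] at hd ⊢
  have hne : -(4 * (aeval t a) ^ 3 + 27 * (aeval t b) ^ 2) ≠ 0 := neg_ne_zero.2 hd
  by_cases hex : ∃ r : F, r ^ 3 + aeval t a * r + aeval t b = 0
  · obtain ⟨r, hr⟩ := hex
    rcases of_root h6F hd hr with ⟨h1, h2⟩ | ⟨h1, h2⟩
    · left
      refine ⟨?_, Or.inr h2⟩
      unfold chi
      rw [(quadraticChar_one_iff_isSquare hne).2 h1]
      norm_num
    · right
      refine ⟨?_, h2⟩
      unfold chi
      rw [quadraticChar_neg_one_iff_not_isSquare.2 h1]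
      norm_num
  · push Not at hex
    left
    refine ⟨?_, Or.inl ?_⟩
    · obtain ⟨d, hd'⟩ := sq_of_no_root _ _ hex
      unfold chi
      rw [(quadraticChar_one_iff_isSquare hne).2 ⟨d, by rw [← hd', pow_two]⟩]
      norm_num
    · unfold rts
      rw [Finset.card_eq_zero, Finset.filter_eq_empty_iff]
      intro c _
      exact hex c

end Run7.h225.TS.STK
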